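import Pool.Agent.Helper98.APDefSys

/-! `K`-automatic sets (finitely many residuals) form a definability system. -/

namespace Pool.Agent.Helper98.AP

open Set

/-- the residual family of `S` at the prefix `a`: the tuples `z` of `n`-digit numbers with
`a K^n + z ∈ S` -/
def resid {α : Type} (K : ℕ) (S : Set (α → ℕ)) (a : α → ℕ) : ℕ → Set (α → ℕ) :=
  fun n => {z | (∀ i, z i < K ^ n) ∧ (fun i => a i * K ^ n + z i) ∈ S}

/-- finitely many residual families -/
def Aut {α : Type} (K : ℕ) (S : Set (α → ℕ)) : Prop := (Set.range (resid K S)).Finite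

variable {α β : Type}

theorem Aut.of_subset_image {ι : Type*} {K : ℕ} {T : Set (α → ℕ)} {s : Set ι} (hs : s.Finite)
    (Φ : ι → ℕ → Set (α → ℕ)) (h : ∀ a, ∃ i ∈ s, resid K T a = Φ i) : Aut K T := by
  refine (hs.image Φ).subset ?_
  rintro _ ⟨a, rfl⟩
  obtain ⟨i, hi, h⟩ := h a
  exact ⟨i, hi, h.symm⟩

theorem Aut.compl {K : ℕ} {S : Set (α → ℕ)} (h : Aut K S) : Aut K Sᶜ := by
  refine Aut.of_subset_image h (fun G n => {z | (∀ i, z i < K ^ n) ∧ z ∉ G n}) ?_
  intro a
  refine ⟨_, ⟨a, rfl⟩, ?_⟩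
  funext n
  ext z
  simp only [resid, mem_ofPred_eq, mem_compl_iff]
  tauto

theorem Aut.inter {K : ℕ} {S T : Set (α → ℕ)} (h : Aut K S) (h' : Aut K T) : Aut K (S ∩ T) := by
  refine Aut.of_subset_image (h.prod h') (fun G n => G.1 n ∩ G.2 n) ?_
  intro a
  refine ⟨(resid K S a, resid K T a), ⟨⟨a, rfl⟩, ⟨a, rfl⟩⟩, ?_⟩
  funext n
  ext z
  simp only [resid, mem_ofPred_eq, mem_inter_iff]
  tauto

theorem Aut.preimage {K : ℕ} (f : α → β) {S : Set (α → ℕ)} (h : Aut K S) :
    Aut K {x : β → ℕ | (fun i => x (f i)) ∈ S} := by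
  refine Aut.of_subset_image h
    (fun G n => {z | (∀ i, z i < K ^ n) ∧ (fun i => z (f i)) ∈ G n}) ?_
  intro a
  refine ⟨resid K S (fun i => a (f i)), ⟨_, rfl⟩, ?_⟩
  funext n
  ext z
  simp only [resid, mem_ofPred_eq]
  constructor
  · rintro ⟨h1, h2⟩
    exact ⟨h1, fun i => h1 _, h2⟩
  · rintro ⟨h1, _, h2⟩
    exact ⟨h1, h2⟩

theorem Aut.image {K : ℕ} (hK : 2 ≤ K) (f : α → β) {S : Set (β → ℕ)} (h : Aut K S) :
    Aut K {x : α → ℕ | ∃ y ∈ S, (fun i => y (f i)) = x} := by
  have hK0 : ∀ n, 0 < K ^ n := fun n => by positivity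
  refine Aut.of_subset_image h.finite_subsets
    (fun 𝒢 n => {z | (∀ i, z i < K ^ n) ∧ ∃ G ∈ 𝒢, ∃ y ∈ G n, (fun i => y (f i)) = z}) ?_
  intro a
  refine ⟨{G | ∃ b : β → ℕ, (fun i => b (f i)) = a ∧ G = resid K S b}, ?_, ?_⟩
  · rintro _ ⟨b, _, rfl⟩
    exact ⟨b, rfl⟩
  · funext n
    ext z
    simp only [mem_ofPred_eq, resid]
    constructor
    · rintro ⟨hz, y, hy, hyz⟩
      refine ⟨hz, _, ⟨fun j => y j / K ^ n, ?_, rfl⟩, fun j => y j % K ^ n, ⟨?_, ?_⟩, ?_⟩
      · funext i
        have := congrFun hyz i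
        show y (f i) / K ^ n = a i
        rw [this, Nat.mul_comm, Nat.mul_add_div (hK0 n), Nat.div_eq_of_lt (hz i), Nat.add_zero]
      · intro j; exact Nat.mod_lt _ (hK0 n)
      · have : (fun j => y j / K ^ n * K ^ n + y j % K ^ n) = y := by
          funext j; rw [Nat.mul_comm]; exact Nat.div_add_mod _ _
        rw [this]; exact hy
      · funext i
        have := congrFun hyz i
        show y (f i) % K ^ n = z i
        rw [this, Nat.mul_comm, Nat.mul_add_mod, Nat.mod_eq_of_lt (hz i)]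
    · rintro ⟨hz, _, ⟨b, hb, rfl⟩, y, ⟨hy1, hy2⟩, hyz⟩
      refine ⟨hz, _, hy2, ?_⟩
      funext i
      have h1 := congrFun hb i
      have h2 := congrFun hyz i
      show b (f i) * K ^ n + y (f i) = _
      rw [h1, h2]

theorem Aut.add {K : ℕ} (hK : 2 ≤ K) : Aut K {x : Fin 3 → ℕ | x 0 + x 1 = x 2} := by
  have hK0 : ∀ n, 0 < K ^ n := fun n => by positivity
  refine Aut.of_subset_image (Set.finite_le_nat 2)
    (fun c n => {z : Fin 3 → ℕ | (∀ i, z i < K ^ n) ∧
      ((c = 0 ∧ z 0 + z 1 = z 2) ∨ (c = 1 ∧ z 0 + z 1 = K ^ n + z 2))}) ?_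
  intro a
  by_cases h0 : a 0 + a 1 = a 2
  · refine ⟨0, by simp, ?_⟩
    funext n
    ext z
    simp only [resid, mem_ofPred_eq]
    refine and_congr_right fun hz => ?_
    rw [← h0, Nat.add_mul]
    constructor
    · intro h; left; exact ⟨trivial, by omega⟩
    · rintro (⟨_, h⟩ | ⟨h, _⟩)
      · omega
      · omega
  · by_cases h1 : a 0 + a 1 + 1 = a 2
    · refine ⟨1, by simp, ?_⟩
      funext n
      ext z
      simp only [resid, mem_ofPred_eq]
      refine and_congr_right fun hz => ?_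
      rw [← h1, Nat.add_mul, Nat.add_mul, Nat.one_mul]
      constructor
      · intro h; right; exact ⟨trivial, by omega⟩
      · rintro (⟨h, _⟩ | ⟨_, h⟩)
        · omega
        · omega
    · refine ⟨2, by simp, ?_⟩
      funext n
      ext z
      simp only [resid, mem_ofPred_eq]
      refine and_congr_right fun hz => ?_
      constructor
      · intro h
        exfalso
        have hz0 := hz 0
        have hz1 := hz 1
        have hz2 := hz 2
        rcases lt_trichotomy (a 0 + a 1) (a 2) with h2 | h2 | h2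
        · have h3 : a 0 + a 1 + 2 ≤ a 2 := by omega
          have := Nat.mul_le_mul_right (K ^ n) h3
          rw [Nat.add_mul, Nat.add_mul] at this
          omega
        · exact h0 h2
        · have h3 : a 2 + 1 ≤ a 0 + a 1 := h2
          have := Nat.mul_le_mul_right (K ^ n) h3
          rw [Nat.add_mul, Nat.add_mul] at this
          omega
      · rintro (⟨h, _⟩ | ⟨h, _⟩) <;> omega

/-- The system of `K`-automatic sets. -/
def autSys (K : ℕ) (hK : 2 ≤ K) : DefSys where
  D := fun _ _ S => Aut K S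
  compl := fun h => h.compl
  inter := fun h h' => h.inter h'
  preimage := fun f _ h => h.preimage f
  image := fun f _ h => h.image hK f
  add := Aut.add hK

theorem Aut.pow {K : ℕ} (hK : 2 ≤ K) : Aut K {x : Unit → ℕ | ∃ n, x () = K ^ n} := by
  have hK0 : ∀ n, 0 < K ^ n := fun n => by positivity
  refine Aut.of_subset_image (Set.finite_le_nat 2)
    (fun c n => {z : Unit → ℕ | (∀ i, z i < K ^ n) ∧
      ((c = 0 ∧ ∃ j, z () = K ^ j) ∨ (c = 1 ∧ z () = 0))}) ?_
  intro a
  by_cases h0 : a () = 0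
  · refine ⟨0, by simp, ?_⟩
    funext n
    ext z
    simp only [resid, mem_ofPred_eq]
    refine and_congr_right fun hz => ?_
    rw [h0]
    simp
  · by_cases h1 : ∃ i, a () = K ^ i
    · obtain ⟨i, hi⟩ := h1
      refine ⟨1, by simp, ?_⟩
      funext n
      ext z
      simp only [resid, mem_ofPred_eq]
      refine and_congr_right fun hz => ?_
      constructor
      · rintro ⟨j, hj⟩
        right
        refine ⟨trivial, ?_⟩
        have hle : K ^ n ≤ K ^ j := by
          rw [← hj, hi]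
          calc K ^ n ≤ K ^ i * K ^ n := Nat.le_mul_of_pos_left _ (hK0 i)
            _ ≤ _ := Nat.le_add_right _ _
        have hnj : n ≤ j := (Nat.pow_le_pow_iff_right (by omega)).1 hle
        have hd : K ^ n ∣ z () := by
          have h2 : K ^ n ∣ a () * K ^ n + z () := by rw [hj]; exact pow_dvd_pow _ hnj
          exact (Nat.dvd_add_right (Dvd.intro_left _ rfl)).1 h2
        exact Nat.eq_zero_of_dvd_of_lt hd (hz ())
      · rintro (⟨h, _⟩ | ⟨_, h⟩)
        · omega
        · exact ⟨i + n, by rw [h, hi, pow_add, Nat.add_zero]⟩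
    · refine ⟨2, by simp, ?_⟩
      funext n
      ext z
      simp only [resid, mem_ofPred_eq]
      refine and_congr_right fun hz => ?_
      constructor
      · rintro ⟨j, hj⟩
        exfalso
        apply h1
        have hle : K ^ n ≤ K ^ j := by
          rw [← hj]
          calc K ^ n ≤ a () * K ^ n := Nat.le_mul_of_pos_left _ (Nat.pos_of_ne_zero h0)
            _ ≤ _ := Nat.le_add_right _ _
        have hnj : n ≤ j := (Nat.pow_le_pow_iff_right (by omega)).1 hle
        have hd : K ^ n ∣ z () := by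
          have h2 : K ^ n ∣ a () * K ^ n + z () := by rw [hj]; exact pow_dvd_pow _ hnj
          exact (Nat.dvd_add_right (Dvd.intro_left _ rfl)).1 h2
        have hz0 : z () = 0 := Nat.eq_zero_of_dvd_of_lt hd (hz ())
        refine ⟨j - n, ?_⟩
        have h3 : a () * K ^ n = K ^ (j - n) * K ^ n := by
          rw [← pow_add, Nat.sub_add_cancel hnj, ← hj, hz0, Nat.add_zero]
        exact Nat.eq_of_mul_eq_mul_right (hK0 n) h3
      · rintro (⟨h, _⟩ | ⟨h, _⟩) <;> omega

/-- automatic in base `K` implies automatic in base `K^L` -/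
theorem Aut.basePow {K : ℕ} (L : ℕ) {S : Set (α → ℕ)} (h : Aut K S) : Aut (K ^ L) S := by
  refine Aut.of_subset_image h (fun G n => G (L * n)) ?_
  intro a
  refine ⟨_, ⟨a, rfl⟩, ?_⟩
  funext n
  ext z
  simp only [resid, mem_ofPred_eq, pow_mul]

end Pool.Agent.Helper98.AP
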