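import Pool.Agent.Helper98.APTame

/-! Change of base and families without branching. -/

namespace Pool.Agent.Helper98.AP

open Set DefSys

set_option linter.unusedSectionVars false
set_option linter.unusedVariables false

variable {α : Type} [Finite α] {K : ℕ}

/-- the family restricted to levels divisible by `L` -/
def scale (L : ℕ) (G : ℕ → Set (α → ℕ)) : ℕ → Set (α → ℕ) := fun n => G (L * n)

theorem pow_iff (hK : 2 ≤ K) {L : ℕ} (hL : 1 ≤ L) (x : ℕ) :
    (∃ n, x = (K ^ L) ^ n) ↔ (∃ n, x = K ^ n) ∧ ∃ y, x = (K ^ L - 1) * y + 1 := by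
  have hKL : 2 ≤ K ^ L := by
    calc 2 ≤ K := hK
      _ = K ^ 1 := (pow_one K).symm
      _ ≤ K ^ L := Nat.pow_le_pow_right (by omega) hL
  have key : ∀ q, ∃ y, (K ^ L) ^ q = (K ^ L - 1) * y + 1 := by
    intro q
    induction q with
    | zero => exact ⟨0, by simp⟩
    | succ q ih =>
      obtain ⟨y, hy⟩ := ih
      refine ⟨y * K ^ L + 1, ?_⟩
      rw [pow_succ, hy]
      have : K ^ L = (K ^ L - 1) + 1 := by omega
      calc ((K ^ L - 1) * y + 1) * K ^ L = (K ^ L - 1) * (y * K ^ L) + K ^ L := by ring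
        _ = (K ^ L - 1) * (y * K ^ L) + ((K ^ L - 1) + 1) := by rw [← this]
        _ = (K ^ L - 1) * (y * K ^ L + 1) + 1 := by ring
  constructor
  · rintro ⟨n, rfl⟩
    exact ⟨⟨L * n, by rw [pow_mul]⟩, key n⟩
  · rintro ⟨⟨n, rfl⟩, y, hy⟩
    have hn : n = L * (n / L) + n % L := (Nat.div_add_mod n L).symm
    obtain ⟨y1, hy1⟩ := key (n / L)
    have e : K ^ n = K ^ (n % L) * ((K ^ L - 1) * y1 + 1) := by
      conv_lhs => rw [hn, pow_add, pow_mul, hy1]
      ring
    have hmodlt : n % L < L := Nat.mod_lt _ hL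
    have hr : K ^ (n % L) < K ^ L := Nat.pow_lt_pow_right (by omega) hmodlt
    have hr1 : 1 ≤ K ^ (n % L) := Nat.one_le_pow _ _ (by omega)
    have hr0 : K ^ (n % L) = 1 := by
      have h1 : K ^ (n % L) % (K ^ L - 1) = 1 % (K ^ L - 1) := by
        have h2 : K ^ n % (K ^ L - 1) = 1 % (K ^ L - 1) := by
          rw [hy, Nat.mul_add_mod]
        have h3 : K ^ n % (K ^ L - 1) = K ^ (n % L) % (K ^ L - 1) := by
          rw [e]
          have : K ^ (n % L) * ((K ^ L - 1) * y1 + 1) =
              (K ^ L - 1) * (y1 * K ^ (n % L)) + K ^ (n % L) := by ring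
          rw [this, Nat.mul_add_mod]
        rw [← h3, h2]
      rcases Nat.lt_or_ge (K ^ (n % L)) (K ^ L - 1) with h | h
      · rw [Nat.mod_eq_of_lt h] at h1
        rcases Nat.lt_or_ge 1 (K ^ L - 1) with h' | h'
        · rw [Nat.mod_eq_of_lt h'] at h1; exact h1
        · omega
      · have h4 : K ^ (n % L) = K ^ L - 1 := by omega
        rw [h4, Nat.mod_self] at h1
        have h5 : (K ^ L - 1) ∣ 1 := Nat.dvd_of_mod_eq_zero h1.symm
        rw [h4]
        exact Nat.dvd_one.1 h5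
    have hnr : n % L = 0 := by
      by_contra h
      have : K ^ 1 ≤ K ^ (n % L) := Nat.pow_le_pow_right (by omega) (by omega)
      rw [pow_one] at this
      omega
    refine ⟨n / L, ?_⟩
    rw [← pow_mul]
    congr 1
    omega

theorem PowIn.scale {𝒟 : DefSys} (hK : 2 ≤ K) {L : ℕ} (hL : 1 ≤ L) (h : PowIn 𝒟 K) :
    PowIn 𝒟 (K ^ L) := by
  refine P.congr (φ := fun v : Unit → ℕ => (∃ n, v () = K ^ n) ∧
    ∃ y, v () = (K ^ L - 1) * y + 1) ?_ (fun v => pow_iff hK hL _)
  exact P.and h (P.ex (P.eq (F.var _) (F.add (F.cmul _ (F.var _)) (F.const _))))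

theorem mem_scale (hK : 2 ≤ K) {L : ℕ} (hL : 1 ≤ L) {G : ℕ → Set (α → ℕ)} {p : ℕ} {z : α → ℕ} :
    mem (K ^ L) (scale L G) p z ↔ (∃ n, p = (K ^ L) ^ n) ∧ mem K G p z := by
  constructor
  · rintro ⟨n, hn, h1, h2⟩
    refine ⟨⟨n, hn⟩, L * n, by rw [hn, pow_mul], ?_, h2⟩
    rw [← pow_mul] at h1; exact h1
  · rintro ⟨⟨n, hn⟩, m, hm, h1, h2⟩
    have : m = L * n := by
      apply Nat.pow_right_injective hK
      show K ^ m = K ^ (L * n)
      rw [← hm, hn, pow_mul]
    subst this
    refine ⟨n, hn, ?_, h2⟩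
    rw [← pow_mul]; exact h1

theorem FamIn.scale {𝒟 : DefSys} (hK : 2 ≤ K) {L : ℕ} (hL : 1 ≤ L) (hpow : PowIn 𝒟 K)
    {G : ℕ → Set (α → ℕ)} (h : FamIn 𝒟 K G) : FamIn 𝒟 (K ^ L) (scale L G) :=
  (P.and ((hpow.scale hK hL).P (F.var _)) h).congr (fun w => mem_scale hK hL)

theorem aut_scale (hK : 2 ≤ K) {L : ℕ} (hL : 1 ≤ L) {G : ℕ → Set (α → ℕ)}
    (h : Aut K (graph K G)) : Aut (K ^ L) (graph (K ^ L) (scale L G)) := by
  have hKL : 2 ≤ K ^ L := by
    calc 2 ≤ K := hK
      _ = K ^ 1 := (pow_one K).symm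
      _ ≤ K ^ L := Nat.pow_le_pow_right (by omega) hL
  have h1 : PowIn (autSys (K ^ L) hKL) K := (Aut.pow hK).basePow L
  have h2 : FamIn (autSys (K ^ L) hKL) K G := h.basePow L
  exact h2.scale hK hL h1

theorem ValIn.unscale {𝒟 : DefSys} (hK : 2 ≤ K) {L : ℕ} (hL : 1 ≤ L) (hpow : PowIn 𝒟 K)
    (h : ValIn 𝒟 (K ^ L)) : ValIn 𝒟 K := by
  refine P.congr (φ := fun v : Fin 2 → ℕ => (∃ n, v 0 = K ^ n) ∧ ∃ r, r < L ∧
    ((∃ n, K ^ r * v 0 = (K ^ L) ^ n) ∧ K ^ r * v 0 ∣ K ^ r * v 1)) ?_ ?_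
  · exact P.and (hpow.P (F.var _)) (P.existsLt _ fun r _ =>
      h.P (F.cmul _ (F.var _)) (F.cmul _ (F.var _)))
  · intro v
    constructor
    · rintro ⟨⟨n, hn⟩, hd⟩
      refine ⟨⟨n, hn⟩, (L - n % L) % L, Nat.mod_lt _ hL, ?_, Nat.mul_dvd_mul_left _ hd⟩
      rw [hn, ← pow_add]
      have hmodlt : n % L < L := Nat.mod_lt _ hL
      have h1 := Nat.div_add_mod n L
      rcases Nat.eq_zero_or_pos (n % L) with h0 | h0
      · refine ⟨n / L, ?_⟩
        rw [h0, Nat.sub_zero, Nat.mod_self, Nat.zero_add, ← pow_mul]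
        congr 1; omega
      · refine ⟨n / L + 1, ?_⟩
        rw [Nat.mod_eq_of_lt (by omega : L - n % L < L), ← pow_mul]
        congr 1
        rw [Nat.mul_add, Nat.mul_one]; omega
    · rintro ⟨⟨n, hn⟩, r, _, _, hd⟩
      exact ⟨⟨n, hn⟩, Nat.dvd_of_mul_dvd_mul_left (by positivity) hd⟩

theorem res_scale {L e : ℕ} {d : α → ℕ} {G : ℕ → Set (α → ℕ)} :
    res (K ^ L) e d (scale L G) = scale L (res K (L * e) d G) := by
  funext n
  ext z
  simp only [res, scale, mem_ofPred_eq, ← pow_mul, Nat.mul_add]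

/-- the number `1 + K + ... + K^(c-1)` -/
def rp (K : ℕ) : ℕ → ℕ
  | 0 => 0
  | c + 1 => K * rp K c + 1

theorem rp_eq (hK : 1 ≤ K) (c : ℕ) : (K - 1) * rp K c + 1 = K ^ c := by
  obtain ⟨k, rfl⟩ : ∃ k, K = k + 1 := ⟨K - 1, by omega⟩
  induction c with
  | zero => simp [rp]
  | succ c ih =>
    simp only [Nat.add_sub_cancel] at ih ⊢
    rw [pow_succ, ← ih, rp]
    ring

theorem rp_succ' (hK : 1 ≤ K) (c : ℕ) : rp K (c + 1) = K ^ c + rp K c := by
  rw [← rp_eq hK c, rp]
  obtain ⟨k, rfl⟩ : ∃ k, K = k + 1 := ⟨K - 1, by omega⟩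
  simp only [Nat.add_sub_cancel]
  ring

theorem rp_lt (hK : 2 ≤ K) {l c w : ℕ} (hw : w < K ^ l) : w * rp (K ^ l) c < K ^ (l * c) := by
  have h1 : 1 ≤ K ^ l := Nat.one_le_pow _ _ (by omega)
  have := rp_eq h1 c
  rw [pow_mul, ← this]
  have : w * rp (K ^ l) c ≤ (K ^ l - 1) * rp (K ^ l) c := Nat.mul_le_mul_right _ (by omega)
  omega

/-- `w` is a loop of length `l` at `H` -/
def Loop (K l : ℕ) (w : α → ℕ) (H : ℕ → Set (α → ℕ)) : Prop :=
  (∀ i, w i < K ^ l) ∧ res K l w H = H

theorem Loop.comp (hK : 2 ≤ K) {l l' : ℕ} {w w' : α → ℕ} {H : ℕ → Set (α → ℕ)}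
    (h : Loop K l w H) (h' : Loop K l' w' H) :
    Loop K (l + l') (fun i => w i * K ^ l' + w' i) H := by
  refine ⟨fun i => ?_, ?_⟩
  · calc w i * K ^ l' + w' i < w i * K ^ l' + K ^ l' := by have := h'.1 i; omega
      _ = (w i + 1) * K ^ l' := by ring
      _ ≤ K ^ l * K ^ l' := Nat.mul_le_mul_right _ (h.1 i)
      _ = K ^ (l + l') := by rw [← pow_add]
  · rw [← res_res hK h'.1, h.2, h'.2]

/-- bounded families -/
def Bd (K : ℕ) (H : ℕ → Set (α → ℕ)) : Prop := ∀ n, ∀ z ∈ H n, ∀ i, z i < K ^ n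

theorem bd_res {e : ℕ} {d : α → ℕ} {G : ℕ → Set (α → ℕ)} : Bd K (res K e d G) :=
  fun n z hz => hz.1

theorem Loop.zero {H : ℕ → Set (α → ℕ)} (hb : Bd K H) : Loop K 0 (fun _ => 0) H := by
  refine ⟨fun i => by simp, ?_⟩
  funext n
  ext z
  simp only [res, mem_ofPred_eq, Nat.zero_mul, Nat.zero_add, Nat.add_zero]
  exact ⟨fun h => h.2, fun h => ⟨hb n z h, h⟩⟩

theorem Loop.rep (hK : 2 ≤ K) {l : ℕ} {w : α → ℕ} {H : ℕ → Set (α → ℕ)}
    (hb : Bd K H) (h : Loop K l w H) (c : ℕ) :
    Loop K (l * c) (fun i => w i * rp (K ^ l) c) H := by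
  induction c with
  | zero => simpa [rp] using Loop.zero hb
  | succ c ih =>
    have := ih.comp hK h
    have e1 : l * (c + 1) = l * c + l := by ring
    have e2 : (fun i => w i * rp (K ^ l) (c + 1)) =
        fun i => w i * rp (K ^ l) c * K ^ l + w i := by
      funext i; rw [rp]; ring
    rw [e1, e2]; exact this

/-- a family all of whose one-letter residuals are definable -/
theorem tame_noloop (hK : 2 ≤ K) {𝒟 : DefSys} (hpow : PowIn 𝒟 K) {H : ℕ → Set (α → ℕ)}
    (h : ∀ d : α → ℕ, (∀ i, d i < K ^ 1) → FamIn 𝒟 K (res K 1 d H)) : FamIn 𝒟 K H := by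
  have hbox : {d : α → ℕ | ∀ i, d i < K ^ 1}.Finite := by
    have := Set.Finite.pi' (ι := α) (κ := fun _ => ℕ) (t := fun _ => Set.Iio (K ^ 1))
      (fun _ => Set.finite_Iio _)
    exact this.subset (fun d hd i => hd i)
  refine P.congr (φ := fun w : Option α → ℕ =>
    (w none = 1 ∧ (∀ i, w (some i) = 0) ∧ (fun _ => 0) ∈ H 0) ∨
    ∃ d ∈ {d : α → ℕ | ∀ i, d i < K ^ 1}, ∃ p'' : ℕ, ∃ z'' : α → ℕ, w none = K * p'' ∧
      (∀ i, w (some i) = d i * p'' + z'' i) ∧ mem K (res K 1 d H) p'' z'') ?_ ?_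
  · refine P.or (P.and (P.eqConst _ (F.var _)) (P.and (P.forallFin fun i => P.eqConst _ (F.var _))
      (P.const _))) (P.existsSet hbox fun d hd => P.ex (P.exv (P.and ?_ (P.and ?_ ?_))))
    · exact P.eq (F.var _) (F.cmul _ (F.var _))
    · exact P.forallFin fun i => P.eq (F.var _) (F.add (F.cmul _ (F.var _)) (F.var _))
    · exact (h d hd).P (F.var _) (fun i => F.var _)
  · intro w
    constructor
    · rintro ⟨n, hn, h1, h2⟩
      rcases n with _ | n
      · left
        have hz : (fun i => w (some i)) = fun _ => 0 := by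
          funext i
          have := h1 i
          simp only [pow_zero] at this
          show w (some i) = 0
          omega
        refine ⟨by simpa using hn, fun i => congrFun hz i, by rw [← hz]; exact h2⟩
      · right
        have hpos : 0 < K ^ n := by positivity
        refine ⟨fun i => w (some i) / K ^ n, ?_, K ^ n, fun i => w (some i) % K ^ n, ?_, ?_, ?_⟩
        · intro i
          show w (some i) / K ^ n < K ^ 1
          rw [Nat.div_lt_iff_lt_mul hpos, ← pow_add, Nat.add_comm]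
          exact h1 i
        · rw [hn, pow_succ]; ring
        · intro i
          show w (some i) = w (some i) / K ^ n * K ^ n + w (some i) % K ^ n
          rw [Nat.mul_comm]; exact (Nat.div_add_mod _ _).symm
        · rw [mem_pow hK]
          refine ⟨fun i => Nat.mod_lt _ hpos, fun i => Nat.mod_lt _ hpos, ?_⟩
          have : (fun i => w (some i) / K ^ n * K ^ n + w (some i) % K ^ n) =
              fun i => w (some i) := by
            funext i
            rw [Nat.mul_comm]; exact Nat.div_add_mod _ _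
          show (fun i => w (some i) / K ^ n * K ^ n + w (some i) % K ^ n) ∈ H (n + 1)
          rw [this]; exact h2
    · rintro (⟨h1, h2, h3⟩ | ⟨d, hd, p'', z'', h1, h2, n, hn, h3, h4⟩)
      · refine ⟨0, by simpa using h1, fun i => by show w (some i) < K ^ 0; rw [h2 i]; simp, ?_⟩
        have : (fun i => w (some i)) = fun _ => 0 := funext h2
        rw [this]; exact h3
      · subst hn
        refine ⟨n + 1, by rw [h1, pow_succ]; ring, fun i => ?_, ?_⟩
        · show w (some i) < _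
          rw [h2 i]
          calc d i * K ^ n + z'' i < d i * K ^ n + K ^ n := by have := h3 i; omega
            _ = (d i + 1) * K ^ n := by ring
            _ ≤ K ^ 1 * K ^ n := Nat.mul_le_mul_right _ (hd i)
            _ = K ^ (n + 1) := by rw [← pow_add, Nat.add_comm]
        · have : (fun i => w (some i)) = fun i => d i * K ^ n + z'' i := funext h2
          rw [this]; exact h4.2

/-- a family with one self-loop, all other residuals being definable -/
theorem tame_loop (hK : 2 ≤ K) {𝒟 : DefSys} (hpow : PowIn 𝒟 K) {H : ℕ → Set (α → ℕ)}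
    (hb : Bd K H) {w : α → ℕ} (hloop : Loop K 1 w H)
    (h : ∀ d : α → ℕ, d ≠ w → (∀ i, d i < K ^ 1) → FamIn 𝒟 K (res K 1 d H)) :
    FamIn 𝒟 K H := by
  have hK0 : ∀ n, 0 < K ^ n := fun n => by positivity
  have hbox : {d : α → ℕ | d ≠ w ∧ ∀ i, d i < K ^ 1}.Finite := by
    have := Set.Finite.pi' (ι := α) (κ := fun _ => ℕ) (t := fun _ => Set.Iio (K ^ 1))
      (fun _ => Set.finite_Iio _)
    exact this.subset (fun d hd i => hd.2 i)
  have hrep : ∀ c n (z : α → ℕ), (∀ i, z i < K ^ n) →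
      (z ∈ H n ↔ (fun i => w i * rp K c * K ^ n + z i) ∈ H (n + c)) := by
    intro c n z hz
    have h1 := (hloop.rep hK hb c).2
    simp only [pow_one, Nat.one_mul] at h1
    conv_lhs => rw [← h1]
    exact ⟨fun h => h.2, fun h => ⟨hz, h⟩⟩
  -- forward representation
  have hfwd : ∀ n (z : α → ℕ), z ∈ H n → ((∀ i, z i = w i * rp K n) ∧ (fun _ => 0) ∈ H 0) ∨
      ∃ c j, n = c + (j + 1) ∧ ∃ d, d ≠ w ∧ (∀ i, d i < K ^ 1) ∧ ∃ z'' : α → ℕ,
        (∀ i, z i = w i * rp K c * K ^ (j + 1) + (d i * K ^ j + z'' i)) ∧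
        (∀ i, z'' i < K ^ j) ∧ z'' ∈ res K 1 d H j := by
    intro n
    induction n with
    | zero =>
      intro z hz
      left
      have h0 : z = fun _ => 0 := by
        funext i
        have := hb 0 z hz i
        simp only [pow_zero] at this; omega
      rw [h0] at hz
      exact ⟨fun i => by rw [h0]; simp [rp], hz⟩
    | succ n ih =>
      intro z hz
      have hzb := hb _ z hz
      set d : α → ℕ := fun i => z i / K ^ n with hd
      set z1 : α → ℕ := fun i => z i % K ^ n with hz1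
      have hdlt : ∀ i, d i < K ^ 1 := by
        intro i
        show z i / K ^ n < K ^ 1
        rw [Nat.div_lt_iff_lt_mul (hK0 n), ← pow_add, Nat.add_comm]
        exact hzb i
      have hz1lt : ∀ i, z1 i < K ^ n := fun i => Nat.mod_lt _ (hK0 n)
      have hzeq : ∀ i, z i = d i * K ^ n + z1 i := by
        intro i
        show z i = z i / K ^ n * K ^ n + z i % K ^ n
        rw [Nat.mul_comm]; exact (Nat.div_add_mod _ _).symm
      have hz1mem : z1 ∈ res K 1 d H n := by
        refine ⟨hz1lt, ?_⟩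
        have : (fun i => d i * K ^ n + z1 i) = z := funext fun i => (hzeq i).symm
        rw [this]; exact hz
      by_cases hdw : d = w
      · rw [hdw, hloop.2] at hz1mem
        rcases ih z1 hz1mem with ⟨h1, h2⟩ | ⟨c, j, hn, d', hd', hd'lt, z'', h1, h2, h3⟩
        · left
          refine ⟨fun i => ?_, h2⟩
          rw [hzeq i, h1 i, hdw, rp_succ' (by omega)]
          ring
        · right
          refine ⟨c + 1, j, by omega, d', hd', hd'lt, z'', fun i => ?_, h2, h3⟩
          rw [hzeq i, h1 i, hdw, rp_succ' (by omega), hn, pow_add]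
          ring
      · right
        refine ⟨0, n, by omega, d, hdw, hdlt, z1, fun i => ?_, hz1lt, hz1mem⟩
        rw [hzeq i]; simp [rp]
  refine P.congr (φ := fun v : Option α → ℕ =>
    (∃ n, v none = K ^ n) ∧
    ((∀ i, (K - 1) * v (some i) + w i = w i * v none) ∧ (fun _ => 0) ∈ H 0 ∨
    ∃ d ∈ {d : α → ℕ | d ≠ w ∧ ∀ i, d i < K ^ 1}, ∃ p'' : ℕ, ∃ z'' : α → ℕ,
      mem K (res K 1 d H) p'' z'' ∧ K * p'' ≤ v none ∧
      (∀ i, (K - 1) * v (some i) + (w i * K) * p'' =
        w i * v none + ((K - 1) * d i) * p'' + (K - 1) * z'' i))) ?_ ?_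
  · refine P.and (hpow.P (F.var _)) (P.or (P.and (P.forallFin fun i => ?_) (P.const _))
      (P.existsSet hbox fun d hd => P.ex (P.exv (P.and ?_ (P.and ?_ ?_)))))
    · exact P.eq (F.add (F.cmul _ (F.var _)) (F.const _)) (F.cmul _ (F.var _))
    · exact (h d hd.1 hd.2).P (F.var _) (fun i => F.var _)
    · exact P.le (F.cmul _ (F.var _)) (F.var _)
    · exact P.forallFin fun i => P.eq (F.add (F.cmul _ (F.var _)) (F.cmul _ (F.var _)))
        (F.add (F.add (F.cmul _ (F.var _)) (F.cmul _ (F.var _))) (F.cmul _ (F.var _)))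
  · intro v
    constructor
    · rintro ⟨n, hn, h1, h2⟩
      refine ⟨⟨n, hn⟩, ?_⟩
      rw [hn]
      rcases hfwd n _ h2 with ⟨h3, h4⟩ | ⟨c, j, hcj, d, hdw, hdlt, z'', h3, h4, h5⟩
      · left
        refine ⟨fun i => ?_, h4⟩
        have e : v (some i) = w i * rp K n := h3 i
        rw [e, ← rp_eq (by omega : 1 ≤ K) n]
        ring
      · right
        refine ⟨d, ⟨hdw, hdlt⟩, K ^ j, z'', ⟨j, rfl, h4, h5⟩, ?_, fun i => ?_⟩
        · rw [hcj]
          calc K * K ^ j = K ^ (j + 1) := by ring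
            _ ≤ K ^ (c + (j + 1)) := Nat.pow_le_pow_right (by omega) (by omega)
        · have e : v (some i) = w i * rp K c * K ^ (j + 1) + (d i * K ^ j + z'' i) := h3 i
          have e2 : K ^ n = ((K - 1) * rp K c + 1) * K ^ (j + 1) := by
            rw [rp_eq (by omega : 1 ≤ K) c, ← pow_add, hcj]
          rw [e, e2]
          ring
    · rintro ⟨⟨n, hn⟩, hcase⟩
      rw [hn] at hcase
      have hcancel : ∀ a b : ℕ, (K - 1) * a = (K - 1) * b → a = b :=
        fun a b hab => Nat.eq_of_mul_eq_mul_left (by omega) hab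
      rcases hcase with ⟨h3, h4⟩ | ⟨d, ⟨hdw, hdlt⟩, p'', z'', ⟨j, hj, h5, h6⟩, h7, h8⟩
      · have hv : ∀ i, v (some i) = w i * rp K n := by
          intro i
          apply hcancel
          have := h3 i
          rw [← rp_eq (by omega : 1 ≤ K) n] at this
          have e : (K - 1) * (w i * rp K n) = w i * ((K - 1) * rp K n) := by ring
          rw [e]
          rw [Nat.mul_add, Nat.mul_one] at this
          omega
        have hmem : (fun i => w i * rp K n * K ^ 0 + (fun _ => 0) i) ∈ H (0 + n) :=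
          (hrep n 0 (fun _ => 0) (fun i => by simp)).1 h4
        have e : (fun i => w i * rp K n * K ^ 0 + (fun _ : α => 0) i) = fun i => v (some i) := by
          funext i
          rw [hv i]; simp
        rw [e, Nat.zero_add] at hmem
        exact ⟨n, hn, hb n _ hmem, hmem⟩
      · subst hj
        have hjn : j + 1 ≤ n := by
          have : K ^ (j + 1) ≤ K ^ n := by rw [pow_succ]; calc K ^ j * K = K * K ^ j := by ring
            _ ≤ K ^ n := h7
          exact (Nat.pow_le_pow_iff_right (by omega)).1 this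
        obtain ⟨c, hc⟩ : ∃ c, n = c + (j + 1) := ⟨n - (j + 1), by omega⟩
        have hv : ∀ i, v (some i) = w i * rp K c * K ^ (j + 1) + (d i * K ^ j + z'' i) := by
          intro i
          apply hcancel
          have := h8 i
          have e2 : K ^ n = ((K - 1) * rp K c + 1) * K ^ (j + 1) := by
            rw [rp_eq (by omega : 1 ≤ K) c, ← pow_add, hc]
          rw [e2] at this
          have e3 : w i * (((K - 1) * rp K c + 1) * K ^ (j + 1)) + (K - 1) * d i * K ^ j +
              (K - 1) * z'' i = (K - 1) * (w i * rp K c * K ^ (j + 1) + (d i * K ^ j + z'' i)) +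
              w i * K * K ^ j := by rw [pow_succ]; ring
          rw [e3] at this
          omega
        have hlt : ∀ i, d i * K ^ j + z'' i < K ^ (j + 1) := by
          intro i
          calc d i * K ^ j + z'' i < d i * K ^ j + K ^ j := by have := h5 i; omega
            _ = (d i + 1) * K ^ j := by ring
            _ ≤ K ^ 1 * K ^ j := Nat.mul_le_mul_right _ (hdlt i)
            _ = K ^ (j + 1) := by rw [← pow_add, Nat.add_comm]
        have hmem := (hrep c (j + 1) (fun i => d i * K ^ j + z'' i) hlt).1 h6.2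
        have e : (fun i => w i * rp K c * K ^ (j + 1) + (fun i => d i * K ^ j + z'' i) i) =
            fun i => v (some i) := funext fun i => (hv i).symm
        have e' : j + 1 + c = n := by omega
        rw [e, e'] at hmem
        exact ⟨n, hn, hb n _ hmem, hmem⟩

end Pool.Agent.Helper98.AP
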