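import Pool.Agent.Helper98.APMain

/-! Automatic sets are definable from divisibility by powers; a unary set defining the latter. -/

namespace Pool.Agent.Helper98.AP

open Set DefSys

set_option linter.unusedSectionVars false
set_option linter.unusedVariables false

variable {α : Type} [Finite α] {K : ℕ}

/-- the digit of `x` at the power `p` is `e` -/
def digRel (K e p x : ℕ) : Prop := ∃ a b, x = a + e * p + b ∧ ((∃ n, K * p = K ^ n) ∧ K * p ∣ a) ∧ b < p

theorem digRel_P {𝒟 : DefSys} (hV : ValIn 𝒟 K) (e : ℕ) {f g : (α → ℕ) → ℕ} (hf : 𝒟.F f)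
    (hg : 𝒟.F g) : 𝒟.P (fun v => digRel K e (f v) (g v)) := by
  refine P.subst2 (R := fun p x => digRel K e p x) ?_ hf hg
  refine P.ex (P.ex (P.and ?_ (P.and ?_ ?_)))
  · exact P.eq (F.var _) (F.add (F.add (F.var _) (F.cmul _ (F.var _))) (F.var _))
  · exact hV.P (F.cmul _ (F.var _)) (F.var _)
  · exact P.lt (F.var _) (F.var _)

theorem digRel_iff (hK : 2 ≤ K) {e j x : ℕ} (he : e < K) :
    digRel K e (K ^ j) x ↔ x / K ^ j % K = e := by
  have hpos : 0 < K ^ j := by positivity
  constructor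
  · rintro ⟨a, b, rfl, ⟨_, c, rfl⟩, hb⟩
    have e1 : K * K ^ j * c + e * K ^ j + b = K ^ j * (K * c + e) + b := by ring
    rw [e1, Nat.mul_add_div hpos, Nat.div_eq_of_lt hb, Nat.add_zero, Nat.mul_add_mod,
      Nat.mod_eq_of_lt he]
  · intro h
    refine ⟨K ^ j * (K * (x / K ^ j / K)), x % K ^ j, ?_, ⟨⟨j + 1, by ring⟩, ?_⟩,
      Nat.mod_lt _ hpos⟩
    · have h1 := Nat.div_add_mod x (K ^ j)
      have h2 := Nat.div_add_mod (x / K ^ j) K
      rw [h] at h2
      calc x = K ^ j * (x / K ^ j) + x % K ^ j := h1.symm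
        _ = K ^ j * (K * (x / K ^ j / K) + e) + x % K ^ j := by rw [h2]
        _ = _ := by ring
    · exact ⟨x / K ^ j / K, by ring⟩

theorem sum_digit (hK : 2 ≤ K) : ∀ (n : ℕ) (f : ℕ → ℕ), (∀ j, f j < K) → ∀ i, i < n →
    (∑ j ∈ Finset.range n, f j * K ^ j) / K ^ i % K = f i := by
  intro n
  induction n with
  | zero => intro f _ i hi; omega
  | succ n ih =>
    intro f hf i hi
    have e : ∑ j ∈ Finset.range (n + 1), f j * K ^ j =
        K * (∑ j ∈ Finset.range n, f (j + 1) * K ^ j) + f 0 := by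
      rw [Finset.sum_range_succ', Finset.mul_sum]
      congr 1
      · refine Finset.sum_congr rfl fun j _ => by ring
      · simp
    rcases Nat.eq_zero_or_pos i with h | h
    · subst h
      rw [pow_zero, Nat.div_one, e, Nat.mul_add_mod, Nat.mod_eq_of_lt (hf 0)]
    · obtain ⟨i', rfl⟩ : ∃ i', i = i' + 1 := ⟨i - 1, by omega⟩
      rw [e, pow_succ', ← Nat.div_div_eq_div_mul, Nat.mul_add_div (by omega),
        Nat.div_eq_of_lt (hf 0), Nat.add_zero]
      exact ih (fun j => f (j + 1)) (fun j => hf _) i' (by omega)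

/-- transition on residual families -/
def stp (K : ℕ) (q : ℕ → Set (α → ℕ)) (d : α → ℕ) : ℕ → Set (α → ℕ) :=
  fun n => {z | (∀ i, z i < K ^ n) ∧ (fun i => d i * K ^ n + z i) ∈ q (n + 1)}

theorem stp_resid (hK : 2 ≤ K) {S : Set (α → ℕ)} {a d : α → ℕ} (hd : ∀ i, d i < K) :
    stp K (resid K S a) d = resid K S (fun i => a i * K + d i) := by
  funext n
  ext z
  simp only [stp, resid, mem_ofPred_eq]
  have e : (fun i => a i * K ^ (n + 1) + (d i * K ^ n + z i)) =
      fun i => (a i * K + d i) * K ^ n + z i := by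
    funext i; ring
  constructor
  · rintro ⟨h1, h2, h3⟩
    refine ⟨h1, ?_⟩
    rw [← e]; exact h3
  · rintro ⟨h1, h2⟩
    refine ⟨h1, fun i => ?_, ?_⟩
    · calc d i * K ^ n + z i < d i * K ^ n + K ^ n := by have := h1 i; omega
        _ = (d i + 1) * K ^ n := by ring
        _ ≤ K * K ^ n := Nat.mul_le_mul_right _ (hd i)
        _ = K ^ (n + 1) := by ring
    · rw [e]; exact h2

/-- Büchi's theorem, the direction used here. -/
theorem buchi (hK : 2 ≤ K) {𝒟 : DefSys} (hpow : PowIn 𝒟 K) (hV : ValIn 𝒟 K) {S : Set (α → ℕ)}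
    (hA : Aut K S) : 𝒟.D α S := by
  classical
  have hfinQ : Finite (Set.range (resid K S)) := hA
  have hbox : {d : α → ℕ | ∀ i, d i < K}.Finite := by
    have := Set.Finite.pi' (ι := α) (κ := fun _ => ℕ) (t := fun _ => Set.Iio K)
      (fun _ => Set.finite_Iio _)
    exact this.subset (fun d hd i => hd i)
  refine P.congr (φ := fun v : α → ℕ => ∃ p, ∃ y : Set.range (resid K S) → ℕ,
    (∃ n, p = K ^ n) ∧ (∀ i, v i < p) ∧
    digRel K 1 p (y ⟨resid K S (fun _ => 0), _, rfl⟩) ∧
    (∀ p'', (∃ n, p'' = K ^ n) → K * p'' ≤ p → ∀ q q' : Set.range (resid K S),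
      ∀ d ∈ {d : α → ℕ | ∀ i, d i < K}, stp K q.1 d = q'.1 →
      digRel K 1 (K * p'') (y q) → (∀ i, digRel K (d i) p'' (v i)) → digRel K 1 p'' (y q')) ∧
    (∀ q : Set.range (resid K S), (fun _ => 0) ∉ q.1 0 → ¬ digRel K 1 1 (y q))) ?_ ?_
  · refine P.ex (P.exv (P.and (hpow.P (F.var _)) (P.and ?_ (P.and ?_ (P.and ?_ ?_)))))
    · exact P.forallFin fun i => P.lt (F.var _) (F.var _)
    · exact digRel_P hV _ (F.var _) (F.var _)
    · refine P.all (P.imp (hpow.P (F.var _)) (P.imp (P.le (F.cmul _ (F.var _)) (F.var _))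
        (P.forallFin fun q => P.forallFin fun q' => P.forallSet hbox fun d hd =>
          P.imp (P.const _) (P.imp ?_ (P.imp ?_ ?_)))))
      · exact digRel_P hV _ (F.cmul _ (F.var _)) (F.var _)
      · exact P.forallFin fun i => digRel_P hV _ (F.var _) (F.var _)
      · exact digRel_P hV _ (F.var _) (F.var _)
    · exact P.forallFin fun q => P.imp (P.const _) (P.not (digRel_P hV _ (F.const _) (F.var _)))
  · intro v
    constructor
    · intro hv
      have : ∃ n, ∀ i, v i < K ^ n := by
        have : Fintype α := Fintype.ofFinite α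
        refine ⟨∑ i, v i, fun i => ?_⟩
        calc v i ≤ ∑ i, v i := Finset.single_le_sum (fun _ _ => Nat.zero_le _) (Finset.mem_univ i)
          _ < K ^ (∑ i, v i) := Nat.lt_pow_self (by omega)
      obtain ⟨n, hn⟩ := this
      set st : ℕ → Set.range (resid K S) := fun j => ⟨resid K S (fun i => v i / K ^ j), _, rfl⟩
        with hst
      set y : Set.range (resid K S) → ℕ := fun q =>
        ∑ j ∈ Finset.range (n + 1), (if st j = q then 1 else 0) * K ^ j with hy
      have hydig : ∀ q j, j ≤ n → (y q / K ^ j % K = if st j = q then 1 else 0) := by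
        intro q j hj
        exact sum_digit hK (n + 1) (fun j => if st j = q then 1 else 0)
          (fun j => by split_ifs <;> omega) j (by omega)
      have hy1 : ∀ q j, j ≤ n → (digRel K 1 (K ^ j) (y q) ↔ st j = q) := by
        intro q j hj
        rw [digRel_iff hK (by omega), hydig q j hj]
        split_ifs with h
        · simp [h]
        · simp [h]
      refine ⟨K ^ n, y, ⟨n, rfl⟩, hn, ?_, ?_, ?_⟩
      · rw [hy1 _ n le_rfl]
        apply Subtype.ext
        show resid K S (fun i => v i / K ^ n) = resid K S (fun _ => 0)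
        congr 1
        funext i
        exact Nat.div_eq_of_lt (hn i)
      · rintro p'' ⟨j, rfl⟩ hle q q' d hd hstp h1 h2
        have hjn : j + 1 ≤ n := by
          have : K ^ (j + 1) ≤ K ^ n := by rw [pow_succ']; exact hle
          exact (Nat.pow_le_pow_iff_right (by omega)).1 this
        have e : K * K ^ j = K ^ (j + 1) := by ring
        rw [e, hy1 q (j + 1) hjn] at h1
        rw [hy1 q' j (by omega)]
        apply Subtype.ext
        rw [← hstp, ← h1]
        show resid K S (fun i => v i / K ^ j) = stp K (resid K S (fun i => v i / K ^ (j + 1))) d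
        rw [stp_resid hK hd]
        congr 1
        funext i
        have h3 := (digRel_iff hK (hd i)).1 (h2 i)
        rw [← h3, pow_succ, ← Nat.div_div_eq_div_mul, Nat.mul_comm]
        exact (Nat.div_add_mod _ _).symm
      · intro q hq hdig
        have h1 : digRel K 1 (K ^ 0) (y q) := by rw [pow_zero]; exact hdig
        rw [hy1 q 0 (Nat.zero_le _)] at h1
        apply hq
        rw [← h1]
        refine ⟨fun i => by simp, ?_⟩
        have : (fun i => v i / K ^ 0 * K ^ 0 + 0) = v := by
          funext i; simp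
        show (fun i => v i / K ^ 0 * K ^ 0 + 0) ∈ S
        rw [this]; exact hv
    · rintro ⟨p, y, ⟨n, rfl⟩, hn, h0, hstep, hfinal⟩
      have hall : ∀ r, r ≤ n → digRel K 1 (K ^ (n - r))
          (y ⟨resid K S (fun i => v i / K ^ (n - r)), _, rfl⟩) := by
        intro r
        induction r with
        | zero =>
          intro _
          have e : (⟨resid K S (fun i => v i / K ^ (n - 0)), _, rfl⟩ : Set.range (resid K S)) =
              ⟨resid K S (fun _ => 0), _, rfl⟩ := by
            apply Subtype.ext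
            show resid K S _ = resid K S _
            congr 1
            funext i
            exact Nat.div_eq_of_lt (hn i)
          rw [e]; exact h0
        | succ r ih =>
          intro hr
          have h1 := ih (by omega)
          have hnr : n - r = (n - (r + 1)) + 1 := by omega
          set j := n - (r + 1) with hj
          rw [hnr] at h1
          refine hstep (K ^ j) ⟨j, rfl⟩ ?_ _ _ (fun i => v i / K ^ j % K)
            (fun i => Nat.mod_lt _ (by omega)) ?_ (by rw [← pow_succ']; exact h1) ?_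
          · rw [← pow_succ']; exact Nat.pow_le_pow_right (by omega) (by omega)
          · show stp K (resid K S (fun i => v i / K ^ (j + 1))) _ = _
            rw [stp_resid hK (fun i => Nat.mod_lt _ (by omega))]
            congr 1
            funext i
            rw [pow_succ, ← Nat.div_div_eq_div_mul, Nat.mul_comm]
            exact Nat.div_add_mod _ _
          · intro i
            rw [digRel_iff hK (Nat.mod_lt _ (by omega))]
      have h1 := hall n le_rfl
      rw [Nat.sub_self] at h1
      by_contra hv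
      refine hfinal _ ?_ (by rw [pow_zero] at h1; exact h1)
      rintro ⟨_, h2⟩
      apply hv
      have : (fun i => v i / K ^ 0 * K ^ 0 + 0) = v := by
        funext i; simp
      have h3 : (fun i => v i / K ^ 0 * K ^ 0 + 0) ∈ S := h2
      rw [this] at h3; exact h3

/-- the set of the numbers whose `K`-adic valuation is even -/
def evenVal (K : ℕ) (x : ℕ) : Prop := ∃ j, K ^ (2 * j) ∣ x ∧ ¬ K ^ (2 * j + 1) ∣ x

theorem evenVal_P {𝒟 : DefSys} (hK : 2 ≤ K) (hpow : PowIn 𝒟 K) (hV : ValIn 𝒟 K) :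
    𝒟.P (fun v : Unit → ℕ => evenVal K (v ())) := by
  refine P.congr (φ := fun v : Unit → ℕ => ∃ p, (∃ n, p = (K ^ 2) ^ n) ∧
    ((∃ n, p = K ^ n) ∧ p ∣ v ()) ∧ ¬ ((∃ n, K * p = K ^ n) ∧ K * p ∣ v ())) ?_ ?_
  · exact P.ex (P.and ((hpow.scale hK (by norm_num)).P (F.var _)) (P.and
      (hV.P (F.var _) (F.var _)) (P.not (hV.P (F.cmul _ (F.var _)) (F.var _)))))
  · intro v
    constructor
    · rintro ⟨j, h1, h2⟩
      refine ⟨K ^ (2 * j), ⟨j, by rw [pow_mul]⟩, ⟨⟨_, rfl⟩, h1⟩, ?_⟩
      rintro ⟨_, h3⟩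
      apply h2
      rw [pow_succ']; exact h3
    · rintro ⟨p, ⟨j, hj⟩, ⟨_, h1⟩, h2⟩
      rw [← pow_mul] at hj
      subst hj
      refine ⟨j, h1, fun h3 => h2 ⟨⟨2 * j + 1, by ring⟩, ?_⟩⟩
      rw [← pow_succ']; exact h3

theorem evenVal_iff (hK : 2 ≤ K) {j x : ℕ} (h1 : K ^ j ∣ x) (h2 : ¬ K ^ (j + 1) ∣ x) :
    evenVal K x ↔ Even j := by
  constructor
  · rintro ⟨i, h3, h4⟩
    have : j = 2 * i := by
      rcases lt_trichotomy j (2 * i) with h | h | h
      · exact absurd ((pow_dvd_pow K (by omega)).trans h3) h2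
      · exact h
      · exact absurd ((pow_dvd_pow K (by omega)).trans h1) h4
    rw [this]; exact even_two_mul i
  · rintro ⟨i, hi⟩
    have : j = 2 * i := by omega
    subst this
    exact ⟨i, h1, h2⟩

theorem val_of_evenVal {𝒟 : DefSys} (hK : 2 ≤ K) (hpow : PowIn 𝒟 K)
    (hW : 𝒟.P (fun v : Unit → ℕ => evenVal K (v ()))) : ValIn 𝒟 K := by
  have hWf : ∀ {β : Type} [Finite β] {f : (β → ℕ) → ℕ}, 𝒟.F f → 𝒟.P (fun v => evenVal K (f v)) :=
    fun hf => P.subst1 (R := fun x => evenVal K x) hW hf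
  have claim1 : ∀ n x, K ^ n ∣ x → ∀ y, 0 < y → y < K ^ n → (evenVal K y ↔ evenVal K (x + y)) := by
    intro n x hx y hy0 hy
    -- valuation of y
    have hex : ∃ j, ¬ K ^ (j + 1) ∣ y := ⟨n, fun h => by
      have := Nat.le_of_dvd hy0 ((pow_dvd_pow K (Nat.le_succ n)).trans h)
      omega⟩
    classical
    set j := Nat.find hex with hj
    have hj1 : ¬ K ^ (j + 1) ∣ y := Nat.find_spec hex
    have hj0 : K ^ j ∣ y := by
      rcases Nat.eq_zero_or_pos j with h | h
      · rw [h, pow_zero]; exact one_dvd _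
      · have := Nat.find_min hex (m := j - 1) (by omega)
        push Not at this
        have e : j - 1 + 1 = j := by omega
        rwa [e] at this
    have hjn : j + 1 ≤ n := by
      by_contra h
      have : K ^ n ∣ y := (pow_dvd_pow K (by omega)).trans hj0
      have := Nat.le_of_dvd hy0 this
      omega
    rw [evenVal_iff hK hj0 hj1]
    have hx1 : K ^ (j + 1) ∣ x := (pow_dvd_pow K hjn).trans hx
    rw [evenVal_iff hK (j := j)]
    · exact Nat.dvd_add ((pow_dvd_pow K (by omega)).trans hx1) hj0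
    · intro h
      exact hj1 ((Nat.dvd_add_right hx1).1 h)
  have claim2 : ∀ n x, (∀ y, 0 < y → y < K ^ (n + 1) → (evenVal K y ↔ evenVal K (x + y))) →
      K ^ n ∣ x := by
    intro n x h
    by_contra hx
    classical
    have hex : ∃ j, ¬ K ^ (j + 1) ∣ x := ⟨n, fun h => hx ((pow_dvd_pow K (Nat.le_succ n)).trans h)⟩
    set j := Nat.find hex with hj
    have hj1 : ¬ K ^ (j + 1) ∣ x := Nat.find_spec hex
    have hj0 : K ^ j ∣ x := by
      rcases Nat.eq_zero_or_pos j with h | h
      · rw [h, pow_zero]; exact one_dvd _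
      · have := Nat.find_min hex (m := j - 1) (by omega)
        push Not at this
        have e : j - 1 + 1 = j := by omega
        rwa [e] at this
    have hjn : j < n := by
      by_contra h'
      exact hx ((pow_dvd_pow K (by omega)).trans hj0)
    obtain ⟨u, hu⟩ := hj0
    have hd : u % K ≠ 0 := by
      intro h'
      apply hj1
      obtain ⟨u', hu'⟩ := Nat.dvd_of_mod_eq_zero h'
      exact ⟨u', by rw [hu, hu', pow_succ]; ring⟩
    have hdK : u % K < K := Nat.mod_lt _ (by omega)
    obtain ⟨ε, hε, hndvd⟩ : ∃ ε, ε ≤ 1 ∧ ¬ K ∣ u / K + 1 + ε := by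
      by_cases h' : K ∣ u / K + 1
      · refine ⟨1, le_rfl, fun h'' => ?_⟩
        have := (Nat.dvd_add_right h').1 h''
        have := Nat.le_of_dvd (by norm_num) this
        omega
      · exact ⟨0, by omega, by simpa using h'⟩
    set m := K - u % K + ε * K with hm
    have hKK : 2 * K ≤ K * K := Nat.mul_le_mul_right _ hK
    have hmlt : m < K ^ 2 := by
      have : ε * K ≤ 1 * K := Nat.mul_le_mul_right _ hε
      rw [pow_two]; omega
    have hmpos : 0 < m := by omega
    have hmnd : ¬ K ∣ m := by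
      intro h'
      have h3 : K ∣ K - u % K := (Nat.dvd_add_left (Dvd.intro_left _ rfl)).1 h'
      have := Nat.le_of_dvd (by omega) h3
      omega
    have hKj : 0 < K ^ j := by positivity
    have hy := h (K ^ j * m) (Nat.mul_pos hKj hmpos) (by
      calc K ^ j * m < K ^ j * K ^ 2 := Nat.mul_lt_mul_of_pos_left hmlt hKj
        _ = K ^ (j + 2) := by rw [← pow_add]
        _ ≤ K ^ (n + 1) := Nat.pow_le_pow_right (by omega) (by omega))
    have hsum : x + K ^ j * m = K ^ (j + 1) * (u / K + 1 + ε) := by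
      have h3 := Nat.div_add_mod u K
      have h4 : u + m = K * (u / K + 1 + ε) := by
        rw [hm]
        have : K * (u / K + 1 + ε) = K * (u / K) + K + ε * K := by ring
        rw [this]; omega
      rw [hu, ← Nat.mul_add, h4, pow_succ]; ring
    rw [evenVal_iff hK (j := j) (Dvd.intro _ rfl), evenVal_iff hK (j := j + 1)] at hy
    · have : Even (j + 1) ↔ ¬ Even j := Nat.even_add_one
      tauto
    · rw [hsum]; exact Dvd.intro _ rfl
    · rw [hsum, pow_succ K (j + 1)]
      intro h'
      exact hndvd (Nat.dvd_of_mul_dvd_mul_left (by positivity) h')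
    · rw [pow_succ]
      intro h'
      exact hmnd (Nat.dvd_of_mul_dvd_mul_left hKj h')
  refine P.congr (φ := fun v : Fin 2 → ℕ => (∃ n, v 0 = K ^ n) ∧ ∃ z, ∃ i, i < K ∧
    ((∀ y, 0 < y → y < K * v 0 → (evenVal K y ↔ evenVal K (z + y))) ∧ v 1 = z + i * v 0)) ?_ ?_
  · refine P.and (hpow.P (F.var _)) (P.ex (P.existsLt _ fun i _ => P.and (P.all (P.imp ?_ (P.imp ?_
      (P.iff ?_ ?_)))) ?_))
    · exact P.lt (F.const _) (F.var _)
    · exact P.lt (F.var _) (F.cmul _ (F.var _))
    · exact hWf (F.var _)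
    · exact hWf (F.add (F.var _) (F.var _))
    · exact P.eq (F.var _) (F.add (F.var _) (F.cmul _ (F.var _)))
  · intro v
    constructor
    · rintro ⟨⟨n, hn⟩, hd⟩
      refine ⟨⟨n, hn⟩, ?_⟩
      rw [hn] at hd ⊢
      obtain ⟨c, hc⟩ := hd
      refine ⟨K ^ (n + 1) * (c / K), c % K, Nat.mod_lt _ (by omega), ?_, ?_⟩
      · rw [← pow_succ']
        exact claim1 (n + 1) _ (Dvd.intro _ rfl)
      · rw [hc]
        conv_lhs => rw [← Nat.div_add_mod c K]
        rw [pow_succ]; ring
    · rintro ⟨⟨n, hn⟩, z, i, _, h1, h2⟩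
      refine ⟨⟨n, hn⟩, ?_⟩
      rw [hn, ← pow_succ'] at h1
      rw [hn] at h2 ⊢
      rw [h2]
      exact Nat.dvd_add (claim2 n z h1) (Dvd.intro_left _ rfl)

/-- The abstract form of the answer. -/
theorem abstract_main (hK : 2 ≤ K) {𝒟 𝒟' : DefSys} (hpow : PowIn 𝒟 K) (hpow' : PowIn 𝒟' K)
    (hun : ∀ A : Set (Unit → ℕ), 𝒟.D Unit A → 𝒟'.D Unit A)
    {S : Set (α → ℕ)} (hS : 𝒟.D α S) (hA : Aut K S) : 𝒟'.D α S := by
  by_cases hV : ValIn 𝒟 K
  · have h1 := hun _ (evenVal_P hK hpow hV)
    exact buchi hK hpow' (val_of_evenVal hK hpow' h1) hA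
  · exact main_set α K hK 𝒟 hpow hV S hS hA 𝒟' hpow'

end Pool.Agent.Helper98.AP
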