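import Mathlib

/-! Systems of subsets of `ℕ^α` closed under the first-order operations. -/

namespace Pool.Agent.Helper98.AP

/-- A system of subsets of `α → ℕ` (`α` finite) that is closed under complement, intersection,
re-indexing and projection, and that contains the graph of addition. -/
structure DefSys where
  /-- membership of a set in the system -/
  D : ∀ (α : Type) [Finite α], Set (α → ℕ) → Prop
  compl : ∀ {α : Type} [Finite α] {S : Set (α → ℕ)}, D α S → D α Sᶜ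
  inter : ∀ {α : Type} [Finite α] {S T : Set (α → ℕ)}, D α S → D α T → D α (S ∩ T)
  preimage : ∀ {α β : Type} [Finite α] [Finite β] (f : α → β) {S : Set (α → ℕ)},
    D α S → D β {x : β → ℕ | (fun i => x (f i)) ∈ S}
  image : ∀ {α β : Type} [Finite α] [Finite β] (f : α → β) {S : Set (β → ℕ)},
    D β S → D α {x : α → ℕ | ∃ y ∈ S, (fun i => y (f i)) = x}
  add : D (Fin 3) {x : Fin 3 → ℕ | x 0 + x 1 = x 2}

namespace DefSys

variable {𝒟 : DefSys} {α β : Type} [Finite α] [Finite β]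

/-- A predicate on tuples belongs to the system. -/
def P (𝒟 : DefSys) {α : Type} [Finite α] (φ : (α → ℕ) → Prop) : Prop := 𝒟.D α {v | φ v}

/-- A function on tuples has its graph in the system. -/
def F (𝒟 : DefSys) {α : Type} [Finite α] (f : (α → ℕ) → ℕ) : Prop :=
  𝒟.P (fun w : Option α → ℕ => w none = f (fun i => w (some i)))

theorem P.congr {φ ψ : (α → ℕ) → Prop} (h : 𝒟.P φ) (e : ∀ v, ψ v ↔ φ v) : 𝒟.P ψ := by
  have : ψ = φ := funext fun v => propext (e v)
  rw [this]; exact h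

theorem P.not {φ : (α → ℕ) → Prop} (h : 𝒟.P φ) : 𝒟.P (fun v => ¬ φ v) := 𝒟.compl h

theorem P.and {φ ψ : (α → ℕ) → Prop} (h : 𝒟.P φ) (h' : 𝒟.P ψ) : 𝒟.P (fun v => φ v ∧ ψ v) :=
  𝒟.inter h h'

theorem P.or {φ ψ : (α → ℕ) → Prop} (h : 𝒟.P φ) (h' : 𝒟.P ψ) : 𝒟.P (fun v => φ v ∨ ψ v) :=
  (P.not (P.and (P.not h) (P.not h'))).congr (fun v => by tauto)

theorem P.imp {φ ψ : (α → ℕ) → Prop} (h : 𝒟.P φ) (h' : 𝒟.P ψ) : 𝒟.P (fun v => φ v → ψ v) :=
  (P.not (P.and h (P.not h'))).congr (fun v => by tauto)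

theorem P.iff {φ ψ : (α → ℕ) → Prop} (h : 𝒟.P φ) (h' : 𝒟.P ψ) : 𝒟.P (fun v => (φ v ↔ ψ v)) :=
  (P.and (P.imp h h') (P.imp h' h)).congr (fun v => by tauto)

theorem P.rename {φ : (α → ℕ) → Prop} (h : 𝒟.P φ) (f : α → β) :
    𝒟.P (fun w : β → ℕ => φ (fun i => w (f i))) := 𝒟.preimage f h

theorem P.exs {φ : (β → ℕ) → Prop} (h : 𝒟.P φ) (f : α → β) :
    𝒟.P (fun v : α → ℕ => ∃ y : β → ℕ, φ y ∧ (fun i => y (f i)) = v) := 𝒟.image f h

theorem P.tru : 𝒟.P (fun _ : α → ℕ => True) := by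
  have h3 : 𝒟.P (fun _ : Fin 3 → ℕ => True) :=
    (P.or (𝒟 := 𝒟) 𝒟.add (P.not 𝒟.add)).congr (fun v => by
      constructor
      · intro _; exact em _
      · intro _; trivial)
  rcases isEmpty_or_nonempty α with h | ⟨⟨a⟩⟩
  · have := P.exs h3 (α := α) (fun i => h.elim i)
    refine this.congr fun v => ?_
    simp only [true_and, true_iff]
    exact ⟨fun _ => 0, funext fun i => h.elim i⟩
  · exact (P.rename h3 (fun _ : Fin 3 => a)).congr (fun v => Iff.rfl)

theorem P.fls : 𝒟.P (fun _ : α → ℕ => False) := (P.not P.tru).congr (fun v => by simp)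

theorem P.const (p : Prop) : 𝒟.P (fun _ : α → ℕ => p) := by
  by_cases h : p
  · exact P.tru.congr fun v => by simp [h]
  · exact P.fls.congr fun v => by simp [h]

theorem P.ex {φ : (α → ℕ) → ℕ → Prop}
    (h : 𝒟.P (fun w : Option α → ℕ => φ (fun i => w (some i)) (w none))) :
    𝒟.P (fun v => ∃ x, φ v x) := by
  refine (P.exs h (fun i : α => some i)).congr fun v => ?_
  constructor
  · rintro ⟨x, hx⟩
    exact ⟨fun o => o.elim x v, hx, rfl⟩
  · rintro ⟨y, hy, rfl⟩
    exact ⟨_, hy⟩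

theorem P.all {φ : (α → ℕ) → ℕ → Prop}
    (h : 𝒟.P (fun w : Option α → ℕ => φ (fun i => w (some i)) (w none))) :
    𝒟.P (fun v => ∀ x, φ v x) :=
  (P.not (P.ex (φ := fun v x => ¬ φ v x) (P.not h))).congr (fun v => by push Not; rfl)

theorem P.exv {φ : (α → ℕ) → (β → ℕ) → Prop}
    (h : 𝒟.P (fun w : α ⊕ β → ℕ => φ (fun i => w (Sum.inl i)) (fun i => w (Sum.inr i)))) :
    𝒟.P (fun v => ∃ x : β → ℕ, φ v x) := by
  refine (P.exs h (fun i : α => Sum.inl i)).congr fun v => ?_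
  constructor
  · rintro ⟨x, hx⟩
    exact ⟨Sum.elim v x, hx, rfl⟩
  · rintro ⟨y, hy, rfl⟩
    exact ⟨_, hy⟩

theorem P.allv {φ : (α → ℕ) → (β → ℕ) → Prop}
    (h : 𝒟.P (fun w : α ⊕ β → ℕ => φ (fun i => w (Sum.inl i)) (fun i => w (Sum.inr i)))) :
    𝒟.P (fun v => ∀ x : β → ℕ, φ v x) :=
  (P.not (P.exv (φ := fun v x => ¬ φ v x) (P.not h))).congr (fun v => by push Not; rfl)

theorem P.forallFin {ι : Type*} [Finite ι] {φ : ι → (α → ℕ) → Prop} (h : ∀ i, 𝒟.P (φ i)) :
    𝒟.P (fun v => ∀ i, φ i v) := by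
  classical
  have := Fintype.ofFinite ι
  have key : ∀ s : Finset ι, 𝒟.P (fun v => ∀ i ∈ s, φ i v) := by
    intro s
    induction s using Finset.induction_on with
    | empty => exact P.tru.congr fun v => by simp
    | insert a s _ ih => exact (P.and (h a) ih).congr fun v => by simp
  exact (key Finset.univ).congr fun v => by simp

theorem P.existsFin {ι : Type*} [Finite ι] {φ : ι → (α → ℕ) → Prop} (h : ∀ i, 𝒟.P (φ i)) :
    𝒟.P (fun v => ∃ i, φ i v) :=
  (P.not (P.forallFin (fun i => P.not (h i)))).congr (fun v => by push Not; rfl)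

/-- bounded quantification over a parameter ranging over `range n` -/
theorem P.existsLt (n : ℕ) {φ : ℕ → (α → ℕ) → Prop} (h : ∀ i, i < n → 𝒟.P (φ i)) :
    𝒟.P (fun v => ∃ i, i < n ∧ φ i v) :=
  (P.existsFin (fun i : Fin n => h i i.2)).congr (fun v => by
    constructor
    · rintro ⟨i, hi, h⟩; exact ⟨⟨i, hi⟩, h⟩
    · rintro ⟨i, h⟩; exact ⟨i, i.2, h⟩)

theorem P.existsSet {ι : Type*} {s : Set ι} (hs : s.Finite) {φ : ι → (α → ℕ) → Prop}
    (h : ∀ i ∈ s, 𝒟.P (φ i)) :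
    𝒟.P (fun v => ∃ i ∈ s, φ i v) := by
  have : Finite s := hs
  exact (P.existsFin (fun i : s => h i i.2)).congr (fun v => by
    constructor
    · rintro ⟨i, hi, h⟩; exact ⟨⟨i, hi⟩, h⟩
    · rintro ⟨i, h⟩; exact ⟨i, i.2, h⟩)

theorem P.forallSet {ι : Type*} {s : Set ι} (hs : s.Finite) {φ : ι → (α → ℕ) → Prop}
    (h : ∀ i ∈ s, 𝒟.P (φ i)) :
    𝒟.P (fun v => ∀ i ∈ s, φ i v) := by
  have : Finite s := hs
  exact (P.forallFin (fun i : s => h i i.2)).congr (fun v => by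
    constructor
    · intro h i; exact h i i.2
    · intro h i hi; exact h ⟨i, hi⟩)

theorem P.zero (i : α) : 𝒟.P (fun v : α → ℕ => v i = 0) :=
  (P.rename (𝒟 := 𝒟) (φ := fun x : Fin 3 → ℕ => x 0 + x 1 = x 2) 𝒟.add
    (fun _ : Fin 3 => i)).congr (fun v => by simp)

theorem P.varAdd (i j l : α) : 𝒟.P (fun v : α → ℕ => v i + v j = v l) :=
  (P.rename (𝒟 := 𝒟) (φ := fun x : Fin 3 → ℕ => x 0 + x 1 = x 2) 𝒟.add
    ![i, j, l]).congr (fun v => by simp)

theorem P.varEq (i j : α) : 𝒟.P (fun v : α → ℕ => v i = v j) := by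
  refine P.congr (φ := fun v : α → ℕ => ∃ z, z = 0 ∧ v i + z = v j) ?_ ?_
  · exact P.ex (P.and (P.zero none) (P.varAdd (some i) none (some j)))
  · intro v; simp

theorem P.varEqZeroOr (i : α) : 𝒟.P (fun v : α → ℕ => v i = 0) := P.zero i

theorem F.var (i : α) : 𝒟.F (fun v : α → ℕ => v i) := P.varEq none (some i)

theorem F.congr {f g : (α → ℕ) → ℕ} (h : 𝒟.F f) (e : ∀ v, g v = f v) : 𝒟.F g := by
  have : g = f := funext e
  rw [this]; exact h

/-- rename for functions -/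
theorem F.rename {f : (α → ℕ) → ℕ} (h : 𝒟.F f) (g : α → β) :
    𝒟.F (fun w : β → ℕ => f (fun i => w (g i))) :=
  P.rename h (Option.map g)

/-- General substitution: a definable relation applied to definable functions. -/
theorem P.subst {R : (β → ℕ) → Prop} (hR : 𝒟.P R) {g : β → (α → ℕ) → ℕ}
    (hg : ∀ b, 𝒟.F (g b)) : 𝒟.P (fun v => R (fun b => g b v)) := by
  refine P.congr (φ := fun v : α → ℕ => ∃ y : β → ℕ, R y ∧ ∀ b, y b = g b v) ?_ ?_
  · refine P.exv (P.and (P.rename hR _) (P.forallFin fun b => ?_))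
    have := P.rename (hg b) (fun o : Option α => (o.elim (Sum.inr b) Sum.inl : α ⊕ β))
    exact this
  · intro v
    constructor
    · intro h; exact ⟨fun b => g b v, h, fun b => rfl⟩
    · rintro ⟨y, hy, hy'⟩
      have : y = fun b => g b v := funext hy'
      rw [← this]; exact hy

theorem P.subst1 {R : ℕ → Prop} (hR : 𝒟.P (fun w : Unit → ℕ => R (w ()))) {f : (α → ℕ) → ℕ}
    (hf : 𝒟.F f) : 𝒟.P (fun v => R (f v)) :=
  P.subst (β := Unit) (R := fun w => R (w ())) hR (g := fun _ => f) (fun _ => hf)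

theorem P.subst2 {R : ℕ → ℕ → Prop} (hR : 𝒟.P (fun w : Fin 2 → ℕ => R (w 0) (w 1)))
    {f g : (α → ℕ) → ℕ} (hf : 𝒟.F f) (hg : 𝒟.F g) : 𝒟.P (fun v => R (f v) (g v)) := by
  have := P.subst (β := Fin 2) (R := fun w => R (w 0) (w 1)) hR (g := ![f, g])
    (fun b => by fin_cases b <;> assumption)
  exact this

theorem P.subst3 {R : ℕ → ℕ → ℕ → Prop}
    (hR : 𝒟.P (fun w : Fin 3 → ℕ => R (w 0) (w 1) (w 2)))
    {f g h : (α → ℕ) → ℕ} (hf : 𝒟.F f) (hg : 𝒟.F g) (hh : 𝒟.F h) :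
    𝒟.P (fun v => R (f v) (g v) (h v)) := by
  have := P.subst (β := Fin 3) (R := fun w => R (w 0) (w 1) (w 2)) hR (g := ![f, g, h])
    (fun b => by fin_cases b <;> assumption)
  exact this

/-- definable functions from definable relation: composition -/
theorem F.subst {f : (β → ℕ) → ℕ} (hf : 𝒟.F f) {g : β → (α → ℕ) → ℕ}
    (hg : ∀ b, 𝒟.F (g b)) : 𝒟.F (fun v => f (fun b => g b v)) := by
  have := P.subst (α := Option α) (β := Option β)
    (R := fun w => w none = f (fun i => w (some i))) hf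
    (g := fun o w => o.elim (w none) (fun b => g b (fun i => w (some i)))) (fun o => by
      cases o with
      | none => exact F.var none
      | some b => exact F.rename (hg b) some)
  exact this

theorem P.eq {f g : (α → ℕ) → ℕ} (hf : 𝒟.F f) (hg : 𝒟.F g) : 𝒟.P (fun v => f v = g v) :=
  P.subst2 (R := fun a b => a = b) (P.varEq 0 1) hf hg

theorem F.add {f g : (α → ℕ) → ℕ} (hf : 𝒟.F f) (hg : 𝒟.F g) : 𝒟.F (fun v => f v + g v) := by
  have h0 : 𝒟.F (fun w : Fin 2 → ℕ => w 0 + w 1) :=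
    (P.varAdd (𝒟 := 𝒟) (some (0 : Fin 2)) (some 1) none).congr (fun v => by
      constructor <;> intro h <;> exact h.symm)
  have := F.subst h0 (g := ![f, g]) (fun b => by fin_cases b <;> assumption)
  exact this

theorem F.zero : 𝒟.F (fun _ : α → ℕ => 0) := P.zero none

theorem P.le {f g : (α → ℕ) → ℕ} (hf : 𝒟.F f) (hg : 𝒟.F g) : 𝒟.P (fun v => f v ≤ g v) := by
  refine P.subst2 (R := fun a b => a ≤ b) ?_ hf hg
  refine P.congr (φ := fun w : Fin 2 → ℕ => ∃ z, w 0 + z = w 1) ?_ ?_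
  · exact P.ex (P.varAdd (some 0) none (some 1))
  · intro v
    constructor
    · intro h; exact ⟨v 1 - v 0, by omega⟩
    · rintro ⟨z, hz⟩; omega

theorem P.lt {f g : (α → ℕ) → ℕ} (hf : 𝒟.F f) (hg : 𝒟.F g) : 𝒟.P (fun v => f v < g v) :=
  (P.not (P.le hg hf)).congr (fun v => by omega)

theorem F.one : 𝒟.F (fun _ : α → ℕ => 1) := by
  refine P.congr (φ := fun w : Option α → ℕ => 0 < w none ∧ ∀ z, (0 < z → w none ≤ z)) ?_ ?_
  · refine P.and (P.lt F.zero (F.var none)) (P.all (P.imp ?_ ?_))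
    · exact P.lt F.zero (F.var none)
    · exact P.le (F.var (some none)) (F.var none)
  · intro v
    show v none = 1 ↔ _
    constructor
    · intro h; rw [h]; exact ⟨by norm_num, fun z hz => hz⟩
    · rintro ⟨h1, h2⟩; have := h2 1 (by norm_num); omega

theorem F.const (n : ℕ) : 𝒟.F (fun _ : α → ℕ => n) := by
  induction n with
  | zero => exact F.zero
  | succ n ih => exact F.add ih F.one

theorem F.cmul (c : ℕ) {f : (α → ℕ) → ℕ} (hf : 𝒟.F f) : 𝒟.F (fun v => c * f v) := by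
  induction c with
  | zero => exact F.zero.congr fun v => by simp
  | succ n ih => exact (F.add ih hf).congr fun v => by ring

theorem F.mulc (c : ℕ) {f : (α → ℕ) → ℕ} (hf : 𝒟.F f) : 𝒟.F (fun v => f v * c) :=
  (F.cmul c hf).congr fun v => by ring

theorem F.sum {ι : Type*} (s : Finset ι) {f : ι → (α → ℕ) → ℕ} (hf : ∀ i, 𝒟.F (f i)) :
    𝒟.F (fun v => ∑ i ∈ s, f i v) := by
  classical
  induction s using Finset.induction_on with
  | empty => exact F.zero.congr fun v => by simp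
  | insert a s ha ih => exact (F.add (hf a) ih).congr fun v => by rw [Finset.sum_insert ha]

/-- divisibility by a constant -/
theorem P.dvd (c : ℕ) {f : (α → ℕ) → ℕ} (hf : 𝒟.F f) : 𝒟.P (fun v => c ∣ f v) := by
  refine P.congr (φ := fun v => ∃ y, f v = c * y) ?_ (fun v => Iff.rfl)
  exact P.ex (P.eq (F.rename hf some) (F.cmul c (F.var none)))

theorem P.eqConst (c : ℕ) {f : (α → ℕ) → ℕ} (hf : 𝒟.F f) : 𝒟.P (fun v => f v = c) :=
  P.eq hf (F.const c)

/-- congruence modulo a constant -/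
theorem P.modEqConst (c r : ℕ) {f : (α → ℕ) → ℕ} (hf : 𝒟.F f) : 𝒟.P (fun v => f v % c = r) := by
  rcases Nat.eq_zero_or_pos c with rfl | hc
  · exact (P.eqConst r hf).congr fun v => by simp
  · refine P.congr (φ := fun v => ∃ y, f v = c * y + r ∧ r < c) ?_ ?_
    · exact P.ex (P.and (P.eq (F.rename hf some) (F.add (F.cmul c (F.var none)) (F.const r)))
        (P.const _))
    · intro v
      constructor
      · intro h
        refine ⟨f v / c, ?_, ?_⟩
        · have := Nat.div_add_mod (f v) c; omega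
        · rw [← h]; exact Nat.mod_lt _ hc
      · rintro ⟨y, hy, hr⟩
        rw [hy, Nat.mul_add_mod]
        exact Nat.mod_eq_of_lt hr

end DefSys

end Pool.Agent.Helper98.AP
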