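import Pool.Agent.Helper98.APAut

/-! Families indexed by powers of `K`. -/

namespace Pool.Agent.Helper98.AP

open Set

/-- `(p, z)` belongs to the graph of the family `G`: `p = K^n`, `z < K^n`, `z ∈ G n` -/
def mem {α : Type} (K : ℕ) (G : ℕ → Set (α → ℕ)) (p : ℕ) (z : α → ℕ) : Prop :=
  ∃ n, p = K ^ n ∧ (∀ i, z i < K ^ n) ∧ z ∈ G n

/-- the graph of a family as a set of tuples -/
def graph {α : Type} (K : ℕ) (G : ℕ → Set (α → ℕ)) : Set (Option α → ℕ) :=
  {w | mem K G (w none) (fun i => w (some i))}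

/-- residual of a family -/
def res {α : Type} (K : ℕ) (e : ℕ) (d : α → ℕ) (G : ℕ → Set (α → ℕ)) : ℕ → Set (α → ℕ) :=
  fun n => {z | (∀ i, z i < K ^ n) ∧ (fun i => d i * K ^ n + z i) ∈ G (n + e)}

set_option linter.unusedSectionVars false
set_option linter.unusedVariables false

variable {α β : Type} [Finite α] [Finite β] {𝒟 : DefSys} {K : ℕ}

/-- the powers of `K` belong to the system -/
def PowIn (𝒟 : DefSys) (K : ℕ) : Prop := 𝒟.P (fun v : Unit → ℕ => ∃ n, v () = K ^ n)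

/-- the family belongs to the system -/
def FamIn (𝒟 : DefSys) {α : Type} [Finite α] (K : ℕ) (G : ℕ → Set (α → ℕ)) : Prop :=
  𝒟.P (fun w : Option α → ℕ => mem K G (w none) (fun i => w (some i)))

/-- divisibility by powers of `K` belongs to the system -/
def ValIn (𝒟 : DefSys) (K : ℕ) : Prop :=
  𝒟.P (fun v : Fin 2 → ℕ => (∃ n, v 0 = K ^ n) ∧ v 0 ∣ v 1)

theorem PowIn.P (h : PowIn 𝒟 K) {f : (α → ℕ) → ℕ} (hf : 𝒟.F f) :
    𝒟.P (fun v => ∃ n, f v = K ^ n) := DefSys.P.subst1 (R := fun x => ∃ n, x = K ^ n) h hf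

theorem FamIn.P {G : ℕ → Set (α → ℕ)} (h : FamIn 𝒟 K G) {f : (β → ℕ) → ℕ}
    {g : α → (β → ℕ) → ℕ} (hf : 𝒟.F f) (hg : ∀ i, 𝒟.F (g i)) :
    𝒟.P (fun v => mem K G (f v) (fun i => g i v)) :=
  DefSys.P.subst (α := β) (β := Option α)
    (R := fun w => mem K G (w none) (fun i => w (some i))) h
    (g := fun o => o.elim f g) (fun o => by cases o <;> simp [hf, hg])

theorem ValIn.P (h : ValIn 𝒟 K) {f g : (α → ℕ) → ℕ} (hf : 𝒟.F f) (hg : 𝒟.F g) :
    𝒟.P (fun v => (∃ n, f v = K ^ n) ∧ f v ∣ g v) :=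
  DefSys.P.subst2 (R := fun a b => (∃ n, a = K ^ n) ∧ a ∣ b) h hf hg

theorem mem_pow (hK : 2 ≤ K) {G : ℕ → Set (α → ℕ)} {n : ℕ} {z : α → ℕ} :
    mem K G (K ^ n) z ↔ (∀ i, z i < K ^ n) ∧ z ∈ G n := by
  constructor
  · rintro ⟨m, h, h1, h2⟩
    have : n = m := Nat.pow_right_injective hK h
    subst this
    exact ⟨h1, h2⟩
  · rintro ⟨h1, h2⟩
    exact ⟨n, rfl, h1, h2⟩

theorem res_res (hK : 2 ≤ K) {e e' : ℕ} {d d' : α → ℕ} (hd : ∀ i, d i < K ^ e)
    {G : ℕ → Set (α → ℕ)} :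
    res K e d (res K e' d' G) = res K (e' + e) (fun i => d' i * K ^ e + d i) G := by
  funext n
  ext z
  simp only [res, mem_ofPred_eq]
  constructor
  · rintro ⟨h1, h2, h3⟩
    refine ⟨h1, ?_⟩
    have e1 : (fun i => (d' i * K ^ e + d i) * K ^ n + z i) =
        fun i => d' i * K ^ (n + e) + (d i * K ^ n + z i) := by
      funext i; ring
    have e2 : n + (e' + e) = n + e + e' := by omega
    rw [e1, e2]; exact h3
  · rintro ⟨h1, h2⟩
    refine ⟨h1, ?_, ?_⟩
    · intro i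
      calc d i * K ^ n + z i < d i * K ^ n + K ^ n := by have := h1 i; omega
        _ = (d i + 1) * K ^ n := by ring
        _ ≤ K ^ e * K ^ n := Nat.mul_le_mul_right _ (hd i)
        _ = K ^ (n + e) := by rw [← pow_add, Nat.add_comm]
    · have e1 : (fun i => (d' i * K ^ e + d i) * K ^ n + z i) =
          fun i => d' i * K ^ (n + e) + (d i * K ^ n + z i) := by
        funext i; ring
      have e2 : n + (e' + e) = n + e + e' := by omega
      rw [← e1, ← e2]; exact h2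

theorem res_bd {e : ℕ} {d : α → ℕ} {G : ℕ → Set (α → ℕ)} {n : ℕ} {z : α → ℕ}
    (h : z ∈ res K e d G n) : ∀ i, z i < K ^ n := h.1

/-- residual families of a definable family are definable -/
theorem FamIn.res (hK : 2 ≤ K) {G : ℕ → Set (α → ℕ)} (h : FamIn 𝒟 K G) (hpow : PowIn 𝒟 K)
    {e : ℕ} {d : α → ℕ} (hd : ∀ i, d i < K ^ e) : FamIn 𝒟 K (res K e d G) := by
  refine DefSys.P.congr (φ := fun w : Option α → ℕ => (∃ n, w none = K ^ n) ∧
    (∀ i, w (some i) < w none) ∧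
    mem K G (K ^ e * w none) (fun i => d i * w none + w (some i))) ?_ ?_
  · refine DefSys.P.and (hpow.P (DefSys.F.var none)) (DefSys.P.and ?_ ?_)
    · exact DefSys.P.forallFin fun i => DefSys.P.lt (DefSys.F.var _) (DefSys.F.var _)
    · exact h.P (DefSys.F.cmul _ (DefSys.F.var _))
        (fun i => DefSys.F.add (DefSys.F.cmul _ (DefSys.F.var _)) (DefSys.F.var _))
  · intro w
    constructor
    · rintro ⟨n, hn, h1, h2⟩
      rw [hn]
      refine ⟨⟨n, rfl⟩, h1, ?_⟩
      have : K ^ e * K ^ n = K ^ (n + e) := by rw [← pow_add, Nat.add_comm]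
      rw [this, mem_pow hK]
      refine ⟨?_, h2.2⟩
      intro i
      have h1i : w (some i) < K ^ n := h1 i
      calc d i * K ^ n + w (some i) < d i * K ^ n + K ^ n := by omega
        _ = (d i + 1) * K ^ n := by ring
        _ ≤ K ^ e * K ^ n := Nat.mul_le_mul_right _ (hd i)
        _ = K ^ (n + e) := this
    · rintro ⟨⟨n, hn⟩, h1, h2⟩
      rw [hn] at h1 h2
      have : K ^ e * K ^ n = K ^ (n + e) := by rw [← pow_add, Nat.add_comm]
      rw [this, mem_pow hK] at h2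
      exact ⟨n, hn, h1, h1, h2.2⟩

/-- residual families of an automatic family: finitely many -/
theorem finRes_of_aut (hK : 2 ≤ K) {G : ℕ → Set (α → ℕ)} (h : Aut K (graph K G)) :
    {H | ∃ e d, (∀ i, d i < K ^ e) ∧ H = res K e d G}.Finite := by
  refine (Set.Finite.image (fun R : ℕ → Set (Option α → ℕ) => fun n =>
    {z : α → ℕ | (∀ i, z i < K ^ n) ∧ (fun o : Option α => o.elim 0 z) ∈ R n}) h).subset ?_
  rintro _ ⟨e, d, hd, rfl⟩
  refine ⟨_, ⟨fun o : Option α => o.elim (K ^ e) d, rfl⟩, ?_⟩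
  funext n
  ext z
  simp only [res, resid, graph, mem_ofPred_eq]
  have e1 : K ^ e * K ^ n = K ^ (n + e) := by rw [← pow_add, Nat.add_comm]
  constructor
  · rintro ⟨h1, h2, h3⟩
    refine ⟨h1, ?_⟩
    have h3' : mem K G (K ^ e * K ^ n) (fun i => d i * K ^ n + z i) := h3
    rw [e1, mem_pow hK] at h3'
    exact h3'.2
  · rintro ⟨h1, h2⟩
    refine ⟨h1, ?_, ?_⟩
    · intro o
      cases o with
      | none => simp; positivity
      | some i => exact h1 i
    · show mem K G (K ^ e * K ^ n) (fun i => d i * K ^ n + z i)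
      rw [e1, mem_pow hK]
      refine ⟨?_, h2⟩
      intro i
      calc d i * K ^ n + z i < d i * K ^ n + K ^ n := by have := h1 i; omega
        _ = (d i + 1) * K ^ n := by ring
        _ ≤ K ^ e * K ^ n := Nat.mul_le_mul_right _ (hd i)
        _ = K ^ (n + e) := e1

theorem famIn_autSys (hK : 2 ≤ K) {G : ℕ → Set (α → ℕ)} :
    FamIn (autSys K hK) K G ↔ Aut K (graph K G) := Iff.rfl

theorem powIn_autSys (hK : 2 ≤ K) : PowIn (autSys K hK) K := Aut.pow hK

end Pool.Agent.Helper98.AP
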