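import Pool.Agent.Helper98.APBase

/-! The main dichotomy: an automatic family is tame or defines divisibility by powers. -/

namespace Pool.Agent.Helper98.AP

open Set DefSys

set_option linter.unusedSectionVars false
set_option linter.unusedVariables false

variable {α : Type} [Finite α] {K : ℕ}

/-- two distinct loops of equal length -/
def Two (K : ℕ) (H : ℕ → Set (α → ℕ)) (l : ℕ) : Prop :=
  ∃ w1 w2 : α → ℕ, w1 ≠ w2 ∧ Loop K l w1 H ∧ Loop K l w2 H

theorem rep_ne (hK : 2 ≤ K) {l c : ℕ} (hl : 1 ≤ l) (hc : 1 ≤ c) {w1 w2 : α → ℕ} (hne : w1 ≠ w2) :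
    (fun i => w1 i * rp (K ^ l) c) ≠ fun i => w2 i * rp (K ^ l) c := by
  intro h
  apply hne
  funext i
  have h1 := congrFun h i
  have hpos : 0 < rp (K ^ l) c := by
    obtain ⟨c', rfl⟩ : ∃ c', c = c' + 1 := ⟨c - 1, by omega⟩
    rw [rp]; omega
  exact Nat.eq_of_mul_eq_mul_right hpos h1

/-- a common step length at which every state has two loops or at most one (self-)return -/
theorem star (hK : 2 ≤ K) {𝓡 : Set (ℕ → Set (α → ℕ))} (hfin : 𝓡.Finite)
    (hbd : ∀ H ∈ 𝓡, Bd K H) :
    ∃ L, 1 ≤ L ∧ ∀ H ∈ 𝓡, Two K H L ∨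
      ∀ d : α → ℕ, (∀ i, d i < K ^ L) → res K L d H = H ∨
        ∀ r (d' : α → ℕ), (∀ i, d' i < K ^ (L * r)) → res K (L * r) d' (res K L d H) ≠ H := by
  classical
  have hchoose : ∀ H : ℕ → Set (α → ℕ), ∃ l, 1 ≤ l ∧
      ((∃ l', 1 ≤ l' ∧ Two K H l') → Two K H l) ∧
      ((∃ l', 1 ≤ l' ∧ ∃ w, Loop K l' w H) → ∃ w, Loop K l w H) := by
    intro H
    by_cases h2 : ∃ l', 1 ≤ l' ∧ Two K H l'
    · obtain ⟨l, hl, w1, w2, hne, h1, h2'⟩ := h2
      exact ⟨l, hl, fun _ => ⟨w1, w2, hne, h1, h2'⟩, fun _ => ⟨w1, h1⟩⟩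
    · by_cases h1 : ∃ l', 1 ≤ l' ∧ ∃ w, Loop K l' w H
      · obtain ⟨l, hl, w, hw⟩ := h1
        exact ⟨l, hl, fun h => absurd h h2, fun _ => ⟨w, hw⟩⟩
      · exact ⟨1, le_rfl, fun h => absurd h h2, fun h => absurd h h1⟩
  choose l hl htwo hone using hchoose
  set L := ∏ H ∈ hfin.toFinset, l H with hLdef
  have hLpos : 1 ≤ L := Nat.one_le_iff_ne_zero.2 (Finset.prod_ne_zero_iff.2 fun H _ => by
    have := hl H; omega)
  have hdvd : ∀ H ∈ 𝓡, ∃ c, 1 ≤ c ∧ L = l H * c := by
    intro H hH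
    obtain ⟨c, hc⟩ := Finset.dvd_prod_of_mem l (by simpa using hH : H ∈ hfin.toFinset)
    refine ⟨c, ?_, hc⟩
    rcases Nat.eq_zero_or_pos c with h | h
    · rw [h, Nat.mul_zero] at hc
      rw [hLdef] at hLpos
      omega
    · exact h
  refine ⟨L, hLpos, fun H hH => ?_⟩
  obtain ⟨c, hc, hLc⟩ := hdvd H hH
  by_cases h2 : ∃ l', 1 ≤ l' ∧ Two K H l'
  · left
    obtain ⟨w1, w2, hne, h1, h1'⟩ := htwo H h2
    refine ⟨_, _, rep_ne hK (hl H) hc hne, ?_, ?_⟩
    · rw [hLc]; exact h1.rep hK (hbd H hH) c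
    · rw [hLc]; exact h1'.rep hK (hbd H hH) c
  · right
    intro d hd
    by_cases hself : res K L d H = H
    · exact Or.inl hself
    · right
      intro r d' hd' hback
      apply hself
      -- a loop through d
      have hloop : Loop K (L + L * r) (fun i => d i * K ^ (L * r) + d' i) H := by
        refine ⟨fun i => ?_, ?_⟩
        · calc d i * K ^ (L * r) + d' i < d i * K ^ (L * r) + K ^ (L * r) := by
                have := hd' i; omega
            _ = (d i + 1) * K ^ (L * r) := by ring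
            _ ≤ K ^ L * K ^ (L * r) := Nat.mul_le_mul_right _ (hd i)
            _ = K ^ (L + L * r) := by rw [← pow_add]
        · rw [← res_res hK hd', hback]
      obtain ⟨w, hw⟩ := hone H ⟨_, by omega, _, hloop⟩
      have hW := hw.rep hK (hbd H hH) c
      rw [← hLc] at hW
      set W : α → ℕ := fun i => w i * rp (K ^ l H) c with hWdef
      have hWr := hW.rep hK (hbd H hH) r
      have hloop2 := hW.comp hK hWr
      have heq : (fun i => d i * K ^ (L * r) + d' i) =
          fun i => W i * K ^ (L * r) + (fun i => W i * rp (K ^ L) r) i := by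
        by_contra hne
        exact h2 ⟨L + L * r, by omega, _, _, hne, hloop, hloop2⟩
      have hdW : d = W := by
        funext i
        have h3 : d i * K ^ (L * r) + d' i = W i * K ^ (L * r) + W i * rp (K ^ L) r :=
          congrFun heq i
        have hpos : 0 < K ^ (L * r) := by positivity
        have h4 : W i * rp (K ^ L) r < K ^ (L * r) := hWr.1 i
        have h5 : (d i * K ^ (L * r) + d' i) / K ^ (L * r) =
          (W i * K ^ (L * r) + W i * rp (K ^ L) r) / K ^ (L * r) := by rw [h3]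
        rw [Nat.mul_comm (d i), Nat.mul_add_div hpos, Nat.div_eq_of_lt (hd' i), Nat.add_zero,
          Nat.mul_comm (W i) (K ^ (L * r)), Nat.mul_add_div hpos, Nat.div_eq_of_lt h4,
          Nat.add_zero] at h5
        exact h5
      rw [hdW]; exact hW.2

/-- assembling a family from its residuals at levels divisible by `L` -/
theorem assemble (hK : 2 ≤ K) {L : ℕ} (hL : 1 ≤ L) {𝒟 : DefSys} {G : ℕ → Set (α → ℕ)}
    (h : ∀ r, r < L → ∀ d : α → ℕ, (∀ i, d i < K ^ r) →
      FamIn 𝒟 (K ^ L) (scale L (res K r d G))) : FamIn 𝒟 K G := by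
  have hbox : ∀ r, {d : α → ℕ | ∀ i, d i < K ^ r}.Finite := by
    intro r
    have := Set.Finite.pi' (ι := α) (κ := fun _ => ℕ) (t := fun _ => Set.Iio (K ^ r))
      (fun _ => Set.finite_Iio _)
    exact this.subset (fun d hd i => hd i)
  refine P.congr (φ := fun w : Option α → ℕ => ∃ r, r < L ∧
    ∃ d ∈ {d : α → ℕ | ∀ i, d i < K ^ r}, ∃ p'' : ℕ, ∃ z'' : α → ℕ, w none = K ^ r * p'' ∧
      (∀ i, w (some i) = d i * p'' + z'' i) ∧
      mem (K ^ L) (scale L (res K r d G)) p'' z'') ?_ ?_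
  · refine P.existsLt _ fun r hr => P.existsSet (hbox r) fun d hd => P.ex (P.exv (P.and ?_
      (P.and ?_ ?_)))
    · exact P.eq (F.var _) (F.cmul _ (F.var _))
    · exact P.forallFin fun i => P.eq (F.var _) (F.add (F.cmul _ (F.var _)) (F.var _))
    · exact (h r hr d hd).P (F.var _) (fun i => F.var _)
  · intro w
    constructor
    · rintro ⟨n, hn, h1, h2⟩
      have hn' : n = L * (n / L) + n % L := (Nat.div_add_mod n L).symm
      set q := n / L with hq
      set r := n % L with hr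
      have hpos : 0 < K ^ (L * q) := by positivity
      refine ⟨r, Nat.mod_lt _ hL, fun i => w (some i) / K ^ (L * q), fun i => ?_,
        (K ^ L) ^ q, fun i => w (some i) % K ^ (L * q), ?_, fun i => ?_, ?_⟩
      · show w (some i) / K ^ (L * q) < K ^ r
        rw [Nat.div_lt_iff_lt_mul hpos, ← pow_add, Nat.add_comm, ← hn']
        exact h1 i
      · rw [hn, ← pow_mul, ← pow_add]
        congr 1; omega
      · show w (some i) = w (some i) / K ^ (L * q) * (K ^ L) ^ q + w (some i) % K ^ (L * q)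
        rw [← pow_mul, Nat.mul_comm]; exact (Nat.div_add_mod _ _).symm
      · refine ⟨q, rfl, fun i => ?_, fun i => Nat.mod_lt _ hpos, ?_⟩
        · rw [← pow_mul]; exact Nat.mod_lt _ hpos
        · have : (fun i => w (some i) / K ^ (L * q) * K ^ (L * q) + w (some i) % K ^ (L * q)) =
              fun i => w (some i) := by
            funext i
            rw [Nat.mul_comm]; exact Nat.div_add_mod _ _
          show (fun i => w (some i) / K ^ (L * q) * K ^ (L * q) + w (some i) % K ^ (L * q)) ∈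
            G (L * q + r)
          rw [this, ← hn']; exact h2
    · rintro ⟨r, hr, d, hd, p'', z'', h1, h2, q, hq, h3, h4⟩
      subst hq
      rw [← pow_mul] at h1 h2 h3
      refine ⟨L * q + r, by rw [h1, ← pow_add, Nat.add_comm], fun i => ?_, ?_⟩
      · show w (some i) < _
        rw [h2 i]
        calc d i * K ^ (L * q) + z'' i < d i * K ^ (L * q) + K ^ (L * q) := by
              have := h3 i; omega
          _ = (d i + 1) * K ^ (L * q) := by ring
          _ ≤ K ^ r * K ^ (L * q) := Nat.mul_le_mul_right _ (hd i)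
          _ = K ^ (L * q + r) := by rw [← pow_add, Nat.add_comm]
      · have : (fun i => w (some i)) = fun i => d i * K ^ (L * q) + z'' i := funext h2
        rw [this]; exact h4.2

/-- Main dichotomy for families. -/
theorem main_fam (m : ℕ) : ∀ (α : Type) [Finite α], Nat.card α = m → ∀ (K : ℕ), 2 ≤ K →
    ∀ (𝒟 : DefSys), PowIn 𝒟 K → ¬ ValIn 𝒟 K → ∀ G : ℕ → Set (α → ℕ), FamIn 𝒟 K G →
    Aut K (graph K G) → ∀ 𝒟' : DefSys, PowIn 𝒟' K → FamIn 𝒟' K G := by
  classical
  induction m using Nat.strong_induction_on with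
  | _ m ihm =>
  intro α _ hα K hK 𝒟 hpow hV G hG hA 𝒟' hpow'
  set 𝓡 : Set (ℕ → Set (α → ℕ)) := {H | ∃ e d, (∀ i, d i < K ^ e) ∧ H = res K e d G} with h𝓡
  have hfin : 𝓡.Finite := finRes_of_aut hK hA
  have hbd : ∀ H ∈ 𝓡, Bd K H := by
    rintro _ ⟨e, d, _, rfl⟩
    exact bd_res
  have hcl : ∀ H ∈ 𝓡, ∀ e (d : α → ℕ), (∀ i, d i < K ^ e) → res K e d H ∈ 𝓡 := by
    rintro _ ⟨e', d', hd', rfl⟩ e d hd
    refine ⟨e' + e, fun i => d' i * K ^ e + d i, fun i => ?_, res_res hK hd⟩
    calc d' i * K ^ e + d i < d' i * K ^ e + K ^ e := by have := hd i; omega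
      _ = (d' i + 1) * K ^ e := by ring
      _ ≤ K ^ e' * K ^ e := Nat.mul_le_mul_right _ (hd' i)
      _ = K ^ (e' + e) := by rw [← pow_add]
  obtain ⟨L, hL, hstar⟩ := star hK hfin hbd
  have hKL : 2 ≤ K ^ L := by
    calc 2 ≤ K := hK
      _ = K ^ 1 := (pow_one K).symm
      _ ≤ K ^ L := Nat.pow_le_pow_right (by omega) hL
  have hpowL : PowIn 𝒟 (K ^ L) := hpow.scale hK hL
  have hpowL' : PowIn 𝒟' (K ^ L) := hpow'.scale hK hL
  have hVL : ¬ ValIn 𝒟 (K ^ L) := fun h => hV (h.unscale hK hL hpow)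
  have hres1 : ∀ (H : ℕ → Set (α → ℕ)) (d : α → ℕ),
      res (K ^ L) 1 d (scale L H) = scale L (res K L d H) := by
    intro H d
    rw [res_scale, Nat.mul_one]
  have key : ∀ n, ∀ H ∈ 𝓡, {H' | ∃ r, ∃ d' : α → ℕ, (∀ i, d' i < K ^ (L * r)) ∧
      H' = res K (L * r) d' H}.ncard = n → FamIn 𝒟' (K ^ L) (scale L H) := by
    intro n
    induction n using Nat.strong_induction_on with
    | _ n ihn =>
    intro H hH hcard
    have hHin : FamIn 𝒟 (K ^ L) (scale L H) := by
      obtain ⟨e, d, hd, rfl⟩ := hH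
      exact (hG.res hK hpow hd).scale hK hL hpow
    have hHaut : Aut (K ^ L) (graph (K ^ L) (scale L H)) := by
      obtain ⟨e, d, hd, rfl⟩ := hH
      exact aut_scale hK hL (FamIn.res (𝒟 := autSys K hK) hK hA (powIn_autSys hK) hd)
    by_cases htwo : Two K H L
    · obtain ⟨w1, w2, hne, hw1, hw2⟩ := htwo
      have hw1' : ∀ i, w1 i < (K ^ L) ^ 1 := fun i => by rw [pow_one]; exact hw1.1 i
      have hw2' : ∀ i, w2 i < (K ^ L) ^ 1 := fun i => by rw [pow_one]; exact hw2.1 i
      have hr1 : res (K ^ L) 1 w1 (scale L H) = scale L H := by rw [hres1, hw1.2]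
      have hr2 : res (K ^ L) 1 w2 (scale L H) = scale L H := by rw [hres1, hw2.2]
      rcases per_or_val hKL hpowL hHin hHaut hne hw1' hw2' hr1 hr2 with ⟨N, hN, hper⟩ | hval
      · have hcardlt : ∀ i : α, Nat.card {j : α // j ≠ i} < m := by
          intro i
          have : Fintype α := Fintype.ofFinite α
          rw [← hα, Nat.card_eq_fintype_card, Nat.card_eq_fintype_card]
          exact Fintype.card_subtype_lt (x := i) (by simp)
        refine tame_of_period hKL hne hw1' hw2' hN hper hpowL' (fun i c => ?_) (fun i c => ?_)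
        · exact ihm _ (hcardlt i) {j : α // j ≠ i} rfl (K ^ L) hKL 𝒟 hpowL hVL _
            (hHin.low hKL i c) (FamIn.low (𝒟 := autSys (K ^ L) hKL) hKL hHaut i c) 𝒟' hpowL'
        · exact ihm _ (hcardlt i) {j : α // j ≠ i} rfl (K ^ L) hKL 𝒟 hpowL hVL _
            (hHin.high hKL i c) (FamIn.high (𝒟 := autSys (K ^ L) hKL) hKL hHaut i c) 𝒟' hpowL'
      · exact absurd hval hVL
    · have hright := (hstar H hH).resolve_left htwo
      -- the reachable set
      have hRfin : ∀ H ∈ 𝓡, {H' | ∃ r, ∃ d' : α → ℕ, (∀ i, d' i < K ^ (L * r)) ∧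
          H' = res K (L * r) d' H}.Finite := by
        intro H hH
        refine hfin.subset ?_
        rintro _ ⟨r, d', hd', rfl⟩
        exact hcl H hH _ _ hd'
      have hlower : ∀ d : α → ℕ, (∀ i, d i < K ^ L) → res K L d H ≠ H →
          FamIn 𝒟' (K ^ L) (scale L (res K L d H)) := by
        intro d hd hneq
        have hnoret := (hright d hd).resolve_left hneq
        refine ihn _ ?_ (res K L d H) (hcl H hH L d hd) rfl
        rw [← hcard]
        refine Set.ncard_lt_ncard ?_ (hRfin H hH)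
        refine ⟨?_, fun hsub => ?_⟩
        · rintro _ ⟨r, d', hd', rfl⟩
          refine ⟨r + 1, fun i => d i * K ^ (L * r) + d' i, fun i => ?_, ?_⟩
          · calc d i * K ^ (L * r) + d' i < d i * K ^ (L * r) + K ^ (L * r) := by
                  have := hd' i; omega
              _ = (d i + 1) * K ^ (L * r) := by ring
              _ ≤ K ^ L * K ^ (L * r) := Nat.mul_le_mul_right _ (hd i)
              _ = K ^ (L * (r + 1)) := by rw [← pow_add]; congr 1; ring
          · have e : L * (r + 1) = L + L * r := by ring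
            rw [e, ← res_res hK hd']
        · have hmemH : H ∈ {H' | ∃ r, ∃ d' : α → ℕ, (∀ i, d' i < K ^ (L * r)) ∧
              H' = res K (L * r) d' H} := by
            have h0 := Loop.zero (K := K) (hbd H hH)
            exact ⟨0, fun _ => 0, fun i => by simp, by rw [Nat.mul_zero]; exact h0.2.symm⟩
          obtain ⟨r, d', hd', hback⟩ := hsub hmemH
          exact hnoret r d' hd' hback.symm
      by_cases hself : ∃ w, Loop K L w H
      · obtain ⟨w, hw⟩ := hself
        refine tame_loop hKL hpowL' (w := w) ?_ ?_ ?_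
        · intro n z hz i
          rw [← pow_mul]
          exact hbd H hH _ z hz i
        · refine ⟨fun i => by rw [pow_one]; exact hw.1 i, by rw [hres1, hw.2]⟩
        · intro d hdw hd
          rw [hres1]
          have hd' : ∀ i, d i < K ^ L := fun i => by have := hd i; rwa [pow_one] at this
          refine hlower d hd' fun heq => htwo ⟨d, w, hdw, ⟨hd', heq⟩, hw⟩
      · refine tame_noloop hKL hpowL' fun d hd => ?_
        rw [hres1]
        have hd' : ∀ i, d i < K ^ L := fun i => by have := hd i; rwa [pow_one] at this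
        exact hlower d hd' fun heq => hself ⟨d, hd', heq⟩
  refine assemble hK hL fun r hr d hd => key _ _ ⟨r, d, hd, rfl⟩ rfl

/-- Main dichotomy for sets. -/
theorem main_set (α : Type) [Finite α] (K : ℕ) (hK : 2 ≤ K) (𝒟 : DefSys) (hpow : PowIn 𝒟 K)
    (hV : ¬ ValIn 𝒟 K) (S : Set (α → ℕ)) (hS : 𝒟.D α S) (hA : Aut K S)
    (𝒟' : DefSys) (hpow' : PowIn 𝒟' K) : 𝒟'.D α S := by
  have hfam : ∀ 𝒟 : DefSys, PowIn 𝒟 K → 𝒟.D α S → FamIn 𝒟 K (fun _ => S) := by
    intro 𝒟 hpow hS
    refine P.congr (φ := fun w : Option α → ℕ => (∃ n, w none = K ^ n) ∧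
      (∀ i, w (some i) < w none) ∧ (fun i => w (some i)) ∈ S) ?_ ?_
    · refine P.and (hpow.P (F.var _)) (P.and ?_ ?_)
      · exact P.forallFin fun i => P.lt (F.var _) (F.var _)
      · exact P.rename (φ := fun v => v ∈ S) hS some
    · intro w
      constructor
      · rintro ⟨n, hn, h1, h2⟩
        rw [hn]
        exact ⟨⟨n, rfl⟩, h1, h2⟩
      · rintro ⟨⟨n, hn⟩, h1, h2⟩
        rw [hn] at h1
        exact ⟨n, hn, h1, h2⟩
  have h1 := main_fam _ α rfl K hK 𝒟 hpow hV (fun _ => S) (hfam 𝒟 hpow hS)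
    (hfam (autSys K hK) (powIn_autSys hK) hA) 𝒟' hpow'
  refine P.congr (φ := fun v : α → ℕ => ∃ p, mem K (fun _ => S) p v) (P.ex ?_) ?_
  · exact h1.P (F.var _) (fun i => F.var _)
  · intro v
    constructor
    · intro hv
      have : ∃ n, ∀ i, v i < K ^ n := by
        have : Fintype α := Fintype.ofFinite α
        refine ⟨∑ i, v i, fun i => ?_⟩
        calc v i ≤ ∑ i, v i := Finset.single_le_sum (fun _ _ => Nat.zero_le _) (Finset.mem_univ i)
          _ < K ^ (∑ i, v i) := Nat.lt_pow_self (by omega)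
      obtain ⟨n, hn⟩ := this
      exact ⟨K ^ n, n, rfl, hn, hv⟩
    · rintro ⟨p, n, _, _, h⟩
      exact h

end Pool.Agent.Helper98.AP
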