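import Pool.Agent.Helper98.APVal2

/-! A family with a bounded period is determined by its boundary layers. -/

namespace Pool.Agent.Helper98.AP

open Set DefSys

set_option linter.unusedSectionVars false
set_option linter.unusedVariables false

variable {α : Type} [Finite α] {K : ℕ}

open Classical in
/-- insert the value `c` at the coordinate `i` -/
noncomputable def ext (i : α) (c : ℕ) (z : {j : α // j ≠ i} → ℕ) : α → ℕ :=
  fun j => if h : j = i then c else z ⟨j, h⟩

theorem ext_restrict (i : α) (z : α → ℕ) : ext i (z i) (fun j : {j : α // j ≠ i} => z j) = z := by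
  funext j
  unfold ext
  split_ifs with h
  · rw [h]
  · rfl

theorem ext_lt {i : α} {c M : ℕ} {z : {j : α // j ≠ i} → ℕ} :
    (∀ j, ext i c z j < M) ↔ c < M ∧ ∀ j, z j < M := by
  constructor
  · intro h
    refine ⟨?_, ?_⟩
    · have := h i
      unfold ext at this
      simpa using this
    · rintro ⟨j, hj⟩
      have := h j
      unfold ext at this
      simpa [hj] using this
  · rintro ⟨h1, h2⟩ j
    unfold ext
    split_ifs with h
    · exact h1
    · exact h2 _

/-- lower facet layers -/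
def low (K : ℕ) (i : α) (c : ℕ) (G : ℕ → Set (α → ℕ)) : ℕ → Set ({j : α // j ≠ i} → ℕ) :=
  fun n => {z | c < K ^ n ∧ ext i c z ∈ G n}

/-- upper facet layers -/
def high (K : ℕ) (i : α) (c : ℕ) (G : ℕ → Set (α → ℕ)) : ℕ → Set ({j : α // j ≠ i} → ℕ) :=
  fun n => {z | ∃ x, x + c + 1 = K ^ n ∧ ext i x z ∈ G n}

theorem mem_low (hK : 2 ≤ K) {i : α} {c : ℕ} {G : ℕ → Set (α → ℕ)} {p : ℕ}
    {z : {j : α // j ≠ i} → ℕ} : mem K (low K i c G) p z ↔ mem K G p (ext i c z) := by
  constructor
  · rintro ⟨n, hn, h1, h2, h3⟩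
    exact ⟨n, hn, ext_lt.2 ⟨h2, h1⟩, h3⟩
  · rintro ⟨n, hn, h1, h2⟩
    exact ⟨n, hn, (ext_lt.1 h1).2, (ext_lt.1 h1).1, h2⟩

theorem mem_high (hK : 2 ≤ K) {i : α} {c : ℕ} {G : ℕ → Set (α → ℕ)} {p : ℕ}
    {z : {j : α // j ≠ i} → ℕ} :
    mem K (high K i c G) p z ↔ ∃ x, x + c + 1 = p ∧ mem K G p (ext i x z) := by
  constructor
  · rintro ⟨n, hn, h1, x, h2, h3⟩
    exact ⟨x, by rw [hn]; exact h2, n, hn, ext_lt.2 ⟨by omega, h1⟩, h3⟩
  · rintro ⟨x, hx, n, hn, h1, h2⟩
    exact ⟨n, hn, (ext_lt.1 h1).2, x, by rw [← hn]; exact hx, h2⟩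

theorem ext_F {𝒟 : DefSys} {β : Type} [Finite β] {i : α} {c : (β → ℕ) → ℕ}
    (hc : 𝒟.F c) {z : {j : α // j ≠ i} → (β → ℕ) → ℕ} (hz : ∀ j, 𝒟.F (z j)) (j : α) :
    𝒟.F (fun v => ext i (c v) (fun j => z j v) j) := by
  by_cases h : j = i
  · refine F.congr hc fun v => ?_
    unfold ext; simp [h]
  · refine F.congr (hz ⟨j, h⟩) fun v => ?_
    unfold ext; simp [h]

theorem FamIn.low {𝒟 : DefSys} (hK : 2 ≤ K) {G : ℕ → Set (α → ℕ)} (h : FamIn 𝒟 K G)
    (i : α) (c : ℕ) : FamIn 𝒟 K (low K i c G) := by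
  refine P.congr (h.P (f := fun w : Option {j : α // j ≠ i} → ℕ => w none)
    (g := fun j w => ext i c (fun j => w (some j)) j) (F.var _)
    (fun j => ext_F (F.const c) (fun j => F.var _) j)) ?_
  intro w
  exact mem_low hK

theorem FamIn.high {𝒟 : DefSys} (hK : 2 ≤ K) {G : ℕ → Set (α → ℕ)} (h : FamIn 𝒟 K G)
    (i : α) (c : ℕ) : FamIn 𝒟 K (high K i c G) := by
  refine P.congr (φ := fun w : Option {j : α // j ≠ i} → ℕ =>
    ∃ x, x + c + 1 = w none ∧ mem K G (w none) (fun j => ext i x (fun j => w (some j)) j)) ?_ ?_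
  · refine P.ex (P.and (P.eq (F.add (F.add (F.var _) (F.const _)) (F.const _)) (F.var _)) ?_)
    exact h.P (F.var _) (fun j => ext_F (F.var _) (fun j => F.var _) j)
  · intro w
    exact mem_high hK

theorem perAt_mul {G : ℕ → Set (α → ℕ)} {w1 w2 : α → ℕ} {N j : ℕ}
    (h : PerAt K G w1 w2 j N) (t : ℕ) : PerAt K G w1 w2 j (N * t) := by
  induction t with
  | zero =>
    intro y y' _ _ hyy
    have : y = y' := by
      funext i
      have := hyy i
      simp at this
      exact this.symm
    rw [this]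
  | succ t ih =>
    intro y y' hy hy' hyy
    have hstep : ∀ i, w1 i * N ≤ y i + w2 i * N ∧ y i + w2 i * N - w1 i * N < K ^ j ∧
        y' i + w1 i * (N * t) = (y i + w2 i * N - w1 i * N) + w2 i * (N * t) := by
      intro i
      have h1 := hyy i
      have h2 := hy i
      have h3 := hy' i
      have e1 : w1 i * (N * (t + 1)) = w1 i * (N * t) + w1 i * N := by ring
      have e2 : w2 i * (N * (t + 1)) = w2 i * (N * t) + w2 i * N := by ring
      rw [e1, e2] at h1
      rcases le_total (w1 i) (w2 i) with hle | hle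
      · have f1 : w1 i * N ≤ w2 i * N := Nat.mul_le_mul_right _ hle
        have f2 : w1 i * (N * t) ≤ w2 i * (N * t) := Nat.mul_le_mul_right _ hle
        omega
      · have f1 : w2 i * N ≤ w1 i * N := Nat.mul_le_mul_right _ hle
        have f2 : w2 i * (N * t) ≤ w1 i * (N * t) := Nat.mul_le_mul_right _ hle
        omega
    have a1 := h y (fun i => y i + w2 i * N - w1 i * N) hy (fun i => (hstep i).2.1)
      (fun i => by have := (hstep i).1; omega)
    have a2 := ih (fun i => y i + w2 i * N - w1 i * N) y' (fun i => (hstep i).2.1) hy'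
      (fun i => (hstep i).2.2)
    rw [a1, a2]

theorem tame_of_period (hK : 2 ≤ K) {G : ℕ → Set (α → ℕ)} {w1 w2 : α → ℕ} (hne : w1 ≠ w2)
    (hw1 : ∀ i, w1 i < K ^ 1) (hw2 : ∀ i, w2 i < K ^ 1) {N : ℕ} (hN : 1 ≤ N)
    (hper : ∀ j, PerAt K G w1 w2 j N) {𝒟 : DefSys} (hpow : PowIn 𝒟 K)
    (hlow : ∀ i c, FamIn 𝒟 K (low K i c G)) (hhigh : ∀ i c, FamIn 𝒟 K (high K i c G)) :
    FamIn 𝒟 K G := by
  classical
  refine P.congr (φ := fun w : Option α → ℕ => (∃ n, w none = K ^ n) ∧
    (∀ i, w (some i) < w none) ∧ ∃ t, ∃ z' : α → ℕ, (∀ i, z' i < w none) ∧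
    (∀ i, w (some i) + (w1 i * N) * t = z' i + (w2 i * N) * t) ∧
    ∃ i, ∃ c, c < N * K ∧
      ((z' i = c ∧ mem K (low K i c G) (w none) (fun j => z' j)) ∨
       (z' i + c + 1 = w none ∧ mem K (high K i c G) (w none) (fun j => z' j)))) ?_ ?_
  · refine P.and (hpow.P (F.var _)) (P.and ?_ (P.ex (P.exv (P.and ?_ (P.and ?_ ?_)))))
    · exact P.forallFin fun i => P.lt (F.var _) (F.var _)
    · exact P.forallFin fun i => P.lt (F.var _) (F.var _)
    · exact P.forallFin fun i => P.eq (F.add (F.var _) (F.cmul _ (F.var _)))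
        (F.add (F.var _) (F.cmul _ (F.var _)))
    · refine P.existsFin fun i => P.existsLt _ fun c _ => P.or (P.and ?_ ?_) (P.and ?_ ?_)
      · exact P.eqConst _ (F.var _)
      · exact (hlow i c).P (F.var _) (fun j => F.var _)
      · exact P.eq (F.add (F.add (F.var _) (F.const _)) (F.const _)) (F.var _)
      · exact (hhigh i c).P (F.var _) (fun j => F.var _)
  · intro w
    obtain ⟨i1, hi1⟩ : ∃ i, w1 i ≠ w2 i := Function.ne_iff.1 hne
    constructor
    · rintro ⟨n, hn, h1, h2⟩
      rw [hn]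
      refine ⟨⟨n, rfl⟩, h1, ?_⟩
      -- maximal shift
      set Q : ℕ → Prop := fun t => ∃ z' : α → ℕ, (∀ i, z' i < K ^ n) ∧
        (∀ i, w (some i) + (w1 i * N) * t = z' i + (w2 i * N) * t) with hQ
      have hQ0 : Q 0 := ⟨fun i => w (some i), h1, fun i => by simp⟩
      have hQbig : ¬ Q (K ^ n) := by
        rintro ⟨z', hz1, hz2⟩
        have a1 := hz1 i1
        have a2 := hz2 i1
        have a3 : w (some i1) < K ^ n := h1 i1
        rcases lt_or_gt_of_ne hi1 with h | h
        · have f : (w1 i1 * N + 1) * K ^ n ≤ (w2 i1 * N) * K ^ n := by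
            apply Nat.mul_le_mul_right
            calc w1 i1 * N + 1 ≤ w1 i1 * N + N := by omega
              _ = (w1 i1 + 1) * N := by ring
              _ ≤ w2 i1 * N := Nat.mul_le_mul_right _ h
          rw [Nat.add_mul, Nat.one_mul] at f
          omega
        · have f : (w2 i1 * N + 1) * K ^ n ≤ (w1 i1 * N) * K ^ n := by
            apply Nat.mul_le_mul_right
            calc w2 i1 * N + 1 ≤ w2 i1 * N + N := by omega
              _ = (w2 i1 + 1) * N := by ring
              _ ≤ w1 i1 * N := Nat.mul_le_mul_right _ h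
          rw [Nat.add_mul, Nat.one_mul] at f
          omega
      have hex : ∃ t, ¬ Q t := ⟨_, hQbig⟩
      set T := Nat.find hex with hT
      have hT1 : ¬ Q T := Nat.find_spec hex
      have hT0 : T ≠ 0 := by
        intro h; rw [h] at hT1; exact hT1 hQ0
      have hT2 : Q (T - 1) := by
        by_contra h
        have := Nat.find_min' hex h
        omega
      obtain ⟨z', hz1, hz2⟩ := hT2
      refine ⟨T - 1, z', hz1, hz2, ?_⟩
      have hz'G : z' ∈ G n := by
        have := perAt_mul (hper n) (T - 1) z' (fun i => w (some i)) hz1 h1 (fun i => by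
          have e1 : w1 i * (N * (T - 1)) = w1 i * N * (T - 1) := by ring
          have e2 : w2 i * (N * (T - 1)) = w2 i * N * (T - 1) := by ring
          rw [e1, e2]
          exact hz2 i)
        exact this.2 h2
      -- boundary
      have hbd : ∃ i, z' i + w1 i * N < w2 i * N ∨ K ^ n ≤ z' i + w1 i * N - w2 i * N := by
        by_contra hcon
        push Not at hcon
        apply hT1
        refine ⟨fun i => z' i + w1 i * N - w2 i * N, fun i => (hcon i).2, fun i => ?_⟩
        have b1 := (hcon i).1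
        have b2 := hz2 i
        obtain ⟨t, ht⟩ : ∃ t, T = t + 1 := ⟨T - 1, by omega⟩
        rw [ht]
        rw [ht, Nat.add_sub_cancel] at b2
        have e1 : w1 i * N * (t + 1) = w1 i * N * t + w1 i * N := by ring
        have e2 : w2 i * N * (t + 1) = w2 i * N * t + w2 i * N := by ring
        show w (some i) + w1 i * N * (t + 1) =
          (z' i + w1 i * N - w2 i * N) + w2 i * N * (t + 1)
        rw [e1, e2]
        omega
      obtain ⟨i, hi⟩ := hbd
      have hmem : mem K G (K ^ n) z' := (mem_pow hK).2 ⟨hz1, hz'G⟩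
      have hw1K : w1 i * N < N * K := by
        have := hw1 i
        rw [pow_one] at this
        rw [Nat.mul_comm]; exact Nat.mul_lt_mul_of_pos_left this hN
      have hw2K : w2 i * N < N * K := by
        have := hw2 i
        rw [pow_one] at this
        rw [Nat.mul_comm]; exact Nat.mul_lt_mul_of_pos_left this hN
      rcases hi with hi | hi
      · refine ⟨i, z' i, by omega, Or.inl ⟨rfl, ?_⟩⟩
        rw [mem_low hK, ext_restrict]
        exact hmem
      · have := hz1 i
        refine ⟨i, K ^ n - 1 - z' i, by omega, Or.inr ⟨by omega, ?_⟩⟩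
        rw [mem_high hK]
        refine ⟨z' i, by omega, ?_⟩
        rw [ext_restrict]
        exact hmem
    · rintro ⟨⟨n, hn⟩, h1, t, z', hz1, hz2, i, c, hc, h⟩
      rw [hn] at h1 hz1 h
      have hmem : mem K G (K ^ n) z' := by
        rcases h with ⟨h3, h4⟩ | ⟨h3, h4⟩
        · rw [mem_low hK, ← h3, ext_restrict] at h4
          exact h4
        · rw [mem_high hK] at h4
          obtain ⟨x, hx1, hx2⟩ := h4
          have : x = z' i := by omega
          rw [this, ext_restrict] at hx2
          exact hx2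
      rw [mem_pow hK] at hmem
      refine ⟨n, hn, h1, ?_⟩
      have := perAt_mul (hper n) t z' (fun i => w (some i)) hz1 h1 (fun i => by
        have e1 : w1 i * (N * t) = w1 i * N * t := by ring
        have e2 : w2 i * (N * t) = w2 i * N * t := by ring
        rw [e1, e2]
        exact hz2 i)
      exact this.1 hmem.2

end Pool.Agent.Helper98.AP
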