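import Mathlib

/-! Thin automatic families of numbers are close to rational multiples of `K^n`. -/

namespace Pool.Agent.Helper98.AP

open Set

/-- residual of a one-dimensional family -/
def resN (K e b : ℕ) (L : ℕ → Set ℕ) : ℕ → Set ℕ :=
  fun n => {x | x < K ^ n ∧ b * K ^ n + x ∈ L (n + e)}

theorem mem_resN {K e b : ℕ} {L : ℕ → Set ℕ} {n x : ℕ} :
    x ∈ resN K e b L n ↔ x < K ^ n ∧ b * K ^ n + x ∈ L (n + e) := Iff.rfl

theorem encard_union_le {T : ℕ → Set ℤ} (C : ℕ) (hT : ∀ j, (T j).encard ≤ C)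
    (hmono : Monotone T) : (⋃ j, T j).encard ≤ C := by
  by_contra hcon
  push Not at hcon
  have h1 : ((C + 1 : ℕ) : ℕ∞) ≤ (⋃ j, T j).encard := by
    have := Order.add_one_le_of_lt hcon
    push_cast
    exact this
  obtain ⟨t, ht, htc⟩ := Set.exists_subset_encard_eq h1
  have hfin : t.Finite := by
    apply Set.finite_of_encard_eq_coe htc
  have : ∃ J, t ⊆ T J := by
    have hdir : Directed (· ⊆ ·) T := hmono.directed_le
    have := DirectedOn.exists_mem_subset_of_finset_subset_biUnion (α := ℤ) (ι := ℕ) (f := T)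
      (c := Set.univ) ⟨0, trivial⟩ (by
        intro x _ y _
        obtain ⟨z, hz⟩ := hdir x y
        exact ⟨z, trivial, hz⟩) (s := hfin.toFinset) (by
        intro x hx
        have hx' := ht (by simpa using hx)
        simpa using hx')
    obtain ⟨J, _, hJ⟩ := this
    exact ⟨J, fun x hx => hJ (by simpa using hx)⟩
  obtain ⟨J, hJ⟩ := this
  have h2 := Set.encard_le_encard hJ
  rw [htc] at h2
  have h3 := h2.trans (hT J)
  have h4 : C + 1 ≤ C := by exact_mod_cast h3
  omega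

theorem loop_bound {K : ℕ} (hK : 2 ≤ K) {L : ℕ → Set ℕ} {C : ℕ}
    (hthin : ∀ n, (L n).encard ≤ C) {l ω : ℕ} (hl : 1 ≤ l)
    (hloop : resN K l ω L = L) :
    ∃ B : ℕ, ∀ n, ∀ y ∈ L n, |((K : ℤ) ^ l - 1) * y - ω * (K : ℤ) ^ n| ≤ B := by
  have step : ∀ n, ∀ y ∈ L n, ω * K ^ n + y ∈ L (n + l) := by
    intro n y hy
    rw [← hloop] at hy
    exact hy.2
  -- deviations
  have key : ∀ r : ℕ, ∃ B : ℕ, ∀ j, ∀ y ∈ L (r + j * l),
      |((K : ℤ) ^ l - 1) * y - ω * (K : ℤ) ^ (r + j * l)| ≤ B := by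
    intro r
    set T : ℕ → Set ℤ := fun j => (fun y : ℕ => ((K : ℤ) ^ l - 1) * y - ω * (K : ℤ) ^ (r + j * l)) ''
      L (r + j * l) with hTdef
    have hT : ∀ j, (T j).encard ≤ C := fun j => (Set.encard_image_le _ _).trans (hthin _)
    have hmono : Monotone T := by
      apply monotone_nat_of_le_succ
      rintro j _ ⟨y, hy, rfl⟩
      refine ⟨ω * K ^ (r + j * l) + y, ?_, ?_⟩
      · have := step _ _ hy
        have e : r + (j + 1) * l = r + j * l + l := by ring
        rw [e]; exact this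
      · have e : r + (j + 1) * l = r + j * l + l := by ring
        simp only [e, pow_add]
        push_cast
        ring
    have hfin : (⋃ j, T j).Finite := by
      apply Set.finite_of_encard_le_coe (encard_union_le C hT hmono)
    obtain ⟨B, hB⟩ := (hfin.image (fun z : ℤ => z.natAbs)).bddAbove
    refine ⟨B, fun j y hy => ?_⟩
    have hm : ((K : ℤ) ^ l - 1) * y - ω * (K : ℤ) ^ (r + j * l) ∈ ⋃ j, T j :=
      Set.mem_iUnion.2 ⟨j, y, hy, rfl⟩
    have := hB ⟨_, hm, rfl⟩
    simp only at this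
    rw [Int.abs_eq_natAbs]
    exact_mod_cast this
  choose B hB using key
  refine ⟨∑ r ∈ Finset.range l, B r, fun n y hy => ?_⟩
  have hn : n % l + n / l * l = n := by rw [Nat.mul_comm]; exact Nat.mod_add_div n l
  have h1 := hB (n % l) (n / l) y (by rw [hn]; exact hy)
  rw [hn] at h1
  refine h1.trans ?_
  have : B (n % l) ≤ ∑ r ∈ Finset.range l, B r :=
    Finset.single_le_sum (f := B) (fun _ _ => Nat.zero_le _)
      (Finset.mem_range.2 (Nat.mod_lt _ hl))
  exact_mod_cast this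

theorem thin_main {K : ℕ} (hK : 2 ≤ K) {𝓛 : Set (ℕ → Set ℕ)} (hfin : 𝓛.Finite) {C : ℕ}
    (hbd : ∀ L ∈ 𝓛, ∀ n, ∀ x ∈ L n, x < K ^ n)
    (hcl : ∀ L ∈ 𝓛, ∀ e b, b < K ^ e → resN K e b L ∈ 𝓛)
    (hthin : ∀ L ∈ 𝓛, ∀ n, (L n).encard ≤ C) :
    ∃ s B : ℕ, 1 ≤ s ∧ ∀ L ∈ 𝓛, ∀ n, ∀ x ∈ L n, ∃ c : ℕ,
      |(s : ℤ) * x - c * (K : ℤ) ^ n| ≤ B := by
  classical
  have hK0 : ∀ n, 0 < K ^ n := fun n => by positivity
  -- uniform loop bound
  set M := hfin.toFinset.card with hM
  have hloopB : ∀ (L : ℕ → Set ℕ) (l ω : ℕ), ∃ B : ℕ, L ∈ 𝓛 → 1 ≤ l → resN K l ω L = L →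
      ∀ n, ∀ y ∈ L n, |((K : ℤ) ^ l - 1) * y - ω * (K : ℤ) ^ n| ≤ B := by
    intro L l ω
    by_cases h : L ∈ 𝓛 ∧ 1 ≤ l ∧ resN K l ω L = L
    · obtain ⟨B, hB⟩ := loop_bound hK (hthin L h.1) h.2.1 h.2.2
      exact ⟨B, fun _ _ _ => hB⟩
    · exact ⟨0, fun h1 h2 h3 => absurd ⟨h1, h2, h3⟩ h⟩
  choose Bf hBf using hloopB
  set B0 : ℕ := ∑ L ∈ hfin.toFinset, ∑ l ∈ Finset.range (M + 1), ∑ ω ∈ Finset.range (K ^ M),
    Bf L l ω with hB0
  have hB0le : ∀ L ∈ 𝓛, ∀ l ≤ M, ∀ ω < K ^ l, Bf L l ω ≤ B0 := by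
    intro L hL l hl ω hω
    have hω' : ω < K ^ M := lt_of_lt_of_le hω (Nat.pow_le_pow_right (by omega) hl)
    calc Bf L l ω ≤ ∑ ω ∈ Finset.range (K ^ M), Bf L l ω :=
          Finset.single_le_sum (f := fun ω => Bf L l ω) (fun _ _ => Nat.zero_le _)
            (Finset.mem_range.2 hω')
      _ ≤ ∑ l ∈ Finset.range (M + 1), ∑ ω ∈ Finset.range (K ^ M), Bf L l ω :=
          Finset.single_le_sum (f := fun l => ∑ ω ∈ Finset.range (K ^ M), Bf L l ω)
            (fun _ _ => Nat.zero_le _) (Finset.mem_range.2 (by omega))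
      _ ≤ B0 :=
          Finset.single_le_sum
            (f := fun L => ∑ l ∈ Finset.range (M + 1), ∑ ω ∈ Finset.range (K ^ M), Bf L l ω)
            (fun _ _ => Nat.zero_le _) (by simpa using hL)
  -- the multiplier
  set s0 : ℕ := ∏ l ∈ Finset.range M, (K ^ (l + 1) - 1) with hs0
  have hs0pos : 0 < s0 := by
    apply Finset.prod_pos
    intro l _
    have : K ^ 1 ≤ K ^ (l + 1) := Nat.pow_le_pow_right (by omega) (by omega)
    have : 2 ≤ K ^ (l + 1) := by rw [pow_one] at this; omega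
    omega
  set s : ℕ := K ^ M * s0 with hs
  have hspos : 0 < s := Nat.mul_pos (hK0 M) hs0pos
  refine ⟨s, s * B0 + s * K ^ M, hspos, ?_⟩
  intro L hL n x hx
  by_cases hnM : n < M
  · refine ⟨0, ?_⟩
    have hxn := hbd L hL n x hx
    have hxM : x < K ^ M := lt_of_lt_of_le hxn (Nat.pow_le_pow_right (by omega) hnM.le)
    have : s * x ≤ s * K ^ M := Nat.mul_le_mul_left _ hxM.le
    have h0 : (0 : ℤ) ≤ (s : ℤ) * x := by positivity
    simp only [Nat.cast_zero, zero_mul, sub_zero]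
    rw [abs_of_nonneg h0]
    have h2 : (s : ℤ) * x ≤ s * K ^ M := by exact_mod_cast this
    have h3 : (0 : ℤ) ≤ (s : ℤ) * B0 := by positivity
    push_cast
    linarith
  · push Not at hnM
    -- pigeonhole
    have hLi : ∀ i, i ≤ n → resN K i (x / K ^ (n - i)) L ∈ 𝓛 := by
      intro i hi
      apply hcl L hL
      rw [Nat.div_lt_iff_lt_mul (hK0 _), ← pow_add, Nat.add_sub_cancel' hi]
      exact hbd L hL n x hx
    obtain ⟨i, hi, i', hi', hne, heq⟩ : ∃ i ∈ Finset.range (M + 1), ∃ i' ∈ Finset.range (M + 1),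
        i ≠ i' ∧ resN K i (x / K ^ (n - i)) L = resN K i' (x / K ^ (n - i')) L := by
      apply Finset.exists_ne_map_eq_of_card_lt_of_maps_to (t := hfin.toFinset)
      · rw [Finset.card_range]; omega
      · intro i hi
        have hi' : i ≤ n := by
          have := Finset.mem_range.1 (Finset.mem_coe.1 hi); omega
        simpa using hLi i hi'
    wlog hlt : i < i' generalizing i i'
    · exact this i' hi' i hi hne.symm heq.symm (by omega)
    rw [Finset.mem_range] at hi hi'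
    set l := i' - i with hl
    set a := x / K ^ (n - i) with ha
    set y := x % K ^ (n - i) with hy
    set ω := x / K ^ (n - i') % K ^ l with hω
    have hi'n : i' ≤ n := by omega
    have hnl : n - i = (n - i') + l := by omega
    have ha' : x / K ^ (n - i') = a * K ^ l + ω := by
      have h1 : a = x / K ^ (n - i') / K ^ l := by
        rw [ha, Nat.div_div_eq_div_mul, ← pow_add, hnl]
      rw [h1, hω, Nat.mul_comm, Nat.div_add_mod]
    have hωlt : ω < K ^ l := Nat.mod_lt _ (hK0 l)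
    set G := resN K i a L with hG
    have hGmem : G ∈ 𝓛 := hLi i (by omega)
    have hGloop : resN K l ω G = G := by
      have heq2 : G = resN K i' (x / K ^ (n - i')) L := heq
      funext N
      ext z
      conv_rhs => rw [heq2]
      rw [mem_resN, hG, mem_resN, mem_resN, ha']
      constructor
      · rintro ⟨h1, h2, h3⟩
        refine ⟨h1, ?_⟩
        have e1 : N + l + i = N + i' := by omega
        have e2 : (a * K ^ l + ω) * K ^ N + z = a * K ^ (N + l) + (ω * K ^ N + z) := by ring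
        rw [← e1, e2]; exact h3
      · rintro ⟨h1, h2⟩
        refine ⟨h1, ?_, ?_⟩
        · calc ω * K ^ N + z < ω * K ^ N + K ^ N := by omega
            _ = (ω + 1) * K ^ N := by ring
            _ ≤ K ^ l * K ^ N := Nat.mul_le_mul_right _ hωlt
            _ = K ^ (N + l) := by rw [← pow_add, Nat.add_comm]
        · have e1 : N + l + i = N + i' := by omega
          have e2 : (a * K ^ l + ω) * K ^ N + z = a * K ^ (N + l) + (ω * K ^ N + z) := by ring
          rw [e1, ← e2]; exact h2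
    have hxeq : x = a * K ^ (n - i) + y := by rw [Nat.mul_comm]; exact (Nat.div_add_mod _ _).symm
    have hyG : y ∈ G (n - i) := by
      rw [hG, mem_resN]
      refine ⟨Nat.mod_lt _ (hK0 _), ?_⟩
      rw [← hxeq, Nat.sub_add_cancel (by omega)]
      exact hx
    have hbound := hBf G l ω hGmem (by omega) hGloop (n - i) y hyG
    have hBle := hB0le G hGmem l (by omega) ω hωlt
    -- s is a multiple of K^i (K^l - 1)
    have hdvd : K ^ i * (K ^ l - 1) ∣ s := by
      apply Nat.mul_dvd_mul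
      · exact pow_dvd_pow _ (by omega)
      · have : (K ^ ((l - 1) + 1) - 1) ∣ s0 := by
          rw [hs0]
          exact Finset.dvd_prod_of_mem (fun l => K ^ (l + 1) - 1) (Finset.mem_range.2 (by omega))
        rwa [Nat.sub_add_cancel (by omega)] at this
    obtain ⟨s', hs'⟩ := hdvd
    have hKl : 1 ≤ K ^ l := hK0 l
    refine ⟨s' * ((K ^ l - 1) * a + ω), ?_⟩
    have hKn : (K : ℤ) ^ n = (K : ℤ) ^ i * (K : ℤ) ^ (n - i) := by
      rw [← pow_add, Nat.add_sub_cancel' (by omega)]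
    have hsZ : (s : ℤ) = (K : ℤ) ^ i * ((K : ℤ) ^ l - 1) * s' := by
      have : ((K ^ l - 1 : ℕ) : ℤ) = (K : ℤ) ^ l - 1 := by
        rw [Nat.cast_sub hKl]; push_cast; ring
      rw [hs', Nat.cast_mul, Nat.cast_mul, this]
      push_cast; ring
    have hcalc : (s : ℤ) * x - ((s' * ((K ^ l - 1) * a + ω) : ℕ) : ℤ) * (K : ℤ) ^ n =
        (K : ℤ) ^ i * s' * (((K : ℤ) ^ l - 1) * y - ω * (K : ℤ) ^ (n - i)) := by
      have hx' : (x : ℤ) = a * (K : ℤ) ^ (n - i) + y := by
        conv_lhs => rw [hxeq]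
        push_cast; ring
      rw [hsZ, hKn, hx', Nat.cast_mul, Nat.cast_add, Nat.cast_mul, Nat.cast_sub hKl]
      push_cast
      ring
    rw [hcalc, abs_mul]
    have habs : |(K : ℤ) ^ i * s'| = (K : ℤ) ^ i * s' := abs_of_nonneg (by positivity)
    rw [habs]
    have hle1 : (K : ℤ) ^ i * s' ≤ s := by
      rw [hsZ]
      have h1 : (1 : ℤ) ≤ (K : ℤ) ^ l - 1 := by
        have : 2 ≤ K ^ l := by
          calc 2 ≤ K := hK
            _ = K ^ 1 := (pow_one K).symm
            _ ≤ K ^ l := Nat.pow_le_pow_right (by omega) (by omega)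
        have : (2 : ℤ) ≤ (K : ℤ) ^ l := by exact_mod_cast this
        linarith
      have h2 : (0 : ℤ) ≤ (K : ℤ) ^ i * s' := by positivity
      nlinarith
    have hbound' : |((K : ℤ) ^ l - 1) * y - ω * (K : ℤ) ^ (n - i)| ≤ B0 :=
      hbound.trans (by exact_mod_cast hBle)
    calc (K : ℤ) ^ i * s' * |((K : ℤ) ^ l - 1) * y - ω * (K : ℤ) ^ (n - i)|
        ≤ s * B0 := by
          apply mul_le_mul hle1 hbound' (abs_nonneg _) (by positivity)
      _ ≤ ((s * B0 + s * K ^ M : ℕ) : ℤ) := by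
          push_cast
          have : (0 : ℤ) ≤ (s : ℤ) * (K : ℤ) ^ M := by positivity
          linarith

/-- a multiplier costs only finitely many powers -/
theorem mult_cost (K : ℕ) (hK : 2 ≤ K) : ∀ s : ℕ, 1 ≤ s → ∃ e : ℕ, ∀ j z : ℕ,
    K ^ (e + j) ∣ s * z → K ^ j ∣ z := by
  intro s
  induction s using Nat.strong_induction_on with
  | _ s ih =>
    intro hs
    by_cases hg : Nat.Coprime s K
    · refine ⟨0, fun j z h => ?_⟩
      rw [Nat.zero_add] at h
      have : Nat.Coprime (K ^ j) s := (Nat.Coprime.pow_left j hg.symm)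
      exact this.dvd_of_dvd_mul_left h
    · set g := Nat.gcd s K with hgdef
      have hgpos : 0 < g := Nat.gcd_pos_of_pos_left _ hs
      have hg2 : 2 ≤ g := by
        have : g ≠ 1 := hg
        omega
      obtain ⟨s', hs'⟩ := Nat.gcd_dvd_left s K
      obtain ⟨K1, hK1⟩ := Nat.gcd_dvd_right s K
      rw [← hgdef] at hs' hK1
      have hs'pos : 1 ≤ s' := by
        rcases Nat.eq_zero_or_pos s' with h | h
        · rw [h] at hs'; omega
        · exact h
      have hlt : s' < s := by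
        rw [hs']; nlinarith
      obtain ⟨e, he⟩ := ih s' hlt hs'pos
      refine ⟨e + 1, fun j z h => he j z ?_⟩
      have h1 : K ^ (e + 1 + j) = g * (K1 * K ^ (e + j)) := by
        have : K ^ (e + 1 + j) = K * K ^ (e + j) := by ring
        rw [this, ← Nat.mul_assoc, ← hK1]
      rw [h1, hs', Nat.mul_assoc] at h
      have h2 := Nat.dvd_of_mul_dvd_mul_left hgpos h
      exact (Dvd.intro_left _ rfl).trans h2

end Pool.Agent.Helper98.AP
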