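import Pool.Agent.Helper98.APFam
import Pool.Agent.Helper98.APThin

/-! A family with two distinct loops either has a bounded period in the direction of the
difference of the loops, or divisibility by powers of `K` is definable from it. -/

namespace Pool.Agent.Helper98.AP

open Set DefSys

set_option linter.unusedSectionVars false
set_option linter.unusedVariables false

variable {α : Type} [Finite α] {K : ℕ}

/-- `N (w2 - w1)` is a period of the family `G` at level `j` -/
def PerAt (K : ℕ) (G : ℕ → Set (α → ℕ)) (w1 w2 : α → ℕ) (j N : ℕ) : Prop :=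
  ∀ y y' : α → ℕ, (∀ i, y i < K ^ j) → (∀ i, y' i < K ^ j) →
    (∀ i, y' i + w1 i * N = y i + w2 i * N) → (y ∈ G j ↔ y' ∈ G j)

/-- relational version of `PerAt` -/
def perRel (K : ℕ) (G : ℕ → Set (α → ℕ)) (w1 w2 : α → ℕ) (p N : ℕ) : Prop :=
  (∃ n, p = K ^ n) ∧ ∀ y : α → ℕ, ∀ y' : α → ℕ, (∀ i, y i < p) → (∀ i, y' i < p) →
    (∀ i, y' i + w1 i * N = y i + w2 i * N) → (mem K G p y ↔ mem K G p y')

theorem perRel_pow (hK : 2 ≤ K) {G : ℕ → Set (α → ℕ)} {w1 w2 : α → ℕ} {j N : ℕ} :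
    perRel K G w1 w2 (K ^ j) N ↔ PerAt K G w1 w2 j N := by
  constructor
  · rintro ⟨_, h⟩ y y' hy hy' hyy
    have := h y y' hy hy' hyy
    rw [mem_pow hK, mem_pow hK] at this
    tauto
  · intro h
    refine ⟨⟨j, rfl⟩, fun y y' hy hy' hyy => ?_⟩
    rw [mem_pow hK, mem_pow hK]
    have := h y y' hy hy' hyy
    tauto

theorem perRel_P {𝒟 : DefSys} {G : ℕ → Set (α → ℕ)} (hG : FamIn 𝒟 K G) (hpow : PowIn 𝒟 K)
    (w1 w2 : α → ℕ) : 𝒟.P (fun v : Fin 2 → ℕ => perRel K G w1 w2 (v 0) (v 1)) := by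
  refine P.and (hpow.P (F.var _)) (P.allv (P.allv (P.imp ?_ (P.imp ?_ (P.imp ?_ (P.iff ?_ ?_))))))
  · exact P.forallFin fun i => P.lt (F.var _) (F.var _)
  · exact P.forallFin fun i => P.lt (F.var _) (F.var _)
  · exact P.forallFin fun i => P.eq (F.add (F.var _) (F.cmul _ (F.var _)))
      (F.add (F.var _) (F.cmul _ (F.var _)))
  · exact hG.P (F.var _) (fun i => F.var _)
  · exact hG.P (F.var _) (fun i => F.var _)

theorem perAt_mono (hK : 2 ≤ K) {G : ℕ → Set (α → ℕ)} {w1 w2 w : α → ℕ}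
    (hw : ∀ i, w i < K ^ 1) (hres : res K 1 w G = G) {j N : ℕ}
    (h : PerAt K G w1 w2 (j + 1) N) : PerAt K G w1 w2 j N := by
  intro y y' hy hy' hyy
  have key : ∀ z : α → ℕ, (∀ i, z i < K ^ j) → (z ∈ G j ↔
      (fun i => w i * K ^ j + z i) ∈ G (j + 1)) := by
    intro z hz
    conv_lhs => rw [← hres]
    exact ⟨fun h => h.2, fun h => ⟨hz, h⟩⟩
  have hlt : ∀ z : α → ℕ, (∀ i, z i < K ^ j) → ∀ i, w i * K ^ j + z i < K ^ (j + 1) := by
    intro z hz i
    calc w i * K ^ j + z i < w i * K ^ j + K ^ j := by have := hz i; omega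
      _ = (w i + 1) * K ^ j := by ring
      _ ≤ K ^ 1 * K ^ j := Nat.mul_le_mul_right _ (hw i)
      _ = K ^ (j + 1) := by rw [← pow_add, Nat.add_comm]
  rw [key y hy, key y' hy']
  exact h _ _ (hlt y hy) (hlt y' hy') (fun i => by have := hyy i; omega)

theorem perAt_mono' (hK : 2 ≤ K) {G : ℕ → Set (α → ℕ)} {w1 w2 w : α → ℕ}
    (hw : ∀ i, w i < K ^ 1) (hres : res K 1 w G = G) {j j' N : ℕ} (hj : j ≤ j')
    (h : PerAt K G w1 w2 j' N) : PerAt K G w1 w2 j N := by
  induction j', hj using Nat.le_induction with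
  | base => exact h
  | succ n hn ih => exact ih (perAt_mono hK hw hres h)

/-- dichotomy: bounded period or only long periods -/
theorem per_dichotomy (hK : 2 ≤ K) {G : ℕ → Set (α → ℕ)} (hA : Aut K (graph K G))
    {w1 w2 w : α → ℕ} (hw : ∀ i, w i < K ^ 1) (hres : res K 1 w G = G) :
    (∃ N, 1 ≤ N ∧ ∀ j, PerAt K G w1 w2 j N) ∨
    ∃ i0, ∀ j N, 1 ≤ N → N < K ^ j → ¬ PerAt K G w1 w2 (j + i0) N := by
  by_cases hex : ∃ N, 1 ≤ N ∧ ∀ j, PerAt K G w1 w2 j N
  · exact Or.inl hex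
  right
  have hfin : Aut K {v : Fin 2 → ℕ | perRel K G w1 w2 (v 0) (v 1)} :=
    perRel_P (𝒟 := autSys K hK) hA (powIn_autSys hK) w1 w2
  -- pigeonhole
  obtain ⟨i, i', hne, heq⟩ : ∃ i i' : ℕ, i < i' ∧
      resid K {v : Fin 2 → ℕ | perRel K G w1 w2 (v 0) (v 1)} ![K ^ i, 0] =
      resid K {v : Fin 2 → ℕ | perRel K G w1 w2 (v 0) (v 1)} ![K ^ i', 0] := by
    have hf : ¬ Function.Injective (fun i : ℕ =>
        resid K {v : Fin 2 → ℕ | perRel K G w1 w2 (v 0) (v 1)} ![K ^ i, 0]) := by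
      intro hinj
      have : (Set.range (fun i : ℕ =>
        resid K {v : Fin 2 → ℕ | perRel K G w1 w2 (v 0) (v 1)} ![K ^ i, 0])).Finite :=
        hfin.subset (by rintro _ ⟨i, rfl⟩; exact ⟨_, rfl⟩)
      exact Set.infinite_range_of_injective hinj this
    unfold Function.Injective at hf
    push Not at hf
    obtain ⟨a, b, hab, hne⟩ := hf
    rcases lt_or_gt_of_ne hne with h | h
    · exact ⟨a, b, h, hab⟩
    · exact ⟨b, a, h, hab.symm⟩
  refine ⟨i, fun j N hN hNj hper => hex ⟨N, hN, ?_⟩⟩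
  -- transfer
  have transfer : ∀ n, N < K ^ n → PerAt K G w1 w2 (n + i) N → PerAt K G w1 w2 (n + i') N := by
    intro n hn hp
    have h1 : (![0, N] : Fin 2 → ℕ) ∈
        resid K {v : Fin 2 → ℕ | perRel K G w1 w2 (v 0) (v 1)} ![K ^ i, 0] n := by
      refine ⟨?_, ?_⟩
      · intro l
        fin_cases l
        · simp; positivity
        · simpa using hn
      · show perRel K G w1 w2 (K ^ i * K ^ n + 0) (0 * K ^ n + N)
        rw [Nat.add_zero, Nat.zero_mul, Nat.zero_add, ← pow_add, Nat.add_comm i n,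
          perRel_pow hK]
        exact hp
    rw [heq] at h1
    have h2 : perRel K G w1 w2 (K ^ i' * K ^ n + 0) (0 * K ^ n + N) := h1.2
    rw [Nat.add_zero, Nat.zero_mul, Nat.zero_add, ← pow_add, Nat.add_comm i' n,
      perRel_pow hK] at h2
    exact h2
  have all : ∀ r, PerAt K G w1 w2 (j + r + i) N := by
    intro r
    induction r with
    | zero => exact hper
    | succ r ih =>
      have h1 := transfer (j + r) (lt_of_lt_of_le hNj (Nat.pow_le_pow_right (by omega) (by omega))) ih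
      exact perAt_mono' hK hw hres (by omega) h1
  intro j'
  exact perAt_mono' hK hw hres (by omega) (all j')

/-- occurrences of the pattern `G(p)` in `G(p')` along the line through the all-`w1` position -/
def occ (K : ℕ) (G : ℕ → Set (α → ℕ)) (w1 w2 : α → ℕ) (p p' t : ℕ) : Prop :=
  (∃ n, p = K ^ n) ∧ (∃ n, p' = K ^ n) ∧ ∃ u : α → ℕ,
    (∀ i, (K - 1) * u i + ((K - 1) * w1 i) * t + w1 i * p = w1 i * p' + ((K - 1) * w2 i) * t) ∧
    (∀ i, u i + p ≤ p') ∧
    ∀ y : α → ℕ, (∀ i, y i < p) → (mem K G p' (fun i => u i + y i) ↔ mem K G p y)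

theorem occ_P {𝒟 : DefSys} {G : ℕ → Set (α → ℕ)} (hG : FamIn 𝒟 K G) (hpow : PowIn 𝒟 K)
    (w1 w2 : α → ℕ) : 𝒟.P (fun v : Fin 3 → ℕ => occ K G w1 w2 (v 0) (v 1) (v 2)) := by
  refine P.and (hpow.P (F.var _)) (P.and (hpow.P (F.var _)) (P.exv (P.and ?_ (P.and ?_
    (P.allv (P.imp ?_ (P.iff ?_ ?_)))))))
  · refine P.forallFin fun i => P.eq (F.add (F.add ?_ ?_) ?_) (F.add ?_ ?_) <;>
      exact F.cmul _ (F.var _)
  · exact P.forallFin fun i => P.le (F.add (F.var _) (F.var _)) (F.var _)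
  · exact P.forallFin fun i => P.lt (F.var _) (F.var _)
  · exact hG.P (F.var _) (fun i => F.add (F.var _) (F.var _))
  · exact hG.P (F.var _) (fun i => F.var _)

theorem occ_sep (hK : 2 ≤ K) {G : ℕ → Set (α → ℕ)} {w1 w2 : α → ℕ} {j p' t t' : ℕ}
    (h : occ K G w1 w2 (K ^ j) p' t) (h' : occ K G w1 w2 (K ^ j) p' t') (htt : t < t') :
    PerAt K G w1 w2 j (t' - t) := by
  obtain ⟨_, ⟨n, hn⟩, u, hu1, hu2, hu3⟩ := h
  obtain ⟨_, _, u', hu1', hu2', hu3'⟩ := h'
  intro y y' hy hy' hyy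
  have hrel : ∀ i, u' i + w1 i * (t' - t) = u i + w2 i * (t' - t) := by
    intro i
    have h1 := hu1 i
    have h2 := hu1' i
    obtain ⟨N, hN⟩ : ∃ N, t' = t + N := ⟨t' - t, by omega⟩
    have e : t' - t = N := by omega
    rw [e]
    rw [hN] at h2
    have hK1 : 0 < K - 1 := by omega
    apply Nat.eq_of_mul_eq_mul_left hK1
    have h3 : (K - 1) * u' i + (K - 1) * w1 i * (t + N) + w1 i * K ^ j +
        ((K - 1) * w2 i) * t  =
        (K - 1) * u i + ((K - 1) * w1 i) * t + w1 i * K ^ j + (K - 1) * w2 i * (t + N) := by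
      rw [h2, h1]; ring
    nlinarith [h3]
  have e : (fun i => u i + y' i) = fun i => u' i + y i := by
    funext i
    have h1 := hrel i
    have h2 := hyy i
    omega
  have a1 := hu3 y' hy'
  have a2 := hu3' y hy
  rw [e] at a1
  rw [mem_pow hK] at a1 a2
  constructor
  · intro hy3
    exact (a1.1 (a2.2 ⟨hy, hy3⟩)).2
  · intro hy3
    exact (a2.1 (a1.2 ⟨hy', hy3⟩)).2

/-- numbers with `e` digits `0` or `1` in base `K` -/
def Cant (K : ℕ) : ℕ → ℕ → Prop
  | 0, x => x = 0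
  | e + 1, x => ∃ x' ε, ε ≤ 1 ∧ Cant K e x' ∧ x = K * x' + ε

theorem cant_pos (hK : 2 ≤ K) {G : ℕ → Set (α → ℕ)} {w1 w2 : α → ℕ}
    (hw1 : ∀ i, w1 i < K ^ 1) (hw2 : ∀ i, w2 i < K ^ 1)
    (hres1 : res K 1 w1 G = G) (hres2 : res K 1 w2 G = G) :
    ∀ e x, 1 ≤ e → Cant K e x → ∃ u : α → ℕ, (∀ i, u i < K ^ e) ∧ res K e u G = G ∧
      ∀ i, (K - 1) * u i + (K - 1) * w1 i * x + w1 i = w1 i * K ^ e + (K - 1) * w2 i * x := by
  obtain ⟨k, rfl⟩ : ∃ k, K = k + 1 := ⟨K - 1, by omega⟩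
  intro e
  induction e with
  | zero => intro x h; omega
  | succ e ih =>
    rintro x _ ⟨x', ε, hε, hx', rfl⟩
    rcases Nat.eq_zero_or_pos e with he | he
    · subst he
      have hx0 : x' = 0 := hx'
      subst hx0
      rcases Nat.le_one_iff_eq_zero_or_eq_one.1 hε with h | h
      · subst h
        refine ⟨w1, hw1, hres1, fun i => ?_⟩
        simp only [Nat.add_sub_cancel, Nat.zero_add, pow_one]; ring
      · subst h
        refine ⟨w2, hw2, hres2, fun i => ?_⟩
        simp only [Nat.add_sub_cancel, Nat.zero_add, pow_one]; ring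
    · obtain ⟨u, hu1, hu2, hu3⟩ := ih x' he hx'
      have hlt : ∀ w : α → ℕ, (∀ i, w i < (k + 1) ^ 1) →
          ∀ i, u i * (k + 1) + w i < (k + 1) ^ (e + 1) := by
        intro w hw i
        have h1 := hu1 i
        have h2 := hw i
        rw [pow_one] at h2
        calc u i * (k + 1) + w i < u i * (k + 1) + (k + 1) := by omega
          _ = (u i + 1) * (k + 1) := by ring
          _ ≤ (k + 1) ^ e * (k + 1) := Nat.mul_le_mul_right _ h1
          _ = (k + 1) ^ (e + 1) := by ring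
      rcases Nat.le_one_iff_eq_zero_or_eq_one.1 hε with h | h
      · subst h
        refine ⟨fun i => u i * (k + 1) + w1 i, hlt w1 hw1, ?_, ?_⟩
        · have h4 := res_res (K := k + 1) hK hw1 (G := G) (e' := e) (d' := u)
          rw [pow_one] at h4
          rw [← h4, hu2, hres1]
        · intro i
          have h3 := hu3 i
          simp only [Nat.add_sub_cancel] at h3 ⊢
          have h5 := congrArg (fun z => (k + 1) * z) h3
          rw [pow_succ]
          nlinarith [h5]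
      · subst h
        refine ⟨fun i => u i * (k + 1) + w2 i, hlt w2 hw2, ?_, ?_⟩
        · have h4 := res_res (K := k + 1) hK hw2 (G := G) (e' := e) (d' := u)
          rw [pow_one] at h4
          rw [← h4, hu2, hres2]
        · intro i
          have h3 := hu3 i
          simp only [Nat.add_sub_cancel] at h3 ⊢
          have h5 := congrArg (fun z => (k + 1) * z) h3
          rw [pow_succ]
          nlinarith [h5]

theorem occ_cant (hK : 2 ≤ K) {G : ℕ → Set (α → ℕ)} {w1 w2 : α → ℕ}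
    (hw1 : ∀ i, w1 i < K ^ 1) (hw2 : ∀ i, w2 i < K ^ 1)
    (hres1 : res K 1 w1 G = G) (hres2 : res K 1 w2 G = G) {e x j : ℕ} (he : 1 ≤ e)
    (hx : Cant K e x) : occ K G w1 w2 (K ^ j) (K ^ (j + e)) (x * K ^ j) := by
  obtain ⟨u, hu1, hu2, hu3⟩ := cant_pos hK hw1 hw2 hres1 hres2 e x he hx
  refine ⟨⟨j, rfl⟩, ⟨j + e, rfl⟩, fun i => u i * K ^ j, ?_, ?_, ?_⟩
  · intro i
    have h3 := congrArg (fun z => z * K ^ j) (hu3 i)
    rw [pow_add]
    nlinarith [h3]
  · intro i
    calc u i * K ^ j + K ^ j = (u i + 1) * K ^ j := by ring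
      _ ≤ K ^ e * K ^ j := Nat.mul_le_mul_right _ (hu1 i)
      _ = K ^ (j + e) := by rw [← pow_add, Nat.add_comm]
  · intro y hy
    rw [mem_pow hK, mem_pow hK]
    have h1 : y ∈ G j ↔ (fun i => u i * K ^ j + y i) ∈ G (j + e) := by
      conv_lhs => rw [← hu2]
      exact ⟨fun h => h.2, fun h => ⟨hy, h⟩⟩
    constructor
    · rintro ⟨_, h⟩
      exact ⟨hy, h1.2 h⟩
    · rintro ⟨_, h⟩
      refine ⟨?_, h1.1 h⟩
      intro i
      calc u i * K ^ j + y i < u i * K ^ j + K ^ j := by have := hy i; omega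
        _ = (u i + 1) * K ^ j := by ring
        _ ≤ K ^ e * K ^ j := Nat.mul_le_mul_right _ (hu1 i)
        _ = K ^ (j + e) := by rw [← pow_add, Nat.add_comm]

theorem cant_sum (hK : 2 ≤ K) : ∀ e c, c < K ^ e → ∃ x : Fin (K - 1) → ℕ,
    (∀ r, Cant K e (x r)) ∧ ∑ r, x r = c := by
  intro e
  induction e with
  | zero =>
    intro c hc
    refine ⟨fun _ => 0, fun _ => rfl, ?_⟩
    rw [pow_zero] at hc
    simp; omega
  | succ e ih =>
    intro c hc
    have hc' : c / K < K ^ e := by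
      rw [Nat.div_lt_iff_lt_mul (by omega)]
      rw [← pow_succ]; exact hc
    obtain ⟨x, hx1, hx2⟩ := ih (c / K) hc'
    refine ⟨fun r => K * x r + (if (r : ℕ) < c % K then 1 else 0), fun r => ?_, ?_⟩
    · refine ⟨x r, if (r : ℕ) < c % K then 1 else 0, ?_, hx1 r, rfl⟩
      split_ifs <;> omega
    · rw [Finset.sum_add_distrib, ← Finset.mul_sum, hx2]
      have hmod : c % K < K := Nat.mod_lt _ (by omega)
      have hcount : ∑ r : Fin (K - 1), (if (r : ℕ) < c % K then 1 else 0) = c % K := by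
        rw [Finset.sum_boole]
        have h2 : (Finset.univ.filter (fun r : Fin (K - 1) => (r : ℕ) < c % K)).card = c % K := by
          have : (Finset.univ.filter (fun r : Fin (K - 1) => (r : ℕ) < c % K)).image
              (fun r : Fin (K - 1) => (r : ℕ)) = Finset.range (c % K) := by
            ext a
            simp only [Finset.mem_image, Finset.mem_filter, Finset.mem_univ, true_and,
              Finset.mem_range]
            constructor
            · rintro ⟨r, hr, rfl⟩; exact hr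
            · intro ha; exact ⟨⟨a, by omega⟩, ha, rfl⟩
          rw [← Finset.card_image_of_injective _ Fin.val_injective, this, Finset.card_range]
        simpa using h2
      rw [hcount]
      exact Nat.div_add_mod c K

end Pool.Agent.Helper98.AP
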