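import Pool.Agent.Helper98.APVal

/-! From separated occurrences to the definability of divisibility by powers of `K`. -/

namespace Pool.Agent.Helper98.AP

open Set DefSys

set_option linter.unusedSectionVars false
set_option linter.unusedVariables false

variable {α : Type} [Finite α] {K : ℕ}

theorem occ_near (hK : 2 ≤ K) {G : ℕ → Set (α → ℕ)} (hA : Aut K (graph K G))
    {w1 w2 : α → ℕ} (hne : w1 ≠ w2) {i0 : ℕ}
    (hB : ∀ j N, 1 ≤ N → N < K ^ j → ¬ PerAt K G w1 w2 (j + i0) N) :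
    ∃ s B : ℕ, 1 ≤ s ∧ ∀ j p' t, occ K G w1 w2 (K ^ j) p' t →
      ∃ c : ℕ, |(s : ℤ) * t - c * (K : ℤ) ^ j| ≤ B := by
  have hK0 : ∀ n, 0 < K ^ n := fun n => by positivity
  have hAocc : Aut K {v : Fin 3 → ℕ | occ K G w1 w2 (v 0) (v 1) (v 2)} :=
    occ_P (𝒟 := autSys K hK) hA (powIn_autSys hK) w1 w2
  set Λ : (Fin 3 → ℕ) → ℕ → Set ℕ := fun A n =>
    {x | x < K ^ n ∧ occ K G w1 w2 (A 0 * K ^ n) (A 1 * K ^ n) (A 2 * K ^ n + x)} with hΛ
  have hmemΛ : ∀ A n x, x ∈ Λ A n ↔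
      x < K ^ n ∧ occ K G w1 w2 (A 0 * K ^ n) (A 1 * K ^ n) (A 2 * K ^ n + x) :=
    fun A n x => Iff.rfl
  have hfin : (Set.range Λ).Finite := by
    refine (Set.Finite.image (fun R : ℕ → Set (Fin 3 → ℕ) => fun n => {x : ℕ | ![0, 0, x] ∈ R n})
      hAocc).subset ?_
    rintro _ ⟨A, rfl⟩
    refine ⟨_, ⟨A, rfl⟩, ?_⟩
    funext n
    ext x
    simp only [resid, mem_ofPred_eq, hmemΛ]
    constructor
    · rintro ⟨h1, h2⟩
      refine ⟨by simpa using h1 2, ?_⟩
      simpa using h2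
    · rintro ⟨h1, h2⟩
      refine ⟨?_, by simpa using h2⟩
      intro i
      fin_cases i
      · simp; positivity
      · simp; positivity
      · simpa using h1
  have hcl : ∀ L ∈ Set.range Λ, ∀ e b, b < K ^ e → resN K e b L ∈ Set.range Λ := by
    rintro _ ⟨A, rfl⟩ e b hb
    refine ⟨![A 0 * K ^ e, A 1 * K ^ e, A 2 * K ^ e + b], ?_⟩
    funext n
    ext x
    rw [mem_resN, hmemΛ, hmemΛ]
    have e0 : (![A 0 * K ^ e, A 1 * K ^ e, A 2 * K ^ e + b] : Fin 3 → ℕ) 0 * K ^ n =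
        A 0 * K ^ (n + e) := by simp; ring
    have e1 : (![A 0 * K ^ e, A 1 * K ^ e, A 2 * K ^ e + b] : Fin 3 → ℕ) 1 * K ^ n =
        A 1 * K ^ (n + e) := by simp; ring
    have e2 : (![A 0 * K ^ e, A 1 * K ^ e, A 2 * K ^ e + b] : Fin 3 → ℕ) 2 * K ^ n + x =
        A 2 * K ^ (n + e) + (b * K ^ n + x) := by simp; ring
    rw [e0, e1, e2]
    constructor
    · rintro ⟨h1, h2⟩
      refine ⟨h1, ?_, h2⟩
      calc b * K ^ n + x < b * K ^ n + K ^ n := by omega
        _ = (b + 1) * K ^ n := by ring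
        _ ≤ K ^ e * K ^ n := Nat.mul_le_mul_right _ hb
        _ = K ^ (n + e) := by rw [← pow_add, Nat.add_comm]
    · rintro ⟨h1, _, h2⟩
      exact ⟨h1, h2⟩
  have hthin : ∀ L ∈ Set.range Λ, ∀ n, (L n).encard ≤ ((K ^ i0 : ℕ) : ℕ∞) := by
    rintro _ ⟨A, rfl⟩ n
    have hcard : ((Finset.range (K ^ i0) : Finset ℕ) : Set ℕ).encard = ((K ^ i0 : ℕ) : ℕ∞) := by
      rw [Set.encard_coe_eq_coe_finsetCard, Finset.card_range]
    rw [← hcard]
    refine Set.encard_le_encard_of_injOn (f := fun x => x / K ^ (n - i0)) ?_ ?_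
    · intro x hx
      simp only [Finset.coe_range, Set.mem_Iio]
      rw [Nat.div_lt_iff_lt_mul (hK0 _), ← pow_add]
      exact lt_of_lt_of_le hx.1 (Nat.pow_le_pow_right (by omega) (by omega))
    · -- injectivity
      have key : ∀ x x', x ∈ Λ A n → x' ∈ Λ A n → x < x' →
          x / K ^ (n - i0) ≠ x' / K ^ (n - i0) := by
        intro x x' hx hx' hlt heq
        rw [hmemΛ] at hx hx'
        obtain ⟨j, hj⟩ := hx.2.1
        have hA0 : A 0 ≠ 0 := by
          intro h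
          rw [h, Nat.zero_mul] at hj
          exact absurd hj (hK0 j).ne
        have hnj : n ≤ j := by
          have : K ^ n ≤ K ^ j := by
            rw [← hj]; exact Nat.le_mul_of_pos_left _ (Nat.pos_of_ne_zero hA0)
          exact (Nat.pow_le_pow_iff_right (by omega)).1 this
        have hper := occ_sep hK (by rw [← hj]; exact hx.2) (by rw [← hj]; exact hx'.2)
          (by omega : A 2 * K ^ n + x < A 2 * K ^ n + x')
        have hdiff : A 2 * K ^ n + x' - (A 2 * K ^ n + x) = x' - x := by omega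
        rw [hdiff] at hper
        have hlt2 : x' - x < K ^ (n - i0) := by
          have h1 := Nat.div_add_mod x (K ^ (n - i0))
          have h2 := Nat.div_add_mod x' (K ^ (n - i0))
          have h3 := Nat.mod_lt x' (hK0 (n - i0))
          rw [heq] at h1
          generalize x % K ^ (n - i0) = r1 at h1
          generalize x' % K ^ (n - i0) = r2 at h2 h3
          omega
        rcases le_or_gt i0 n with h | h
        · have e1 : j = (j - i0) + i0 := by omega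
          rw [e1] at hper
          exact hB (j - i0) (x' - x) (by omega)
            (lt_of_lt_of_le hlt2 (Nat.pow_le_pow_right (by omega) (by omega))) hper
        · have : n - i0 = 0 := by omega
          rw [this, pow_zero] at hlt2
          omega
      intro x hx x' hx' heq
      by_contra hne'
      rcases lt_or_gt_of_ne hne' with h | h
      · exact key x x' hx hx' h heq
      · exact key x' x hx' hx h heq.symm
  obtain ⟨s, B, hs, hmain⟩ := thin_main hK hfin (by rintro _ ⟨A, rfl⟩ n x hx; exact hx.1) hcl hthin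
  refine ⟨s, B, hs, ?_⟩
  intro j p' t hocc
  obtain ⟨i1, -⟩ : ∃ i, w1 i ≠ w2 i := Function.ne_iff.1 hne
  obtain ⟨m, hm⟩ := hocc.2.1
  have hjm : j ≤ m := by
    obtain ⟨_, _, u, _, hu, _⟩ := hocc
    have := hu i1
    rw [hm] at this
    exact (Nat.pow_le_pow_iff_right (by omega : 1 < K)).1 (by omega)
  have hx : t % K ^ j ∈ Λ ![1, K ^ (m - j), t / K ^ j] j := by
    rw [hmemΛ]
    refine ⟨Nat.mod_lt _ (hK0 j), ?_⟩
    have e0 : (![1, K ^ (m - j), t / K ^ j] : Fin 3 → ℕ) 0 * K ^ j = K ^ j := by simp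
    have e1 : (![1, K ^ (m - j), t / K ^ j] : Fin 3 → ℕ) 1 * K ^ j = p' := by
      simp only [Matrix.cons_val_one, Matrix.cons_val_zero]
      rw [← pow_add, Nat.sub_add_cancel hjm, hm]
    have e2 : (![1, K ^ (m - j), t / K ^ j] : Fin 3 → ℕ) 2 * K ^ j + t % K ^ j = t := by
      simp only [Matrix.cons_val]
      rw [Nat.mul_comm]; exact Nat.div_add_mod _ _
    rw [e0, e1, e2]; exact hocc
  obtain ⟨c, hc⟩ := hmain _ ⟨_, rfl⟩ j _ hx
  refine ⟨s * (t / K ^ j) + c, ?_⟩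
  have ht : (t : ℤ) = (t / K ^ j : ℕ) * (K : ℤ) ^ j + (t % K ^ j : ℕ) := by
    have := Nat.div_add_mod t (K ^ j)
    rw [Nat.mul_comm] at this
    exact_mod_cast this.symm
  have e : (s : ℤ) * t - ((s * (t / K ^ j) + c : ℕ) : ℤ) * (K : ℤ) ^ j =
      s * (t % K ^ j : ℕ) - c * (K : ℤ) ^ j := by
    rw [Nat.cast_add, Nat.cast_mul]
    linear_combination (s : ℤ) * ht
  rw [e]; exact hc

/-- sums of `K-1` scaled occurrences -/
def sumrel (K : ℕ) (G : ℕ → Set (α → ℕ)) (w1 w2 : α → ℕ) (s p p' x : ℕ) : Prop :=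
  ∃ t : Fin (K - 1) → ℕ, (∀ r, occ K G w1 w2 p p' (t r)) ∧ x = ∑ r, s * t r

theorem sumrel_P {𝒟 : DefSys} {G : ℕ → Set (α → ℕ)} (hG : FamIn 𝒟 K G) (hpow : PowIn 𝒟 K)
    (w1 w2 : α → ℕ) (s : ℕ) :
    𝒟.P (fun v : Fin 3 → ℕ => sumrel K G w1 w2 s (v 0) (v 1) (v 2)) := by
  refine P.exv (P.and (P.forallFin fun r => ?_) (P.eq (F.var _) (F.sum _ fun r =>
    F.cmul _ (F.var _))))
  exact P.subst3 (R := fun a b c => occ K G w1 w2 a b c) (occ_P hG hpow w1 w2) (F.var _) (F.var _)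
    (F.var _)

/-- the refined relation -/
def fstar (K : ℕ) (G : ℕ → Set (α → ℕ)) (w1 w2 : α → ℕ) (s b p x : ℕ) : Prop :=
  ∃ p', sumrel K G w1 w2 s p p' x ∧ sumrel K G w1 w2 s p p' ((b + 1) * x)

theorem fstar_P {𝒟 : DefSys} {G : ℕ → Set (α → ℕ)} (hG : FamIn 𝒟 K G) (hpow : PowIn 𝒟 K)
    (w1 w2 : α → ℕ) (s b : ℕ) :
    𝒟.P (fun v : Fin 2 → ℕ => fstar K G w1 w2 s b (v 0) (v 1)) := by
  refine P.ex (P.and ?_ ?_)
  · exact P.subst3 (R := fun a b c => sumrel K G w1 w2 s a b c) (sumrel_P hG hpow w1 w2 s)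
      (F.var _) (F.var _) (F.var _)
  · exact P.subst3 (R := fun a b c => sumrel K G w1 w2 s a b c) (sumrel_P hG hpow w1 w2 s)
      (F.var _) (F.var _) (F.cmul _ (F.var _))

theorem val_of_noper (hK : 2 ≤ K) {𝒟 : DefSys} (hpow : PowIn 𝒟 K) {G : ℕ → Set (α → ℕ)}
    (hG : FamIn 𝒟 K G) (hA : Aut K (graph K G))
    {w1 w2 : α → ℕ} (hne : w1 ≠ w2)
    (hw1 : ∀ i, w1 i < K ^ 1) (hw2 : ∀ i, w2 i < K ^ 1)
    (hres1 : res K 1 w1 G = G) (hres2 : res K 1 w2 G = G) {i0 : ℕ}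
    (hB : ∀ j N, 1 ≤ N → N < K ^ j → ¬ PerAt K G w1 w2 (j + i0) N) :
    ValIn 𝒟 K := by
  have hK0 : ∀ n, 0 < K ^ n := fun n => by positivity
  obtain ⟨s, B, hs, hnear⟩ := occ_near hK hA hne hB
  set b : ℕ := (K - 1) * B with hb
  -- sums are near multiples
  have hsum_near : ∀ j p' x, sumrel K G w1 w2 s (K ^ j) p' x →
      ∃ c : ℕ, |(x : ℤ) - c * (K : ℤ) ^ j| ≤ b := by
    rintro j p' x ⟨t, ht, rfl⟩
    choose c hc using fun r => hnear j p' (t r) (ht r)
    refine ⟨∑ r, c r, ?_⟩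
    have e : ((∑ r, s * t r : ℕ) : ℤ) - ((∑ r, c r : ℕ) : ℤ) * (K : ℤ) ^ j =
        ∑ r, ((s : ℤ) * t r - c r * (K : ℤ) ^ j) := by
      push_cast
      rw [Finset.sum_sub_distrib, Finset.sum_mul]
    rw [e]
    refine (Finset.abs_sum_le_sum_abs _ _).trans ?_
    refine (Finset.sum_le_sum fun r _ => hc r).trans ?_
    rw [Finset.sum_const, Finset.card_univ, Fintype.card_fin, hb]
    simp
  -- multiples are sums
  have hsum_mul : ∀ j e c, 1 ≤ e → c < K ^ e →
      sumrel K G w1 w2 s (K ^ j) (K ^ (j + e)) (s * c * K ^ j) := by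
    intro j e c he hc
    obtain ⟨x, hx1, hx2⟩ := cant_sum hK e c hc
    refine ⟨fun r => x r * K ^ j, fun r => occ_cant hK hw1 hw2 hres1 hres2 he (hx1 r), ?_⟩
    rw [← hx2, Finset.mul_sum, Finset.sum_mul]
    exact Finset.sum_congr rfl fun r _ => by ring
  have hF_mul : ∀ j c, fstar K G w1 w2 s b (K ^ j) (s * c * K ^ j) := by
    intro j c
    refine ⟨K ^ (j + ((b + 1) * c + 1)), hsum_mul j _ _ (by omega) ?_, ?_⟩
    · calc c ≤ (b + 1) * c := Nat.le_mul_of_pos_left _ (by omega)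
        _ < (b + 1) * c + 1 := by omega
        _ < K ^ ((b + 1) * c + 1) := Nat.lt_pow_self (by omega)
    · have : (b + 1) * (s * c * K ^ j) = s * ((b + 1) * c) * K ^ j := by ring
      rw [this]
      refine hsum_mul j _ _ (by omega) ?_
      calc (b + 1) * c < (b + 1) * c + 1 := by omega
        _ < K ^ ((b + 1) * c + 1) := Nat.lt_pow_self (by omega)
  set j0 : ℕ := (b + 1) * b + b + 1 with hj0
  have hj0K : (b + 1) * b + b < K ^ j0 := by
    calc (b + 1) * b + b < j0 := by omega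
      _ < K ^ j0 := Nat.lt_pow_self (by omega)
  have hF_dvd : ∀ j x, j0 ≤ j → fstar K G w1 w2 s b (K ^ j) x → K ^ j ∣ x := by
    rintro j x hj ⟨p', h1, h2⟩
    obtain ⟨c1, hc1⟩ := hsum_near j p' _ h1
    obtain ⟨c2, hc2⟩ := hsum_near j p' _ h2
    set d1 : ℤ := (x : ℤ) - c1 * (K : ℤ) ^ j with hd1
    set d2 : ℤ := (((b + 1) * x : ℕ) : ℤ) - c2 * (K : ℤ) ^ j with hd2
    have hKj : (((b + 1) * b + b : ℕ) : ℤ) < (K : ℤ) ^ j := by
      have : (b + 1) * b + b < K ^ j := lt_of_lt_of_le hj0K (Nat.pow_le_pow_right (by omega) hj)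
      exact_mod_cast this
    have hrel : ((b : ℤ) + 1) * d1 - d2 = (c2 - (b + 1) * c1) * (K : ℤ) ^ j := by
      rw [hd1, hd2]; push_cast; ring
    have habs1 := abs_le.1 hc1
    have habs2 := abs_le.1 hc2
    have hb0 : (0 : ℤ) ≤ b := Int.natCast_nonneg _
    have hbound : |((b : ℤ) + 1) * d1 - d2| < (K : ℤ) ^ j := by
      refine lt_of_le_of_lt ?_ hKj
      push_cast
      rw [abs_le]
      constructor <;> nlinarith
    have hzero : (c2 : ℤ) - (b + 1) * c1 = 0 := by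
      by_contra hne'
      have h3 : (1 : ℤ) ≤ |(c2 : ℤ) - (b + 1) * c1| := Int.one_le_abs hne'
      rw [hrel, abs_mul, abs_of_nonneg (by positivity : (0 : ℤ) ≤ (K : ℤ) ^ j)] at hbound
      have hpos : (0 : ℤ) < (K : ℤ) ^ j := by
        have := hK0 j
        exact_mod_cast this
      nlinarith
    rw [hzero, zero_mul] at hrel
    have hd1z : d1 = 0 := by
      by_contra hne'
      have h3 : (1 : ℤ) ≤ |d1| := Int.one_le_abs hne'
      have h4 : |d2| = (b + 1) * |d1| := by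
        have : d2 = ((b : ℤ) + 1) * d1 := by linarith
        rw [this, abs_mul, abs_of_nonneg (by positivity)]
      have h5 : |d2| ≤ b := hc2
      nlinarith
    have : (x : ℤ) = c1 * (K : ℤ) ^ j := by linarith
    have hx : x = c1 * K ^ j := by exact_mod_cast this
    exact ⟨c1, by rw [hx]; ring⟩
  obtain ⟨e0, he0⟩ := mult_cost K hK s hs
  refine P.congr (φ := fun v : Fin 2 → ℕ =>
    (∃ j, j < j0 ∧ (v 0 = K ^ j ∧ K ^ j ∣ v 1)) ∨
    ((∃ n, v 0 = K ^ n) ∧ K ^ j0 ≤ v 0 ∧ ∃ z, ∃ i, i < K ^ e0 ∧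
      (fstar K G w1 w2 s b (K ^ e0 * v 0) (s * z) ∧ v 1 = z + i * v 0))) ?_ ?_
  · refine P.or (P.existsLt _ fun j _ => P.and (P.eqConst _ (F.var _)) (P.dvd _ (F.var _)))
      (P.and (hpow.P (F.var _)) (P.and (P.le (F.const _) (F.var _))
        (P.ex (P.existsLt _ fun i _ => P.and ?_ ?_))))
    · exact P.subst2 (R := fun a c => fstar K G w1 w2 s b a c) (fstar_P hG hpow w1 w2 s b)
        (F.cmul _ (F.var _)) (F.cmul _ (F.var _))
    · exact P.eq (F.var _) (F.add (F.var _) (F.cmul _ (F.var _)))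
  · intro v
    constructor
    · rintro ⟨⟨j, hj⟩, hdvd⟩
      rw [hj] at hdvd ⊢
      by_cases hjj : j < j0
      · exact Or.inl ⟨j, hjj, rfl, hdvd⟩
      · right
        push Not at hjj
        obtain ⟨c, hc⟩ := hdvd
        refine ⟨⟨j, rfl⟩, Nat.pow_le_pow_right (by omega) hjj, c / K ^ e0 * K ^ (e0 + j),
          c % K ^ e0, Nat.mod_lt _ (hK0 _), ?_, ?_⟩
        · have e1 : K ^ e0 * K ^ j = K ^ (e0 + j) := by rw [← pow_add]
          have e2 : s * (c / K ^ e0 * K ^ (e0 + j)) = s * (c / K ^ e0) * K ^ (e0 + j) := by ring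
          rw [e1, e2]
          exact hF_mul _ _
        · have h1 := Nat.div_add_mod c (K ^ e0)
          rw [hc]
          conv_lhs => rw [← h1]
          rw [pow_add]; ring
    · rintro (⟨j, _, hj1, hj2⟩ | ⟨⟨j, hj⟩, hle, z, i, hi, hF, hv⟩)
      · rw [hj1]; exact ⟨⟨j, rfl⟩, hj2⟩
      · rw [hj] at hle hF hv ⊢
        refine ⟨⟨j, rfl⟩, ?_⟩
        have hjj : j0 ≤ j := (Nat.pow_le_pow_iff_right (by omega)).1 hle
        rw [← pow_add] at hF
        have h1 := hF_dvd (e0 + j) (s * z) (by omega) hF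
        have h2 := he0 j z h1
        rw [hv]
        exact Nat.dvd_add h2 (Dvd.intro_left _ rfl)

/-- The dichotomy for a family with two distinct loops. -/
theorem per_or_val (hK : 2 ≤ K) {𝒟 : DefSys} (hpow : PowIn 𝒟 K) {G : ℕ → Set (α → ℕ)}
    (hG : FamIn 𝒟 K G) (hA : Aut K (graph K G))
    {w1 w2 : α → ℕ} (hne : w1 ≠ w2)
    (hw1 : ∀ i, w1 i < K ^ 1) (hw2 : ∀ i, w2 i < K ^ 1)
    (hres1 : res K 1 w1 G = G) (hres2 : res K 1 w2 G = G) :
    (∃ N, 1 ≤ N ∧ ∀ j, PerAt K G w1 w2 j N) ∨ ValIn 𝒟 K := by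
  rcases per_dichotomy hK hA (w2 := w2) hw1 hres1 with h | ⟨i0, h⟩
  · exact Or.inl h
  · exact Or.inr (val_of_noper hK hpow hG hA hne hw1 hw2 hres1 hres2 h)

end Pool.Agent.Helper98.AP
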