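import Mathlib

set_option autoImplicit false

namespace Pool.Agent.Helper98.Sync

set_option maxHeartbeats 2000000 in
/-- algebraic core: second-order critical configurations close to an expander are constant -/
theorem core {n : ℕ} (hn : 0 < n) (A : Fin n → Fin n → ℝ)
    (D L κ : ℝ) (hD : 0 < D) (hκ : 0 < κ) (hκ1 : κ ≤ 1) (hL : 0 ≤ L) (hLκ : 40 * L ≤ κ * D)
    (hM : ∀ v : Fin n → ℝ, ∑ i, (∑ j, (A i j - D / n) * v j) ^ 2 ≤ L ^ 2 * ∑ i, v i ^ 2)
    (hrow : ∀ i, κ * D ≤ ∑ j, A i j)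
    (x y : Fin n → ℝ) (hxy : ∀ i, x i ^ 2 + y i ^ 2 = 1)
    (hsx : ∑ i, x i = 0) (hsy : 0 ≤ ∑ i, y i)
    (foc : ∀ i, x i * ∑ j, A i j * y j = y i * ∑ j, A i j * x j)
    (soc1 : ∀ i, 0 ≤ y i * (∑ j, A i j * y j) + x i * ∑ j, A i j * x j)
    (soc2 : 0 ≤ ∑ i, ∑ j, A i j * (y i * y j + x i * x j) * (1 - (y i * y j + x i * x j))) :
    ∀ i, x i = 0 ∧ y i = 1 := by
  have hn0 : (0 : ℝ) < n := by exact_mod_cast hn
  set M : (Fin n → ℝ) → Fin n → ℝ := fun v i => ∑ j, (A i j - D / n) * v j with hMdef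
  have hMv : ∀ v : Fin n → ℝ, ∀ i, ∑ j, A i j * v j = D / n * (∑ j, v j) + M v i := by
    intro v i
    simp only [hMdef, sub_mul, Finset.sum_sub_distrib, Finset.mul_sum]
    ring
  have hM' : ∀ v : Fin n → ℝ, ∑ i, (M v i) ^ 2 ≤ L ^ 2 * ∑ i, v i ^ 2 := hM
  have hq : ∀ v : Fin n → ℝ, |∑ i, v i * M v i| ≤ L * ∑ i, v i ^ 2 := by
    intro v
    apply abs_le_of_sq_le_sq
    · calc (∑ i, v i * M v i) ^ 2 ≤ (∑ i, v i ^ 2) * ∑ i, (M v i) ^ 2 :=
            Finset.sum_mul_sq_le_sq_mul_sq _ _ _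
        _ ≤ (∑ i, v i ^ 2) * (L ^ 2 * ∑ i, v i ^ 2) :=
            mul_le_mul_of_nonneg_left (hM' v) (Finset.sum_nonneg fun i _ => sq_nonneg _)
        _ = (L * ∑ i, v i ^ 2) ^ 2 := by ring
    · exact mul_nonneg hL (Finset.sum_nonneg fun i _ => sq_nonneg _)
  have hform : ∀ v : Fin n → ℝ, ∑ i, ∑ j, A i j * (v i * v j) =
      D / n * (∑ i, v i) ^ 2 + ∑ i, v i * M v i := by
    intro v
    have h1 : ∀ i, ∑ j, A i j * (v i * v j) = v i * (D / n * (∑ j, v j)) + v i * M v i := by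
      intro i
      rw [← mul_add, ← hMv v i, Finset.mul_sum]
      exact Finset.sum_congr rfl fun j _ => by ring
    rw [Finset.sum_congr rfl fun i _ => h1 i, Finset.sum_add_distrib, ← Finset.sum_mul]
    ring
  set Y := ∑ i, y i with hY
  set P := ∑ i, y i ^ 2 with hP
  set Q := ∑ i, x i ^ 2 with hQ
  have hPQ : Q + P = n := by
    rw [hP, hQ, ← Finset.sum_add_distrib, Finset.sum_congr rfl fun i _ => hxy i]
    simp
  have hQ0 : 0 ≤ Q := Finset.sum_nonneg fun i _ => sq_nonneg _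
  have hP0 : 0 ≤ P := Finset.sum_nonneg fun i _ => sq_nonneg _
  have hy1 : ∀ i, y i ≤ 1 := fun i => by
    have h1 := hxy i
    have h2 := sq_nonneg (x i)
    have h3 := sq_nonneg (y i - 1)
    linarith [h1, h2, h3, (by ring : (y i - 1) ^ 2 = y i ^ 2 - 2 * y i + 1)]
  have hx1 : ∀ i, x i ^ 2 ≤ 1 := fun i => by
    linarith [hxy i, sq_nonneg (y i)]
  have hYn : Y ≤ n := by
    calc Y ≤ ∑ i : Fin n, (1 : ℝ) := Finset.sum_le_sum fun i _ => hy1 i
      _ = n := by simp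
  -- Step D1
  have hD1 : D / n * (P ^ 2 + Q ^ 2) ≤ D / n * Y ^ 2 + 2 * L * n := by
    have e1 : ∑ i, ∑ j, A i j * (y i * y j + x i * x j) * (1 - (y i * y j + x i * x j)) =
        (∑ i, ∑ j, A i j * (y i * y j)) + (∑ i, ∑ j, A i j * (x i * x j))
        - (∑ i, ∑ j, A i j * (y i ^ 2 * y j ^ 2))
        - 2 * (∑ i, ∑ j, A i j * ((x i * y i) * (x j * y j)))
        - (∑ i, ∑ j, A i j * (x i ^ 2 * x j ^ 2)) := by
      simp only [Finset.mul_sum, ← Finset.sum_add_distrib, ← Finset.sum_sub_distrib]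
      exact Finset.sum_congr rfl fun i _ => Finset.sum_congr rfl fun j _ => by ring
    rw [e1, hform y, hform x, hform (fun i => y i ^ 2), hform (fun i => x i * y i),
      hform (fun i => x i ^ 2)] at soc2
    have b1 := (abs_le.mp (hq y)).2
    have b2 := (abs_le.mp (hq x)).2
    have b3 := (abs_le.mp (hq (fun i => y i ^ 2))).1
    have b4 := (abs_le.mp (hq (fun i => x i * y i))).1
    have b5 := (abs_le.mp (hq (fun i => x i ^ 2))).1
    have e2 : (∑ i, (y i ^ 2) ^ 2) + 2 * (∑ i, (x i * y i) ^ 2) + (∑ i, (x i ^ 2) ^ 2) = n := by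
      rw [Finset.mul_sum, ← Finset.sum_add_distrib, ← Finset.sum_add_distrib]
      have : ∀ i ∈ Finset.univ, (y i ^ 2) ^ 2 + 2 * (x i * y i) ^ 2 + (x i ^ 2) ^ 2 = 1 := by
        intro i _
        have := hxy i
        calc (y i ^ 2) ^ 2 + 2 * (x i * y i) ^ 2 + (x i ^ 2) ^ 2 = (x i ^ 2 + y i ^ 2) ^ 2 := by ring
          _ = 1 := by rw [this]; ring
      rw [Finset.sum_congr rfl this]
      simp
    have hDn : 0 ≤ D / n := by positivity
    have b6 : 0 ≤ D / n * (∑ i, x i * y i) ^ 2 := by positivity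
    rw [hsx] at soc2
    simp only [← hY, ← hP, ← hQ] at soc2 b1 b2 b3 b4 b5
    have e3 : L * (Q + P) = L * n := by rw [hPQ]
    have e4 : L * ((∑ i, (y i ^ 2) ^ 2) + 2 * (∑ i, (x i * y i) ^ 2) + (∑ i, (x i ^ 2) ^ 2))
        = L * n := by rw [e2]
    linarith

  -- clear denominators
  have hLD : 40 * L ≤ D := hLκ.trans (mul_le_of_le_one_left hD.le hκ1)
  have hD1' : P ^ 2 + Q ^ 2 ≤ Y ^ 2 + 2 * (L / D) * n ^ 2 := by
    have h1 : n / D * (D / n * (P ^ 2 + Q ^ 2)) ≤ n / D * (D / n * Y ^ 2 + 2 * L * n) :=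
      mul_le_mul_of_nonneg_left hD1 (by positivity)
    have h2 : n / D * (D / n * (P ^ 2 + Q ^ 2)) = P ^ 2 + Q ^ 2 := by
      field_simp
    have h3 : n / D * (D / n * Y ^ 2 + 2 * L * n) = Y ^ 2 + 2 * (L / D) * n ^ 2 := by
      field_simp
    linarith
  set e := L / D with he
  have he0 : 0 ≤ e := by positivity
  have heκ : 40 * e ≤ κ := by
    rw [he, ← mul_div_assoc, div_le_iff₀ hD]
    exact hLκ
  have he1 : e ≤ 1 / 40 := by linarith
  have hLe : L = e * D := by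
    rw [he]; field_simp
  have hPn : P = n - Q := by linarith
  have hQn : Q ≤ n := by linarith
  have hY1 : (n : ℝ) ^ 2 / 4 ≤ Y ^ 2 := by
    have : P ^ 2 + Q ^ 2 ≥ (n : ℝ) ^ 2 / 2 := by
      rw [hPn]
      linarith [sq_nonneg ((n : ℝ) - 2 * Q), (by ring : ((n : ℝ) - 2 * Q) ^ 2 = 2 * (((n:ℝ) - Q) ^ 2 + Q ^ 2) - (n : ℝ) ^ 2)]
    have h5 : e * (n : ℝ) ^ 2 ≤ 1 / 40 * (n : ℝ) ^ 2 :=
      mul_le_mul_of_nonneg_right he1 (sq_nonneg _)
    have h6 : 0 ≤ (n : ℝ) ^ 2 := sq_nonneg _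
    linarith [(by ring : 2 * e * (n : ℝ) ^ 2 = 2 * (e * (n : ℝ) ^ 2))]
  -- Step D2
  have hxM : ∀ i, ∑ j, A i j * x j = M x i := by
    intro i; rw [hMv x i, hsx]; ring
  have hyM : ∀ i, ∑ j, A i j * y j = D / n * Y + M y i := fun i => hMv y i
  have hD2 : (D / n * Y) ^ 2 * Q ≤ L ^ 2 * n := by
    have h1 : ∀ i, (D / n * Y) ^ 2 * x i ^ 2 ≤ (M x i) ^ 2 + (M y i) ^ 2 := by
      intro i
      have h2 := foc i
      rw [hxM, hyM] at h2
      have h3 : D / n * Y * x i = y i * M x i - x i * M y i := by linarith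
      have h4 : (D / n * Y) ^ 2 * x i ^ 2 = (y i * M x i - x i * M y i) ^ 2 := by
        rw [← h3]; ring
      rw [h4]
      have h5 : (M x i) ^ 2 + (M y i) ^ 2 = (x i ^ 2 + y i ^ 2) * ((M x i) ^ 2 + (M y i) ^ 2) := by
        rw [hxy i]; ring
      rw [h5]
      have h6 : (x i ^ 2 + y i ^ 2) * ((M x i) ^ 2 + (M y i) ^ 2)
          - (y i * M x i - x i * M y i) ^ 2 = (x i * M x i + y i * M y i) ^ 2 := by ring
      linarith [sq_nonneg (x i * M x i + y i * M y i)]
    calc (D / n * Y) ^ 2 * Q = ∑ i, (D / n * Y) ^ 2 * x i ^ 2 := by rw [hQ, Finset.mul_sum]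
      _ ≤ ∑ i, ((M x i) ^ 2 + (M y i) ^ 2) := Finset.sum_le_sum fun i _ => h1 i
      _ = ∑ i, (M x i) ^ 2 + ∑ i, (M y i) ^ 2 := Finset.sum_add_distrib
      _ ≤ L ^ 2 * Q + L ^ 2 * P := add_le_add (hM' x) (hM' y)
      _ = L ^ 2 * n := by rw [← mul_add, hPQ]
  have hD2' : Y ^ 2 * Q ≤ e ^ 2 * n ^ 3 := by
    have h1 : (n / D) ^ 2 * ((D / n * Y) ^ 2 * Q) ≤ (n / D) ^ 2 * (L ^ 2 * n) :=
      mul_le_mul_of_nonneg_left hD2 (by positivity)
    have h2 : (n / D) ^ 2 * ((D / n * Y) ^ 2 * Q) = Y ^ 2 * Q := by field_simp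
    have h3 : (n / D) ^ 2 * (L ^ 2 * n) = e ^ 2 * n ^ 3 := by rw [hLe]; field_simp
    linarith
  have hQe : Q ≤ 4 * e ^ 2 * n := by
    have h1 : (n : ℝ) ^ 2 / 4 * Q ≤ e ^ 2 * n ^ 3 :=
      (mul_le_mul_of_nonneg_right hY1 hQ0).trans hD2'
    have h2 : (n : ℝ) ^ 2 * Q ≤ (n : ℝ) ^ 2 * (4 * e ^ 2 * n) := by
      linarith [(by ring : (n : ℝ) ^ 2 * (4 * e ^ 2 * n) = 4 * (e ^ 2 * n ^ 3))]
    exact le_of_mul_le_mul_left h2 (by positivity)
  have hYlow : (n : ℝ) * (1 - κ / 4) ≤ Y := by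
    have h1 : P ^ 2 + Q ^ 2 ≥ (n : ℝ) ^ 2 - 2 * n * Q := by
      rw [hPn]
      linarith [sq_nonneg Q, (by ring : ((n : ℝ) - Q) ^ 2 + Q ^ 2 = (n : ℝ) ^ 2 - 2 * n * Q + 2 * Q ^ 2)]
    have h2 : (n : ℝ) * Q ≤ n * (4 * e ^ 2 * n) := mul_le_mul_of_nonneg_left hQe hn0.le
    have h3 : e ^ 2 ≤ e * (1 / 40) := by
      rw [sq]; exact mul_le_mul_of_nonneg_left he1 he0
    have h4 : e ^ 2 * (n : ℝ) ^ 2 ≤ e * (1 / 40) * (n : ℝ) ^ 2 :=
      mul_le_mul_of_nonneg_right h3 (sq_nonneg _)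
    have h6 : e * (n : ℝ) ^ 2 ≤ κ / 40 * (n : ℝ) ^ 2 :=
      mul_le_mul_of_nonneg_right (by linarith) (sq_nonneg _)
    have h9 : 0 ≤ e * (n : ℝ) ^ 2 := by positivity
    have h7 : (n : ℝ) * (n * (1 - κ / 4)) ≤ Y ^ 2 := by
      linarith [(by ring : (n : ℝ) * (n * (1 - κ / 4)) = (n : ℝ) ^ 2 - 10 * (κ / 40 * (n : ℝ) ^ 2)),
        (by ring : (n : ℝ) * (4 * e ^ 2 * n) = 4 * (e ^ 2 * (n : ℝ) ^ 2)),
        (by ring : e * (1 / 40) * (n : ℝ) ^ 2 = 1 / 40 * (e * (n : ℝ) ^ 2)),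
        (by ring : 2 * e * (n : ℝ) ^ 2 = 2 * (e * (n : ℝ) ^ 2)),
        (by ring : 2 * (n : ℝ) * Q = 2 * (n * Q))]
    have h8 : Y ^ 2 ≤ n * Y := by
      rw [sq]; exact mul_le_mul_of_nonneg_right hYn hsy
    exact le_of_mul_le_mul_left (h7.trans h8) hn0
  -- Step D3
  set u : Fin n → ℝ := fun i => 1 - y i with hu
  have hAy : ∀ i, κ * D * (3 / 4) - M u i ≤ ∑ j, A i j * y j := by
    intro i
    have h1 : ∑ j, A i j * u j = D / n * (n - Y) + M u i := by
      rw [hMv u i]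
      congr 2
      simp only [hu, Finset.sum_sub_distrib, Finset.sum_const, Finset.card_univ, Fintype.card_fin,
        nsmul_eq_mul, mul_one, hY]
    have h2 : ∑ j, A i j * u j = ∑ j, A i j - ∑ j, A i j * y j := by
      simp only [hu, mul_sub, mul_one, Finset.sum_sub_distrib]
    have h3 : D / n * (n - Y) ≤ κ * D / 4 := by
      have : (n : ℝ) - Y ≤ n * (κ / 4) := by linarith
      calc D / n * (n - Y) ≤ D / n * (n * (κ / 4)) := mul_le_mul_of_nonneg_left this (by positivity)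
        _ = κ * D / 4 := by field_simp
    linarith [hrow i]
  set B : Finset (Fin n) := Finset.univ.filter (fun i => κ * D / 4 < M u i) with hB
  set U := ∑ i, u i ^ 2 with hU
  have hU0 : 0 ≤ U := Finset.sum_nonneg fun i _ => sq_nonneg _
  have hκD : 0 < κ * D := by positivity
  have hLsq : L ^ 2 ≤ (κ * D) ^ 2 / 1600 := by
    have : L ≤ κ * D / 40 := by linarith
    calc L ^ 2 ≤ (κ * D / 40) ^ 2 := pow_le_pow_left₀ hL this 2
      _ = (κ * D) ^ 2 / 1600 := by ring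
  have hBU : (B.card : ℝ) ≤ U / 100 := by
    have h1 : (B.card : ℝ) * (κ * D / 4) ^ 2 ≤ ∑ i, (M u i) ^ 2 := by
      calc (B.card : ℝ) * (κ * D / 4) ^ 2 = ∑ i ∈ B, (κ * D / 4) ^ 2 := by
            rw [Finset.sum_const, nsmul_eq_mul]
        _ ≤ ∑ i ∈ B, (M u i) ^ 2 := by
            apply Finset.sum_le_sum
            intro i hi
            have h2 : κ * D / 4 < M u i := by
              rw [hB, Finset.mem_filter] at hi; exact hi.2
            exact pow_le_pow_left₀ (by positivity) h2.le 2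
        _ ≤ ∑ i, (M u i) ^ 2 :=
            Finset.sum_le_sum_of_subset_of_nonneg (Finset.subset_univ _)
              fun i _ _ => sq_nonneg _
    have h3 : (B.card : ℝ) * (κ * D / 4) ^ 2 ≤ (κ * D) ^ 2 / 1600 * U :=
      (h1.trans (hM' u)).trans (mul_le_mul_of_nonneg_right hLsq hU0)
    have h4 : (κ * D) ^ 2 * (B.card : ℝ) ≤ (κ * D) ^ 2 * (U / 100) := by
      linarith [(by ring : (B.card : ℝ) * (κ * D / 4) ^ 2 = (κ * D) ^ 2 * (B.card : ℝ) / 16),
        (by ring : (κ * D) ^ 2 * (U / 100) = 16 * ((κ * D) ^ 2 / 1600 * U))]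
    exact le_of_mul_le_mul_left h4 (by positivity)
  have hout : ∀ i, i ∉ B → 0 < y i ∧ (κ * D / 2) ^ 2 * x i ^ 2 ≤ (M x i) ^ 2 := by
    intro i hi
    have h1 : M u i ≤ κ * D / 4 := by
      by_contra h
      exact hi (by rw [hB, Finset.mem_filter]; exact ⟨Finset.mem_univ _, not_le.mp h⟩)
    have h2 : κ * D / 2 ≤ ∑ j, A i j * y j := by linarith [hAy i]
    set a := ∑ j, A i j * y j with ha
    have hfo := foc i
    have hso := soc1 i
    rw [hxM i] at hfo hso
    set b := M x i with hb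
    set g := y i * a + x i * b with hg
    have hag : a = g * y i := by
      have : a = (x i ^ 2 + y i ^ 2) * a := by rw [hxy i]; ring
      rw [this, hg]
      have h3 : x i ^ 2 * a = x i * (y i * b) := by rw [← hfo]; ring
      linear_combination h3
    have hbg : b = g * x i := by
      have : b = (x i ^ 2 + y i ^ 2) * b := by rw [hxy i]; ring
      rw [this, hg]
      have h3 : y i ^ 2 * b = y i * (x i * a) := by rw [hfo]; ring
      linear_combination h3
    have ha0 : 0 < a := by linarith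
    have hy0 : 0 < y i := by
      by_contra h
      push Not at h
      have : g * y i ≤ 0 := mul_nonpos_of_nonneg_of_nonpos hso h
      linarith
    have hga : κ * D / 2 ≤ g := by
      have : g * y i ≤ g * 1 := mul_le_mul_of_nonneg_left (hy1 i) hso
      linarith
    refine ⟨hy0, ?_⟩
    rw [hbg, mul_pow]
    exact mul_le_mul_of_nonneg_right (pow_le_pow_left₀ (by positivity) hga 2) (sq_nonneg _)
  set Qo := ∑ i ∈ Bᶜ, x i ^ 2 with hQo
  have hQo1 : Qo ≤ Q / 400 := by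
    have h1 : (κ * D / 2) ^ 2 * Qo ≤ ∑ i, (M x i) ^ 2 := by
      calc (κ * D / 2) ^ 2 * Qo = ∑ i ∈ Bᶜ, (κ * D / 2) ^ 2 * x i ^ 2 := by
            rw [hQo, Finset.mul_sum]
        _ ≤ ∑ i ∈ Bᶜ, (M x i) ^ 2 :=
            Finset.sum_le_sum fun i hi => (hout i (Finset.mem_compl.mp hi)).2
        _ ≤ ∑ i, (M x i) ^ 2 :=
            Finset.sum_le_sum_of_subset_of_nonneg (Finset.subset_univ _)
              fun i _ _ => sq_nonneg _
    have h3 : (κ * D / 2) ^ 2 * Qo ≤ (κ * D) ^ 2 / 1600 * Q :=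
      (h1.trans (hM' x)).trans (mul_le_mul_of_nonneg_right hLsq hQ0)
    have h4 : (κ * D) ^ 2 * Qo ≤ (κ * D) ^ 2 * (Q / 400) := by
      linarith [(by ring : (κ * D / 2) ^ 2 * Qo = (κ * D) ^ 2 * Qo / 4),
        (by ring : (κ * D) ^ 2 * (Q / 400) = 4 * ((κ * D) ^ 2 / 1600 * Q))]
    exact le_of_mul_le_mul_left h4 (by positivity)
  have hQB : Q ≤ B.card + Qo := by
    rw [hQ, ← Finset.sum_add_sum_compl B]
    have : ∑ i ∈ B, x i ^ 2 ≤ B.card := by
      calc ∑ i ∈ B, x i ^ 2 ≤ ∑ i ∈ B, (1 : ℝ) := Finset.sum_le_sum fun i _ => hx1 i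
        _ = B.card := by simp
    linarith
  have hUB : U ≤ 4 * B.card + Qo := by
    rw [hU, ← Finset.sum_add_sum_compl B]
    have h1 : ∑ i ∈ B, u i ^ 2 ≤ 4 * B.card := by
      calc ∑ i ∈ B, u i ^ 2 ≤ ∑ i ∈ B, (4 : ℝ) := by
            apply Finset.sum_le_sum
            intro i _
            have h2 := hxy i
            have h4 := sq_nonneg (y i + 1)
            have h5 := sq_nonneg (x i)
            simp only [hu]
            linarith [(by ring : (1 - y i) ^ 2 = 2 + 2 * y i ^ 2 - (y i + 1) ^ 2)]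
        _ = 4 * B.card := by rw [Finset.sum_const, nsmul_eq_mul]; ring
    have h2 : ∑ i ∈ Bᶜ, u i ^ 2 ≤ Qo := by
      rw [hQo]
      apply Finset.sum_le_sum
      intro i hi
      have h3 := (hout i (Finset.mem_compl.mp hi)).1
      have h4 := hy1 i
      have h5 := hxy i
      simp only [hu]
      have h6 : 0 ≤ y i * (1 - y i) := mul_nonneg h3.le (by linarith)
      linarith [(by ring : (1 - y i) ^ 2 = 1 - y i ^ 2 - 2 * (y i * (1 - y i)))]
    linarith
  have hB0 : (B.card : ℝ) = 0 := by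
    have : (0 : ℝ) ≤ B.card := Nat.cast_nonneg _
    linarith
  have hQz : Q = 0 := by
    have : Q ≤ 0 := by linarith
    linarith
  have hBe : B = ∅ := by
    rw [← Finset.card_eq_zero]
    exact_mod_cast hB0
  intro i
  have hxi : x i ^ 2 = 0 := by
    have h1 := (Finset.sum_eq_zero_iff_of_nonneg (fun i _ => sq_nonneg (x i))).mp
      (hQ ▸ hQz : ∑ i, x i ^ 2 = 0)
    exact h1 i (Finset.mem_univ i)
  have hyi : 0 < y i := (hout i (by rw [hBe]; exact Finset.notMem_empty i)).1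
  have h1 := hxy i
  rw [hxi, zero_add] at h1
  refine ⟨by simpa using hxi, ?_⟩
  have h2 : (y i - 1) * (y i + 1) = 0 := by linear_combination h1
  rcases mul_eq_zero.mp h2 with h | h
  · linarith
  · linarith


theorem lim_aux (w : ℝ) :
    Filter.Tendsto (fun t : ℝ => 2 * (1 - Real.cos (t * w)) / t ^ 2) (nhdsWithin 0 {0}ᶜ)
      (nhds (w ^ 2)) := by
  have h1 : HasDerivAt (fun t : ℝ => 2 * Real.sin (t * (w / 2))) w 0 := by
    have h := ((Real.hasDerivAt_sin (0 * (w / 2))).comp (0 : ℝ)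
      ((hasDerivAt_id (0 : ℝ)).mul_const (w / 2))).const_mul 2
    have e : 2 * (Real.cos (0 * (w / 2)) * (1 * (w / 2))) = w := by
      simp; ring
    rw [e] at h
    exact h
  have h2 := hasDerivAt_iff_tendsto_slope.mp h1
  have h3 := h2.pow 2
  refine h3.congr' ?_
  filter_upwards [self_mem_nhdsWithin] with t ht
  have ht' : t ≠ 0 := ht
  simp only [slope_def_field, zero_mul, Real.sin_zero, mul_zero, sub_zero]
  have h4 : Real.cos (t * w) = 1 - 2 * Real.sin (t * (w / 2)) ^ 2 := by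
    have : t * w = 2 * (t * (w / 2)) := by ring
    rw [this, Real.cos_two_mul]
    have := Real.sin_sq_add_cos_sq (t * (w / 2))
    linarith
  rw [h4, div_pow]
  ring

theorem soc {n : ℕ} (A : Fin n → Fin n → ℝ) (θ : Fin n → ℝ)
    (hmin : IsLocalMin (fun φ : Fin n → ℝ =>
      (1/2 : ℝ) * ∑ i, ∑ j, A i j * (1 - Real.cos (φ i - φ j))) θ) (v : Fin n → ℝ) :
    0 ≤ ∑ i, ∑ j, A i j * Real.cos (θ i - θ j) * (v i - v j) ^ 2 := by
  have hlim : Filter.Tendsto
      (fun t : ℝ => ∑ i, ∑ j, A i j * Real.cos (θ i - θ j) *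
        (2 * (1 - Real.cos (t * (v i - v j))) / t ^ 2)) (nhdsWithin 0 {0}ᶜ)
      (nhds (∑ i, ∑ j, A i j * Real.cos (θ i - θ j) * (v i - v j) ^ 2)) :=
    tendsto_finsetSum _ fun i _ => tendsto_finsetSum _ fun j _ =>
      (lim_aux (v i - v j)).const_mul _
  refine ge_of_tendsto hlim ?_
  have hc1 : Filter.Tendsto (fun t : ℝ => θ + t • v) (nhds 0) (nhds θ) := by
    have : Continuous (fun t : ℝ => θ + t • v) := by fun_prop
    simpa using this.tendsto 0
  have hc2 : Filter.Tendsto (fun t : ℝ => θ - t • v) (nhds 0) (nhds θ) := by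
    have : Continuous (fun t : ℝ => θ - t • v) := by fun_prop
    simpa using this.tendsto 0
  have h1 := hc1.eventually hmin
  have h2 := hc2.eventually hmin
  have h3 := (h1.and h2).filter_mono (nhdsWithin_le_nhds (s := {0}ᶜ) (a := (0:ℝ)))
  filter_upwards [h3, self_mem_nhdsWithin] with t ht ht0
  have ht0' : t ≠ 0 := ht0
  obtain ⟨ha, hb⟩ := ht
  simp only [Pi.add_apply, Pi.sub_apply, Pi.smul_apply, smul_eq_mul] at ha hb
  have key : ∑ i, ∑ j, A i j * Real.cos (θ i - θ j) * (2 * (1 - Real.cos (t * (v i - v j))) / t ^ 2)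
      = 2 / t ^ 2 * ((1/2 : ℝ) * (∑ i, ∑ j, A i j * (1 - Real.cos (θ i + t * v i - (θ j + t * v j))))
        + (1/2 : ℝ) * (∑ i, ∑ j, A i j * (1 - Real.cos (θ i - t * v i - (θ j - t * v j))))
        - 2 * ((1/2 : ℝ) * ∑ i, ∑ j, A i j * (1 - Real.cos (θ i - θ j)))) := by
    simp only [Finset.mul_sum, ← Finset.sum_add_distrib, ← Finset.sum_sub_distrib]
    refine Finset.sum_congr rfl fun i _ => Finset.sum_congr rfl fun j _ => ?_
    have e1 : θ i + t * v i - (θ j + t * v j) = (θ i - θ j) + t * (v i - v j) := by ring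
    have e2 : θ i - t * v i - (θ j - t * v j) = (θ i - θ j) - t * (v i - v j) := by ring
    rw [e1, e2]
    generalize θ i - θ j = a
    generalize t * (v i - v j) = b
    rw [Real.cos_add, Real.cos_sub]
    ring
  rw [key]
  apply mul_nonneg (by positivity)
  linarith

theorem focd {n : ℕ} (A : Fin n → Fin n → ℝ) (hsymm : ∀ i j, A i j = A j i) (θ : Fin n → ℝ)
    (hmin : IsLocalMin (fun φ : Fin n → ℝ =>
      (1/2 : ℝ) * ∑ i, ∑ j, A i j * (1 - Real.cos (φ i - φ j))) θ) (k : Fin n) :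
    ∑ j, A k j * Real.sin (θ k - θ j) = 0 := by
  set v : Fin n → ℝ := Pi.single k 1 with hv
  have hc1 : Filter.Tendsto (fun t : ℝ => θ + t • v) (nhds 0) (nhds θ) := by
    have : Continuous (fun t : ℝ => θ + t • v) := by fun_prop
    simpa using this.tendsto 0
  have hloc : IsLocalMin (fun t : ℝ => (1/2 : ℝ) * ∑ i, ∑ j, A i j *
      (1 - Real.cos ((θ i - θ j) + t * (v i - v j)))) 0 := by
    have h1 := hc1.eventually hmin
    filter_upwards [h1] with t ht
    simp only [Pi.add_apply, Pi.smul_apply, smul_eq_mul] at ht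
    simp only [zero_mul, add_zero]
    refine ht.trans (le_of_eq ?_)
    congr 1
    refine Finset.sum_congr rfl fun i _ => Finset.sum_congr rfl fun j _ => ?_
    congr 3
    ring
  have hder : HasDerivAt (fun t : ℝ => (1/2 : ℝ) * ∑ i, ∑ j, A i j *
      (1 - Real.cos ((θ i - θ j) + t * (v i - v j))))
      ((1/2 : ℝ) * ∑ i, ∑ j, A i j * (Real.sin (θ i - θ j) * (v i - v j))) 0 := by
    refine HasDerivAt.const_mul _ (HasDerivAt.fun_sum fun i _ => HasDerivAt.fun_sum fun j _ => ?_)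
    refine HasDerivAt.const_mul _ ?_
    have h1 : HasDerivAt (fun t : ℝ => (θ i - θ j) + t * (v i - v j)) (v i - v j) 0 := by
      simpa using ((hasDerivAt_id (0:ℝ)).mul_const (v i - v j)).const_add (θ i - θ j)
    have h2 := (h1.cos).const_sub 1
    have e : -(-Real.sin (θ i - θ j + 0 * (v i - v j)) * (v i - v j)) =
        Real.sin (θ i - θ j) * (v i - v j) := by
      rw [zero_mul, add_zero]; ring
    rw [e] at h2
    exact h2
  have h0 := hloc.hasDerivAt_eq_zero hder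
  have e1 : ∑ i, ∑ j, A i j * (Real.sin (θ i - θ j) * (v i - v j)) =
      2 * ∑ i, v i * ∑ j, A i j * Real.sin (θ i - θ j) := by
    have e2 : ∑ i, ∑ j, A i j * (Real.sin (θ i - θ j) * v j) =
        - ∑ i, ∑ j, A i j * (Real.sin (θ i - θ j) * v i) := by
      rw [Finset.sum_comm, ← Finset.sum_neg_distrib]
      refine Finset.sum_congr rfl fun i _ => ?_
      rw [← Finset.sum_neg_distrib]
      refine Finset.sum_congr rfl fun j _ => ?_
      rw [hsymm j i, ← neg_sub (θ i) (θ j), Real.sin_neg]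
      ring
    have e3 : ∑ i, ∑ j, A i j * (Real.sin (θ i - θ j) * (v i - v j)) =
        ∑ i, ∑ j, A i j * (Real.sin (θ i - θ j) * v i) -
        ∑ i, ∑ j, A i j * (Real.sin (θ i - θ j) * v j) := by
      rw [← Finset.sum_sub_distrib]
      refine Finset.sum_congr rfl fun i _ => ?_
      rw [← Finset.sum_sub_distrib]
      exact Finset.sum_congr rfl fun j _ => by ring
    rw [e3, e2]
    have e4 : ∑ i, ∑ j, A i j * (Real.sin (θ i - θ j) * v i) =
        ∑ i, v i * ∑ j, A i j * Real.sin (θ i - θ j) := by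
      refine Finset.sum_congr rfl fun i _ => ?_
      rw [Finset.mul_sum]
      exact Finset.sum_congr rfl fun j _ => by ring
    rw [e4]; ring
  rw [e1] at h0
  have e5 : ∑ i, v i * ∑ j, A i j * Real.sin (θ i - θ j) = ∑ j, A k j * Real.sin (θ k - θ j) := by
    rw [Finset.sum_eq_single k]
    · simp [hv]
    · intro b _ hb
      simp [hv, Pi.single_eq_of_ne hb]
    · intro h; exact absurd (Finset.mem_univ k) h
  rw [e5] at h0
  linarith

theorem soc1d {n : ℕ} (A : Fin n → Fin n → ℝ) (hsymm : ∀ i j, A i j = A j i)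
    (hdiag : ∀ i, A i i = 0) (θ : Fin n → ℝ)
    (hmin : IsLocalMin (fun φ : Fin n → ℝ =>
      (1/2 : ℝ) * ∑ i, ∑ j, A i j * (1 - Real.cos (φ i - φ j))) θ) (k : Fin n) :
    0 ≤ ∑ j, A k j * Real.cos (θ k - θ j) := by
  set v : Fin n → ℝ := Pi.single k 1 with hv
  have h := soc A θ hmin v
  have hvk : v k = 1 := by simp [hv]
  have hvne : ∀ i, i ≠ k → v i = 0 := fun i hi => by simp [hv, Pi.single_eq_of_ne hi]
  have e0 : ∑ i, ∑ j, A i j * Real.cos (θ i - θ j) * (v i - v j) ^ 2 =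
      (∑ i, ∑ j, A i j * Real.cos (θ i - θ j) * v i ^ 2) +
      (∑ i, ∑ j, A i j * Real.cos (θ i - θ j) * v j ^ 2) -
      2 * (∑ i, ∑ j, A i j * Real.cos (θ i - θ j) * (v i * v j)) := by
    simp only [Finset.mul_sum, ← Finset.sum_add_distrib, ← Finset.sum_sub_distrib]
    exact Finset.sum_congr rfl fun i _ => Finset.sum_congr rfl fun j _ => by ring
  have e1 : ∑ i, ∑ j, A i j * Real.cos (θ i - θ j) * v i ^ 2 =
      ∑ j, A k j * Real.cos (θ k - θ j) := by
    rw [Finset.sum_eq_single k]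
    · simp [hvk]
    · intro b _ hb
      simp [hvne b hb]
    · intro h; exact absurd (Finset.mem_univ k) h
  have e2 : ∑ i, ∑ j, A i j * Real.cos (θ i - θ j) * v j ^ 2 =
      ∑ j, A k j * Real.cos (θ k - θ j) := by
    rw [Finset.sum_comm, ← e1]
    refine Finset.sum_congr rfl fun i _ => Finset.sum_congr rfl fun j _ => ?_
    rw [hsymm j i, ← neg_sub (θ i) (θ j), Real.cos_neg]
  have e3 : ∑ i, ∑ j, A i j * Real.cos (θ i - θ j) * (v i * v j) = 0 := by
    apply Finset.sum_eq_zero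
    intro i _
    apply Finset.sum_eq_zero
    intro j _
    by_cases hi : i = k
    · by_cases hj : j = k
      · rw [hi, hj, hdiag]; ring
      · rw [hvne j hj]; ring
    · rw [hvne i hi]; ring
  rw [e0, e1, e2, e3] at h
  linarith

theorem exists_rotation {n : ℕ} (θ : Fin n → ℝ) :
    ∃ φ : ℝ, ∑ i, Real.sin (θ i - φ) = 0 ∧ 0 ≤ ∑ i, Real.cos (θ i - φ) := by
  set S : ℂ := ∑ i, Complex.exp (θ i * Complex.I) with hS
  refine ⟨S.arg, ?_⟩
  have h1 : ∑ i, Complex.exp (((θ i - S.arg : ℝ) : ℂ) * Complex.I) = (‖S‖ : ℂ) := by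
    have h2 : ∀ i, Complex.exp (((θ i - S.arg : ℝ) : ℂ) * Complex.I) =
        Complex.exp (θ i * Complex.I) * Complex.exp (-(S.arg * Complex.I)) := by
      intro i
      rw [← Complex.exp_add]
      congr 1
      push_cast
      ring
    rw [Finset.sum_congr rfl fun i _ => h2 i, ← Finset.sum_mul, ← hS]
    conv_lhs => rw [← Complex.norm_mul_exp_arg_mul_I S]
    rw [mul_assoc, ← Complex.exp_add]
    simp
  constructor
  · have := congrArg Complex.im h1
    have h4 : ∀ i, (Complex.exp (((θ i - S.arg : ℝ) : ℂ) * Complex.I)).im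
        = Real.sin (θ i - S.arg) := fun i => Complex.exp_ofReal_mul_I_im _
    rw [Complex.im_sum, Finset.sum_congr rfl fun i _ => h4 i] at this
    simpa using this
  · have := congrArg Complex.re h1
    have h3 : ∑ i, Real.cos (θ i - S.arg) = ‖S‖ := by
      have h4 : ∀ i, (Complex.exp (((θ i - S.arg : ℝ) : ℂ) * Complex.I)).re
          = Real.cos (θ i - S.arg) := fun i => Complex.exp_ofReal_mul_I_re _
      rw [Complex.re_sum, Finset.sum_congr rfl fun i _ => h4 i] at this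
      simpa using this
    rw [h3]
    exact norm_nonneg _

theorem det_sync {n : ℕ} (hn : 0 < n) (A : Fin n → Fin n → ℝ) (hsymm : ∀ i j, A i j = A j i)
    (hdiag : ∀ i, A i i = 0)
    (D L κ : ℝ) (hD : 0 < D) (hκ : 0 < κ) (hκ1 : κ ≤ 1) (hL : 0 ≤ L) (hLκ : 40 * L ≤ κ * D)
    (hM : ∀ v : Fin n → ℝ, ∑ i, (∑ j, (A i j - D / n) * v j) ^ 2 ≤ L ^ 2 * ∑ i, v i ^ 2)
    (hrow : ∀ i, κ * D ≤ ∑ j, A i j) (θ : Fin n → ℝ)
    (hmin : IsLocalMin (fun φ : Fin n → ℝ =>
      (1/2 : ℝ) * ∑ i, ∑ j, A i j * (1 - Real.cos (φ i - φ j))) θ) :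
    ∀ i j : Fin n, ∃ k : ℤ, θ i - θ j = 2 * Real.pi * (k : ℝ) := by
  obtain ⟨φ, hs, hc⟩ := exists_rotation θ
  set x : Fin n → ℝ := fun i => Real.sin (θ i - φ) with hx
  set y : Fin n → ℝ := fun i => Real.cos (θ i - φ) with hy
  have hcos : ∀ i j, Real.cos (θ i - θ j) = y i * y j + x i * x j := by
    intro i j
    have : θ i - θ j = (θ i - φ) - (θ j - φ) := by ring
    rw [this, Real.cos_sub]
  have hsin : ∀ i j, Real.sin (θ i - θ j) = x i * y j - y i * x j := by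
    intro i j
    have : θ i - θ j = (θ i - φ) - (θ j - φ) := by ring
    rw [this, Real.sin_sub]
  have hxy : ∀ i, x i ^ 2 + y i ^ 2 = 1 := fun i => Real.sin_sq_add_cos_sq _
  have hfin := core hn A D L κ hD hκ hκ1 hL hLκ hM hrow x y hxy hs hc ?_ ?_ ?_
  · have h1 : ∀ i, ∃ k : ℤ, (k : ℝ) * (2 * Real.pi) = θ i - φ := fun i =>
      (Real.cos_eq_one_iff _).mp (hfin i).2
    intro i j
    obtain ⟨k, hk⟩ := h1 i
    obtain ⟨l, hl⟩ := h1 j
    refine ⟨k - l, ?_⟩
    push_cast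
    linarith
  · intro k
    have h := focd A hsymm θ hmin k
    have e : ∑ j, A k j * Real.sin (θ k - θ j) =
        x k * ∑ j, A k j * y j - y k * ∑ j, A k j * x j := by
      rw [Finset.mul_sum, Finset.mul_sum, ← Finset.sum_sub_distrib]
      exact Finset.sum_congr rfl fun j _ => by rw [hsin]; ring
    linarith
  · intro k
    have h := soc1d A hsymm hdiag θ hmin k
    have e : ∑ j, A k j * Real.cos (θ k - θ j) =
        y k * ∑ j, A k j * y j + x k * ∑ j, A k j * x j := by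
      rw [Finset.mul_sum, Finset.mul_sum, ← Finset.sum_add_distrib]
      exact Finset.sum_congr rfl fun j _ => by rw [hcos]; ring
    linarith
  · have h1 := soc A θ hmin x
    have h2 := soc A θ hmin y
    have e : ∑ i, ∑ j, A i j * (y i * y j + x i * x j) * (1 - (y i * y j + x i * x j)) =
        1 / 2 * ((∑ i, ∑ j, A i j * Real.cos (θ i - θ j) * (x i - x j) ^ 2) +
        (∑ i, ∑ j, A i j * Real.cos (θ i - θ j) * (y i - y j) ^ 2)) := by
      rw [← Finset.sum_add_distrib, Finset.mul_sum]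
      refine Finset.sum_congr rfl fun i _ => ?_
      rw [← Finset.sum_add_distrib, Finset.mul_sum]
      refine Finset.sum_congr rfl fun j _ => ?_
      rw [hcos]
      have hi := hxy i
      have hj := hxy j
      linear_combination (-(1:ℝ)/2) * A i j * (y i * y j + x i * x j) * (hi + hj)
    rw [e]
    linarith


open MeasureTheory in
theorem hoeff2 {δ : ℝ} (h0 : 0 ≤ δ) (h1 : δ ≤ 1/2) (c : ℝ) :
    (1/2 + δ) * Real.exp (c * (1 - 2*δ)) + (1/2 - δ) * Real.exp (c * (-1 - 2*δ))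
      ≤ Real.exp (c^2/2) := by
  set μ : Measure Bool := ENNReal.ofReal (1/2+δ) • Measure.dirac true
    + ENNReal.ofReal (1/2-δ) • Measure.dirac false with hμ
  have hp : 0 ≤ 1/2 + δ := by linarith
  have hq : 0 ≤ 1/2 - δ := by linarith
  have : IsProbabilityMeasure μ := by
    constructor
    rw [hμ, Measure.add_apply, Measure.smul_apply, Measure.smul_apply]
    simp only [measure_univ, smul_eq_mul, mul_one]
    rw [← ENNReal.ofReal_add hp hq]
    have : 1/2 + δ + (1/2 - δ) = 1 := by ring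
    rw [this, ENNReal.ofReal_one]
  have hint : ∀ f : Bool → ℝ, ∫ b, f b ∂μ = (1/2+δ) * f true + (1/2-δ) * f false := by
    intro f
    rw [hμ, integral_add_measure (Integrable.of_finite.smul_measure ENNReal.ofReal_ne_top)
      (Integrable.of_finite.smul_measure ENNReal.ofReal_ne_top),
      integral_smul_measure, integral_smul_measure, integral_dirac, integral_dirac,
      ENNReal.toReal_ofReal hp, ENNReal.toReal_ofReal hq, smul_eq_mul, smul_eq_mul]
  set X : Bool → ℝ := fun b => if b = true then 1 else -1 with hX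
  have hmem : ∀ᵐ b ∂μ, X b ∈ Set.Icc (-1:ℝ) 1 := by
    refine Filter.Eventually.of_forall fun b => ?_
    cases b <;> simp [hX]
  have hsub := ProbabilityTheory.hasSubgaussianMGF_of_mem_Icc
    (μ := μ) (X := X) (measurable_of_finite X).aemeasurable hmem
  have hm := hsub.mgf_le c
  rw [ProbabilityTheory.mgf, hint] at hm
  have hmean : ∫ b, X b ∂μ = 2 * δ := by
    rw [hint]; simp [hX]; ring
  rw [hmean] at hm
  have hv : (((‖(1:ℝ) - (-1)‖₊ / 2) ^ 2 : NNReal) : ℝ) = 1 := by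
    push_cast
    rw [Real.norm_eq_abs]
    norm_num
  rw [hv] at hm
  simp only [hX, if_true, Bool.false_eq_true, if_false, one_mul] at hm
  exact hm

/-- weight of a configuration -/
noncomputable def wt {n : ℕ} (δ : ℝ) (s : Fin n → Fin n → Bool) : ℝ :=
  ∏ i : Fin n, ∏ j : Fin n,
    (if i < j then (if s i j = true then (1/2 : ℝ) + δ else (1/2 : ℝ) - δ) else (1/2 : ℝ))

noncomputable def sg (b : Bool) : ℝ := if b = true then 1 else -1

theorem wt_nonneg {n : ℕ} {δ : ℝ} (h0 : 0 ≤ δ) (h1 : δ ≤ 1/2) (s : Fin n → Fin n → Bool) :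
    0 ≤ wt δ s := by
  unfold wt
  refine Finset.prod_nonneg fun i _ => Finset.prod_nonneg fun j _ => ?_
  split_ifs <;> linarith

theorem sum_prod_eq {n : ℕ} (F : Fin n → Fin n → Bool → ℝ) :
    ∑ s : Fin n → Fin n → Bool, ∏ i, ∏ j, F i j (s i j) = ∏ i, ∏ j, ∑ b, F i j b := by
  have h1 : ∀ i : Fin n, ∏ j, ∑ b, F i j b = ∑ f : Fin n → Bool, ∏ j, F i j (f j) := by
    intro i
    rw [Finset.prod_univ_sum, Fintype.piFinset_univ]
  rw [Finset.prod_congr rfl fun i _ => h1 i, Finset.prod_univ_sum, Fintype.piFinset_univ]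

theorem sum_wt {n : ℕ} (δ : ℝ) : ∑ s : Fin n → Fin n → Bool, wt δ s = 1 := by
  unfold wt
  rw [sum_prod_eq (fun i j b => if i < j then (if b = true then (1/2 : ℝ) + δ
    else (1/2 : ℝ) - δ) else (1/2 : ℝ))]
  apply Finset.prod_eq_one
  intro i _
  apply Finset.prod_eq_one
  intro j _
  by_cases h : i < j
  · simp [h]; norm_num
  · simp [h]

/-- centred linear form in the signs -/
noncomputable def lin {n : ℕ} (δ : ℝ) (c : Fin n → Fin n → ℝ) (s : Fin n → Fin n → Bool) : ℝ :=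
  ∑ i, ∑ j, if i < j then c i j * (sg (s i j) - 2 * δ) else 0

theorem mgf_le {n : ℕ} {δ : ℝ} (h0 : 0 ≤ δ) (h1 : δ ≤ 1/2) (c : Fin n → Fin n → ℝ) :
    ∑ s : Fin n → Fin n → Bool, wt δ s * Real.exp (lin δ c s) ≤
      Real.exp (∑ i, ∑ j, if i < j then c i j ^ 2 / 2 else 0) := by
  obtain ⟨F, hF⟩ : ∃ F : Fin n → Fin n → Bool → ℝ, ∀ i j b, F i j b = if i < j then
        (if b = true then (1/2 : ℝ) + δ else (1/2 : ℝ) - δ) * Real.exp (c i j * (sg b - 2 * δ))
        else (1/2 : ℝ) := ⟨_, fun _ _ _ => rfl⟩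
  have e1 : ∀ s : Fin n → Fin n → Bool, wt δ s * Real.exp (lin δ c s) =
      ∏ i, ∏ j, F i j (s i j) := by
    intro s
    unfold wt lin
    rw [Real.exp_sum, ← Finset.prod_mul_distrib]
    refine Finset.prod_congr rfl fun i _ => ?_
    rw [Real.exp_sum, ← Finset.prod_mul_distrib]
    refine Finset.prod_congr rfl fun j _ => ?_
    rw [hF]
    by_cases h : i < j
    · simp [h]
    · simp [h]
  rw [Finset.sum_congr rfl fun s _ => e1 s, sum_prod_eq, Real.exp_sum]
  have hnn : ∀ i j : Fin n, 0 ≤ ∑ b : Bool, F i j b := by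
    intro i j
    refine Finset.sum_nonneg fun b _ => ?_
    rw [hF]
    have hp : 0 ≤ (if b = true then (1/2 : ℝ) + δ else (1/2 : ℝ) - δ) := by
      split_ifs <;> linarith
    split_ifs at hp ⊢ <;> positivity
  refine Finset.prod_le_prod (fun i _ => Finset.prod_nonneg fun j _ => hnn i j) fun i _ => ?_
  rw [Real.exp_sum]
  refine Finset.prod_le_prod (fun j _ => hnn i j) fun j _ => ?_
  by_cases h : i < j
  · have h2 := hoeff2 h0 h1 (c i j)
    simp only [hF, h, if_true, Fintype.sum_bool, sg, Bool.false_eq_true, if_false]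
    exact h2
  · simp [hF, h]

theorem chernoff {n : ℕ} {δ : ℝ} (h0 : 0 ≤ δ) (h1 : δ ≤ 1/2) (c : Fin n → Fin n → ℝ)
    (V t : ℝ) (hV : 0 < V) (ht : 0 < t)
    (hc : (∑ i, ∑ j, if i < j then c i j ^ 2 else 0) ≤ V) 
    (S : Finset (Fin n → Fin n → Bool)) (hS : ∀ s ∈ S, t ≤ lin δ c s) :
    ∑ s ∈ S, wt δ s ≤ Real.exp (-(t ^ 2 / (2 * V))) := by
  set l := t / V with hl
  have hl0 : 0 < l := by positivity
  have hlin : ∀ s, lin δ (fun i j => l * c i j) s = l * lin δ c s := by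
    intro s
    unfold lin
    rw [Finset.mul_sum]
    refine Finset.sum_congr rfl fun i _ => ?_
    rw [Finset.mul_sum]
    refine Finset.sum_congr rfl fun j _ => ?_
    split_ifs
    · ring
    · ring
  have h2 := mgf_le h0 h1 (fun i j => l * c i j)
  have h3 : ∑ s ∈ S, wt δ s ≤ Real.exp (-(l * t)) *
      ∑ s : Fin n → Fin n → Bool, wt δ s * Real.exp (lin δ (fun i j => l * c i j) s) := by
    rw [Finset.mul_sum]
    calc ∑ s ∈ S, wt δ s ≤ ∑ s ∈ S, Real.exp (-(l * t)) *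
          (wt δ s * Real.exp (lin δ (fun i j => l * c i j) s)) := by
          refine Finset.sum_le_sum fun s hs => ?_
          rw [hlin]
          have h4 : 1 ≤ Real.exp (-(l * t)) * Real.exp (l * lin δ c s) := by
            rw [← Real.exp_add]
            apply Real.one_le_exp
            have := mul_le_mul_of_nonneg_left (hS s hs) hl0.le
            linarith
          calc wt δ s = wt δ s * 1 := (mul_one _).symm
            _ ≤ wt δ s * (Real.exp (-(l * t)) * Real.exp (l * lin δ c s)) :=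
                mul_le_mul_of_nonneg_left h4 (wt_nonneg h0 h1 s)
            _ = _ := by ring
      _ ≤ _ := by
          refine Finset.sum_le_sum_of_subset_of_nonneg (Finset.subset_univ _) fun s _ _ => ?_
          exact mul_nonneg (Real.exp_pos _).le (mul_nonneg (wt_nonneg h0 h1 s) (Real.exp_pos _).le)
  have h5 : (∑ i, ∑ j, if i < j then (l * c i j) ^ 2 / 2 else 0) ≤ l ^ 2 * V / 2 := by
    have : (∑ i, ∑ j, if i < j then (l * c i j) ^ 2 / 2 else 0) =
        l ^ 2 / 2 * (∑ i, ∑ j, if i < j then c i j ^ 2 else 0) := by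
      rw [Finset.mul_sum]
      refine Finset.sum_congr rfl fun i _ => ?_
      rw [Finset.mul_sum]
      refine Finset.sum_congr rfl fun j _ => ?_
      split_ifs
      · ring
      · ring
    rw [this]
    have := mul_le_mul_of_nonneg_left hc (by positivity : 0 ≤ l ^ 2 / 2)
    linarith
  calc ∑ s ∈ S, wt δ s ≤ Real.exp (-(l * t)) *
      ∑ s : Fin n → Fin n → Bool, wt δ s * Real.exp (lin δ (fun i j => l * c i j) s) := h3
    _ ≤ Real.exp (-(l * t)) * Real.exp (l ^ 2 * V / 2) :=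
        mul_le_mul_of_nonneg_left (h2.trans (Real.exp_le_exp.mpr h5)) (Real.exp_pos _).le
    _ = Real.exp (-(t ^ 2 / (2 * V))) := by
        rw [← Real.exp_add]
        congr 1
        rw [hl]
        field_simp
        ring


theorem sum_half_pow (R : ℕ) :
    ∑ k ∈ Finset.Icc (-(R : ℤ)) R, (1/2 : ℝ) ^ k.natAbs = 3 - 2 * (1/2 : ℝ) ^ R := by
  induction R with
  | zero => norm_num
  | succ R ih =>
    have e : Finset.Icc (-((R + 1 : ℕ) : ℤ)) ((R + 1 : ℕ) : ℤ) =
        insert (-((R + 1 : ℕ) : ℤ)) (insert ((R + 1 : ℕ) : ℤ) (Finset.Icc (-(R : ℤ)) R)) := by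
      ext k
      simp only [Finset.mem_Icc, Finset.mem_insert]
      push_cast
      omega
    rw [e, Finset.sum_insert, Finset.sum_insert, ih]
    · have h1 : (-((R + 1 : ℕ) : ℤ)).natAbs = R + 1 := by omega
      have h2 : (((R + 1 : ℕ) : ℤ)).natAbs = R + 1 := by omega
      rw [h1, h2, pow_succ]
      ring
    · simp only [Finset.mem_Icc]
      push_cast
      omega
    · simp only [Finset.mem_Icc, Finset.mem_insert]
      push_cast
      omega

theorem exp_neg_sq_le (k : ℤ) : Real.exp (-(k : ℝ) ^ 2) ≤ (1/2 : ℝ) ^ k.natAbs := by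
  have h1 : Real.exp (-1) ≤ 1/2 := by
    rw [Real.exp_neg]
    have h2 : (2:ℝ) ≤ Real.exp 1 := by have := Real.add_one_le_exp (1:ℝ); linarith
    have := inv_anti₀ (by norm_num : (0:ℝ) < 2) h2
    linarith
  have h3 : Real.exp (-(k.natAbs : ℝ)) ≤ (1/2 : ℝ) ^ k.natAbs := by
    calc Real.exp (-(k.natAbs : ℝ)) = Real.exp (-1) ^ k.natAbs := by
          rw [← Real.exp_nat_mul]; congr 1; ring
      _ ≤ (1/2 : ℝ) ^ k.natAbs := pow_le_pow_left₀ (Real.exp_pos _).le h1 _
  refine le_trans (Real.exp_le_exp.mpr ?_) h3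
  have h4 : (k : ℝ) ^ 2 = (k.natAbs : ℝ) ^ 2 := by
    have := Int.natAbs_sq k
    have h5 : ((k.natAbs : ℤ) : ℝ) ^ 2 = (k : ℝ) ^ 2 := by exact_mod_cast this
    rw [← h5]; norm_cast
  rw [h4]
  have h6 : (k.natAbs : ℝ) ≤ (k.natAbs : ℝ) ^ 2 := by
    rcases Nat.eq_zero_or_pos k.natAbs with h | h
    · rw [h]; norm_num
    · have : (1 : ℝ) ≤ k.natAbs := by exact_mod_cast h
      nlinarith
  linarith

/-- integer points in a ball -/
noncomputable def net (n : ℕ) : Finset (Fin n → ℤ) :=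
  (Fintype.piFinset (fun _ : Fin n => Finset.Icc (-((25 * n : ℕ) : ℤ)) ((25 * n : ℕ) : ℤ))).filter
    (fun k => ∑ i, (k i) ^ 2 ≤ 25 * n)

theorem card_net (n : ℕ) : ((net n).card : ℝ) ≤ Real.exp (27 * n) := by
  have h1 : ((net n).card : ℝ) ≤ ∑ k ∈ net n, Real.exp (25 * n - ∑ i, (k i : ℝ) ^ 2) := by
    rw [Finset.card_eq_sum_ones]
    push_cast
    refine Finset.sum_le_sum fun k hk => ?_
    apply Real.one_le_exp
    have h2 : ∑ i, (k i) ^ 2 ≤ 25 * (n : ℤ) := (Finset.mem_filter.mp hk).2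
    have h3 : ((∑ i, (k i) ^ 2 : ℤ) : ℝ) ≤ ((25 * (n : ℤ) : ℤ) : ℝ) := by exact_mod_cast h2
    push_cast at h3
    linarith
  have h2 : ∑ k ∈ net n, Real.exp (25 * n - ∑ i, (k i : ℝ) ^ 2) ≤
      ∑ k ∈ Fintype.piFinset (fun _ : Fin n =>
        Finset.Icc (-((25 * n : ℕ) : ℤ)) ((25 * n : ℕ) : ℤ)),
        Real.exp (25 * n - ∑ i, (k i : ℝ) ^ 2) :=
    Finset.sum_le_sum_of_subset_of_nonneg (Finset.filter_subset _ _)
      fun k _ _ => (Real.exp_pos _).le
  have h3 : ∑ k ∈ Fintype.piFinset (fun _ : Fin n =>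
        Finset.Icc (-((25 * n : ℕ) : ℤ)) ((25 * n : ℕ) : ℤ)),
        Real.exp (25 * n - ∑ i, (k i : ℝ) ^ 2) =
      Real.exp (25 * n) * ∏ i : Fin n,
        ∑ k ∈ Finset.Icc (-((25 * n : ℕ) : ℤ)) ((25 * n : ℕ) : ℤ), Real.exp (-(k : ℝ) ^ 2) := by
    rw [Finset.prod_univ_sum, Finset.mul_sum]
    refine Finset.sum_congr rfl fun k _ => ?_
    rw [← Real.exp_sum, ← Real.exp_add, Finset.sum_neg_distrib]
    congr 1
  have h4 : ∑ k ∈ Finset.Icc (-((25 * n : ℕ) : ℤ)) ((25 * n : ℕ) : ℤ), Real.exp (-(k : ℝ) ^ 2)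
      ≤ 3 := by
    calc ∑ k ∈ Finset.Icc (-((25 * n : ℕ) : ℤ)) ((25 * n : ℕ) : ℤ), Real.exp (-(k : ℝ) ^ 2)
        ≤ ∑ k ∈ Finset.Icc (-((25 * n : ℕ) : ℤ)) ((25 * n : ℕ) : ℤ), (1/2 : ℝ) ^ k.natAbs :=
          Finset.sum_le_sum fun k _ => exp_neg_sq_le k
      _ = 3 - 2 * (1/2 : ℝ) ^ (25 * n) := sum_half_pow _
      _ ≤ 3 := by
          have : (0:ℝ) ≤ (1/2 : ℝ) ^ (25 * n) := by positivity
          linarith
  have h5 : ∏ i : Fin n,
        ∑ k ∈ Finset.Icc (-((25 * n : ℕ) : ℤ)) ((25 * n : ℕ) : ℤ), Real.exp (-(k : ℝ) ^ 2)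
        ≤ Real.exp (2 * n) := by
    rw [Finset.prod_const, Finset.card_univ, Fintype.card_fin]
    have h6 : (3:ℝ) ≤ Real.exp 2 := by have := Real.add_one_le_exp (2:ℝ); linarith
    calc (∑ k ∈ Finset.Icc (-((25 * n : ℕ) : ℤ)) ((25 * n : ℕ) : ℤ), Real.exp (-(k : ℝ) ^ 2)) ^ n
        ≤ (Real.exp 2) ^ n := pow_le_pow_left₀
          (Finset.sum_nonneg fun k _ => (Real.exp_pos _).le) (h4.trans h6) n
      _ = Real.exp (2 * n) := by rw [← Real.exp_nat_mul]; congr 1; ring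
  calc ((net n).card : ℝ) ≤ Real.exp (25 * n) * ∏ i : Fin n,
        ∑ k ∈ Finset.Icc (-((25 * n : ℕ) : ℤ)) ((25 * n : ℕ) : ℤ), Real.exp (-(k : ℝ) ^ 2) :=
        h1.trans (h2.trans h3.le)
    _ ≤ Real.exp (25 * n) * Real.exp (2 * n) := mul_le_mul_of_nonneg_left h5 (Real.exp_pos _).le
    _ = Real.exp (27 * n) := by rw [← Real.exp_add]; congr 1; ring

theorem exists_net {n : ℕ} (hn : 0 < n) (x : EuclideanSpace ℝ (Fin n)) (hx : ‖x‖ ≤ 1) :
    ∃ k ∈ net n, ‖x - WithLp.toLp 2 (fun i => (k i : ℝ) / (4 * Real.sqrt n))‖ ≤ 1/4 ∧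
      ‖(WithLp.toLp 2 (fun i => (k i : ℝ) / (4 * Real.sqrt n)) : EuclideanSpace ℝ (Fin n))‖
        ≤ 5/4 := by
  have hn0 : (0 : ℝ) < n := by exact_mod_cast hn
  set q := 4 * Real.sqrt n with hq
  have hq0 : 0 < q := by positivity
  have hq2 : q ^ 2 = 16 * n := by
    rw [hq, mul_pow, Real.sq_sqrt hn0.le]; norm_num
  set k : Fin n → ℤ := fun i => ⌊x i * q⌋ with hk
  set z : EuclideanSpace ℝ (Fin n) := WithLp.toLp 2 (fun i => (k i : ℝ) / q) with hz
  have hd : ‖x - z‖ ≤ 1/4 := by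
    apply abs_le_of_sq_le_sq' _ (by norm_num) |>.2
    rw [EuclideanSpace.real_norm_sq_eq]
    have h1 : ∀ i, (x - z).ofLp i ^ 2 ≤ (1 / q) ^ 2 := by
      intro i
      have h2 : (x - z).ofLp i = (x i * q - ⌊x i * q⌋) / q := by
        simp only [hz, hk, PiLp.sub_apply]
        field_simp
      rw [h2]
      have h3 := Int.floor_le (x i * q)
      have h4 := Int.lt_floor_add_one (x i * q)
      apply pow_le_pow_left₀
      · exact div_nonneg (by linarith) hq0.le
      · exact div_le_div_of_nonneg_right (by linarith) hq0.le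
    calc ∑ i, (x - z).ofLp i ^ 2 ≤ ∑ i : Fin n, (1 / q) ^ 2 := Finset.sum_le_sum fun i _ => h1 i
      _ = n * (1 / q) ^ 2 := by simp
      _ = (1/4) ^ 2 := by
          rw [div_pow, hq2]; field_simp; norm_num
  have hzn : ‖z‖ ≤ 5/4 := by
    have : z = x - (x - z) := by abel
    rw [this]
    calc ‖x - (x - z)‖ ≤ ‖x‖ + ‖x - z‖ := norm_sub_le _ _
      _ ≤ 5/4 := by linarith
  refine ⟨k, ?_, hd, hzn⟩
  have hsum : ∑ i, (k i) ^ 2 ≤ 25 * (n : ℤ) := by
    have h1 : ‖z‖ ^ 2 ≤ (5/4) ^ 2 := pow_le_pow_left₀ (norm_nonneg _) hzn 2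
    rw [EuclideanSpace.real_norm_sq_eq] at h1
    have h2 : ∑ i, z.ofLp i ^ 2 = (∑ i, (k i : ℝ) ^ 2) / q ^ 2 := by
      rw [Finset.sum_div]
      exact Finset.sum_congr rfl fun i _ => by simp only [hz]; rw [div_pow]
    rw [h2, div_le_iff₀ (by positivity), hq2] at h1
    have h3 : ∑ i, (k i : ℝ) ^ 2 ≤ 25 * n := by linarith
    exact_mod_cast h3
  rw [net, Finset.mem_filter, Fintype.mem_piFinset]
  refine ⟨fun i => ?_, hsum⟩
  have h4 : (k i) ^ 2 ≤ 25 * (n : ℤ) :=
    (Finset.single_le_sum (f := fun i => (k i) ^ 2) (fun i _ => sq_nonneg _)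
      (Finset.mem_univ i)).trans hsum
  rw [Finset.mem_Icc]
  push_cast
  constructor
  · nlinarith [sq_nonneg (k i), sq_nonneg (k i + 1)]
  · nlinarith [sq_nonneg (k i), sq_nonneg (k i - 1)]

theorem opnorm_of_net {n : ℕ} (hn : 0 < n) (W : Matrix (Fin n) (Fin n) ℝ) (T : ℝ) (hT : 0 ≤ T)
    (h : ∀ k ∈ net n, ∀ l ∈ net n, ∑ i, ∑ j, W i j * ((k i : ℝ) * (l j : ℝ)) ≤ T)
    (v : Fin n → ℝ) :
    ∑ i, (∑ j, W i j * v j) ^ 2 ≤ (T / (7 * n)) ^ 2 * ∑ i, v i ^ 2 := by
  have hn0 : (0 : ℝ) < n := by exact_mod_cast hn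
  set q := 4 * Real.sqrt n with hq
  have hq0 : 0 < q := by positivity
  have hq2 : q ^ 2 = 16 * n := by
    rw [hq, mul_pow, Real.sq_sqrt hn0.le]; norm_num
  set Φ : EuclideanSpace ℝ (Fin n) →L[ℝ] EuclideanSpace ℝ (Fin n) :=
    Matrix.toEuclideanCLM (𝕜 := ℝ) W with hΦ
  set S := T / (16 * n) with hS
  have hS0 : 0 ≤ S := by positivity
  -- bilinear bound on unit balls
  have hbil : ∀ x y : EuclideanSpace ℝ (Fin n), ‖x‖ ≤ 1 → ‖y‖ ≤ 1 →
      inner ℝ y (Φ x) ≤ 9/16 * ‖Φ‖ + S := by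
    intro x y hx hy
    obtain ⟨l, hl, hl1, hl2⟩ := exists_net hn x hx
    obtain ⟨k, hk, hk1, hk2⟩ := exists_net hn y hy
    set x' : EuclideanSpace ℝ (Fin n) := WithLp.toLp 2 (fun i => (l i : ℝ) / q) with hx'
    set y' : EuclideanSpace ℝ (Fin n) := WithLp.toLp 2 (fun i => (k i : ℝ) / q) with hy'
    have e1 : inner ℝ y (Φ x) = inner ℝ (y - y') (Φ x) + inner ℝ y' (Φ (x - x'))
        + inner ℝ y' (Φ x') := by
      rw [map_sub, inner_sub_left, inner_sub_right]; ring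
    have b1 : inner ℝ (y - y') (Φ x) ≤ 1/4 * ‖Φ‖ := by
      calc inner ℝ (y - y') (Φ x) ≤ ‖y - y'‖ * ‖Φ x‖ := real_inner_le_norm _ _
        _ ≤ 1/4 * (‖Φ‖ * 1) := by
            apply mul_le_mul hk1 _ (norm_nonneg _) (by norm_num)
            exact (Φ.le_opNorm x).trans (mul_le_mul_of_nonneg_left hx (norm_nonneg _))
        _ = 1/4 * ‖Φ‖ := by ring
    have b2 : inner ℝ y' (Φ (x - x')) ≤ 5/16 * ‖Φ‖ := by
      calc inner ℝ y' (Φ (x - x')) ≤ ‖y'‖ * ‖Φ (x - x')‖ := real_inner_le_norm _ _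
        _ ≤ 5/4 * (‖Φ‖ * (1/4)) := by
            apply mul_le_mul hk2 _ (norm_nonneg _) (by norm_num)
            exact (Φ.le_opNorm _).trans (mul_le_mul_of_nonneg_left hl1 (norm_nonneg _))
        _ = 5/16 * ‖Φ‖ := by ring
    have b3 : inner ℝ y' (Φ x') ≤ S := by
      have e2 : inner ℝ y' (Φ x') = (∑ i, ∑ j, W i j * ((k i : ℝ) * (l j : ℝ))) / q ^ 2 := by
        rw [PiLp.inner_apply, Finset.sum_div]
        refine Finset.sum_congr rfl fun i _ => ?_
        have e3 : (Φ x').ofLp i = ∑ j, W i j * ((l j : ℝ) / q) := by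
          rw [hΦ, hx', Matrix.toEuclideanCLM_toLp]
          rfl
        rw [e3, Finset.sum_div]
        simp only [hy', RCLike.inner_apply, conj_trivial]
        rw [Finset.sum_mul]
        refine Finset.sum_congr rfl fun j _ => ?_
        field_simp
      rw [e2, hq2, hS]
      exact div_le_div_of_nonneg_right (h k hk l hl) (by positivity)
    rw [e1]
    linarith
  have hnorm : ‖Φ‖ ≤ 9/16 * ‖Φ‖ + S := by
    apply ContinuousLinearMap.opNorm_le_of_unit_norm
    · positivity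
    · intro x hx
      by_cases h0 : Φ x = 0
      · rw [h0, norm_zero]; positivity
      · have hpos : 0 < ‖Φ x‖ := norm_pos_iff.mpr h0
        have h1 := hbil x ((‖Φ x‖)⁻¹ • Φ x) hx.le (by
          rw [norm_smul, norm_inv, norm_norm, inv_mul_cancel₀ hpos.ne'])
        rw [real_inner_smul_left, real_inner_self_eq_norm_sq] at h1
        have h2 : (‖Φ x‖)⁻¹ * ‖Φ x‖ ^ 2 = ‖Φ x‖ := by field_simp
        rw [h2] at h1
        exact h1
  have hnorm' : ‖Φ‖ ≤ T / (7 * n) := by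
    have h1 : ‖Φ‖ ≤ 16/7 * S := by linarith
    have h2 : 16/7 * S = T / (7 * n) := by rw [hS]; field_simp
    rw [← h2]; exact h1
  have h3 := Φ.le_opNorm (WithLp.toLp 2 v)
  have h4 : ‖Φ (WithLp.toLp 2 v)‖ ^ 2 = ∑ i, (∑ j, W i j * v j) ^ 2 := by
    rw [EuclideanSpace.real_norm_sq_eq]
    refine Finset.sum_congr rfl fun i _ => ?_
    rw [hΦ, Matrix.toEuclideanCLM_toLp]
    rfl
  have h5 : ‖(WithLp.toLp 2 v : EuclideanSpace ℝ (Fin n))‖ ^ 2 = ∑ i, v i ^ 2 := by
    rw [EuclideanSpace.real_norm_sq_eq]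
  rw [← h4, ← h5, ← mul_pow]
  apply pow_le_pow_left₀ (norm_nonneg _)
  exact h3.trans (mul_le_mul_of_nonneg_right hnorm' (norm_nonneg _))


noncomputable def Amat {n : ℕ} (s : Fin n → Fin n → Bool) (i j : Fin n) : ℝ :=
  if i < j then (if s i j = true then (1:ℝ) else -1)
    else if j < i then (if s j i = true then (1:ℝ) else -1) else 0

noncomputable def Wmat {n : ℕ} (δ : ℝ) (s : Fin n → Fin n → Bool) (i j : Fin n) : ℝ :=
  if i < j then sg (s i j) - 2 * δ else if j < i then sg (s j i) - 2 * δ else 0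

theorem sum_swap {n : ℕ} (g : Fin n → Fin n → ℝ) :
    ∑ i, ∑ j, (if i < j then g j i else 0) = ∑ i, ∑ j, (if j < i then g i j else 0) := by
  rw [Finset.sum_comm]

theorem bil_eq {n : ℕ} (δ : ℝ) (s : Fin n → Fin n → Bool) (y x : Fin n → ℝ) :
    ∑ i, ∑ j, Wmat δ s i j * (y i * x j) = lin δ (fun i j => y i * x j + y j * x i) s := by
  have e1 : ∑ i, ∑ j, Wmat δ s i j * (y i * x j) =
      (∑ i, ∑ j, (if i < j then (sg (s i j) - 2 * δ) * (y i * x j) else 0)) +
      ∑ i, ∑ j, (if j < i then (sg (s j i) - 2 * δ) * (y i * x j) else 0) := by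
    rw [← Finset.sum_add_distrib]
    refine Finset.sum_congr rfl fun i _ => ?_
    rw [← Finset.sum_add_distrib]
    refine Finset.sum_congr rfl fun j _ => ?_
    unfold Wmat
    rcases lt_trichotomy i j with h | h | h
    · simp [h, not_lt.mpr h.le]
    · simp [h]
    · simp [h, not_lt.mpr h.le]
  rw [e1, ← sum_swap (fun i j => (sg (s j i) - 2 * δ) * (y i * x j))]
  unfold lin
  rw [← Finset.sum_add_distrib]
  refine Finset.sum_congr rfl fun i _ => ?_
  rw [← Finset.sum_add_distrib]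
  refine Finset.sum_congr rfl fun j _ => ?_
  split_ifs
  · ring
  · ring

theorem var_bound {n : ℕ} (y x : Fin n → ℝ) :
    (∑ i, ∑ j, if i < j then (y i * x j + y j * x i) ^ 2 else 0) ≤
      2 * ((∑ i, y i ^ 2) * ∑ j, x j ^ 2) := by
  have e1 : (∑ i, ∑ j, if i < j then (y i * x j + y j * x i) ^ 2 else 0) ≤
      (∑ i, ∑ j, (if i < j then 2 * (y i ^ 2 * x j ^ 2) else 0)) +
      ∑ i, ∑ j, (if i < j then 2 * (y j ^ 2 * x i ^ 2) else 0) := by
    rw [← Finset.sum_add_distrib]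
    refine Finset.sum_le_sum fun i _ => ?_
    rw [← Finset.sum_add_distrib]
    refine Finset.sum_le_sum fun j _ => ?_
    split_ifs
    · nlinarith [sq_nonneg (y i * x j - y j * x i)]
    · simp
  rw [sum_swap (fun i j => 2 * (y i ^ 2 * x j ^ 2)), ← Finset.sum_add_distrib] at e1
  refine e1.trans ?_
  rw [Finset.sum_mul_sum, Finset.mul_sum]
  refine Finset.sum_le_sum fun i _ => ?_
  rw [← Finset.sum_add_distrib, Finset.mul_sum]
  refine Finset.sum_le_sum fun j _ => ?_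
  have h0 : 0 ≤ 2 * (y i ^ 2 * x j ^ 2) := by positivity
  rcases lt_trichotomy i j with h | h | h
  · simp [h, not_lt.mpr h.le]
  · simp only [h, lt_irrefl, if_false, add_zero]; rw [h] at h0; exact h0
  · simp [h, not_lt.mpr h.le]

theorem Wmat_row {n : ℕ} (δ : ℝ) (s : Fin n → Fin n → Bool) (k : Fin n) :
    -∑ j, Wmat δ s k j = lin δ (fun i j => -((Pi.single k 1 : Fin n → ℝ) i
      + (Pi.single k 1 : Fin n → ℝ) j)) s := by
  have h := bil_eq δ s (Pi.single k 1) (fun _ => 1)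
  have e1 : ∑ i, ∑ j, Wmat δ s i j * ((Pi.single k 1 : Fin n → ℝ) i * 1) = ∑ j, Wmat δ s k j := by
    rw [Finset.sum_eq_single k]
    · simp
    · intro b _ hb
      simp [Pi.single_eq_of_ne hb]
    · intro h; exact absurd (Finset.mem_univ k) h
  rw [e1] at h
  rw [h]
  unfold lin
  rw [← Finset.sum_neg_distrib]
  refine Finset.sum_congr rfl fun i _ => ?_
  rw [← Finset.sum_neg_distrib]
  refine Finset.sum_congr rfl fun j _ => ?_
  split_ifs
  · ring
  · ring

theorem var_row {n : ℕ} (k : Fin n) :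
    (∑ i, ∑ j, if i < j then (-((Pi.single k 1 : Fin n → ℝ) i
      + (Pi.single k 1 : Fin n → ℝ) j)) ^ 2 else 0) ≤ (n : ℝ) := by
  set y : Fin n → ℝ := Pi.single k 1 with hy
  have hyk : y k = 1 := by simp [hy]
  have hyne : ∀ i, i ≠ k → y i = 0 := fun i hi => by simp [hy, Pi.single_eq_of_ne hi]
  have hy0 : ∀ i, 0 ≤ y i := by
    intro i
    by_cases hi : i = k
    · rw [hi, hyk]; norm_num
    · rw [hyne i hi]
  have e1 : (∑ i, ∑ j, if i < j then (-(y i + y j)) ^ 2 else 0) =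
      (∑ i, ∑ j, (if i < j then y i else 0)) + ∑ i, ∑ j, (if i < j then y j else 0) := by
    rw [← Finset.sum_add_distrib]
    refine Finset.sum_congr rfl fun i _ => ?_
    rw [← Finset.sum_add_distrib]
    refine Finset.sum_congr rfl fun j _ => ?_
    by_cases h : i < j
    · simp only [h, if_true]
      by_cases hi : i = k
      · have hj : y j = 0 := hyne j (fun hj => by rw [hi, hj] at h; exact lt_irrefl _ h)
        rw [hi, hyk, hj]; norm_num
      · by_cases hj : j = k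
        · rw [hyne i hi, hj, hyk]; norm_num
        · rw [hyne i hi, hyne j hj]; norm_num
    · simp [h]
  rw [e1, sum_swap (fun i _ => y i), ← Finset.sum_add_distrib]
  calc ∑ i, (∑ j, (if i < j then y i else 0) + ∑ j, (if j < i then y i else 0))
      ≤ ∑ i, ∑ j : Fin n, y i := by
        refine Finset.sum_le_sum fun i _ => ?_
        rw [← Finset.sum_add_distrib]
        refine Finset.sum_le_sum fun j _ => ?_
        have h0 := hy0 i
        rcases lt_trichotomy i j with h | h | h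
        · simp [h, not_lt.mpr h.le]
        · simp only [h, lt_irrefl, if_false, add_zero]; exact hy0 j
        · simp [h, not_lt.mpr h.le]
    _ = n := by
        simp only [Finset.sum_const, Finset.card_univ, Fintype.card_fin, nsmul_eq_mul]
        rw [← Finset.mul_sum, Finset.sum_eq_single k]
        · rw [hyk, mul_one]
        · intro b _ hb; exact hyne b hb
        · intro h; exact absurd (Finset.mem_univ k) h

theorem Amat_eq {n : ℕ} (δ : ℝ) (s : Fin n → Fin n → Bool) (i j : Fin n) :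
    Amat s i j = Wmat δ s i j + 2 * δ - (if i = j then 2 * δ else 0) := by
  unfold Amat Wmat sg
  rcases lt_trichotomy i j with h | h | h
  · simp [h, h.ne]
  · simp [h]
  · simp [h, not_lt.mpr h.le, h.ne']

open Classical in
theorem union_bound {n : ℕ} {δ : ℝ} (h0 : 0 ≤ δ) (h1 : δ ≤ 1/2) {α : Type*} (F : Finset α)
    (P : α → (Fin n → Fin n → Bool) → Prop) (b : ℝ)
    (hb : ∀ a ∈ F, ∑ s ∈ Finset.univ.filter (fun s => P a s), wt δ s ≤ b) :
    ∑ s ∈ Finset.univ.filter (fun s => ∃ a ∈ F, P a s), wt δ s ≤ F.card * b := by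
  calc ∑ s ∈ Finset.univ.filter (fun s => ∃ a ∈ F, P a s), wt δ s
      = ∑ s, if (∃ a ∈ F, P a s) then wt δ s else 0 := by rw [Finset.sum_filter]
    _ ≤ ∑ s, ∑ a ∈ F, if P a s then wt δ s else 0 := by
        refine Finset.sum_le_sum fun s _ => ?_
        have hnn : ∀ a ∈ F, 0 ≤ (if P a s then wt δ s else 0) := by
          intro a _
          split_ifs
          · exact wt_nonneg h0 h1 s
          · exact le_refl _
        split_ifs with h
        · obtain ⟨a, ha, hPa⟩ := h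
          calc wt δ s = (if P a s then wt δ s else 0) := by rw [if_pos hPa]
            _ ≤ _ := Finset.single_le_sum hnn ha
        · exact Finset.sum_nonneg hnn
    _ = ∑ a ∈ F, ∑ s, if P a s then wt δ s else 0 := Finset.sum_comm
    _ ≤ ∑ a ∈ F, b := by
        refine Finset.sum_le_sum fun a ha => ?_
        rw [← Finset.sum_filter]
        exact hb a ha
    _ = F.card * b := by rw [Finset.sum_const, nsmul_eq_mul]

/-- the synchronization property -/
def Good {n : ℕ} (s : Fin n → Fin n → Bool) : Prop :=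
  ∀ θ : Fin n → ℝ, IsLocalMin
    (fun φ : Fin n → ℝ => (1/2 : ℝ) * ∑ i : Fin n, ∑ j : Fin n,
      Amat s i j * (1 - Real.cos (φ i - φ j))) θ →
    ∀ i j : Fin n, ∃ k : ℤ, θ i - θ j = 2 * Real.pi * (k : ℝ)

theorem good_of {n : ℕ} (hn : 0 < n) {δ κ : ℝ} (h0 : 0 ≤ δ) (h1 : δ ≤ 1/2)
    (hκ : 0 < κ) (hκ1 : κ ≤ 1) (hL : 40 * (100 * Real.sqrt n) ≤ κ * (2 * δ * n))
    (s : Fin n → Fin n → Bool)
    (hs1 : ∀ k ∈ net n, ∀ l ∈ net n,
      ∑ i, ∑ j, Wmat δ s i j * ((k i : ℝ) * (l j : ℝ)) ≤ 400 * n * Real.sqrt n)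
    (hs2 : ∀ i, κ * (2 * δ * n) ≤ ∑ j, Amat s i j) : Good s := by
  have hn0 : (0 : ℝ) < n := by exact_mod_cast hn
  have hn1 : (1 : ℝ) ≤ n := by exact_mod_cast hn
  have hsq : 0 < Real.sqrt n := Real.sqrt_pos.mpr hn0
  have hD : 0 < 2 * δ * n := by
    have : 0 < κ * (2 * δ * n) := by
      have : 0 < 40 * (100 * Real.sqrt n) := by positivity
      linarith
    exact (mul_pos_iff_of_pos_left hκ).mp this
  intro θ hθ
  refine det_sync hn (Amat s) ?_ ?_ (2 * δ * n) (100 * Real.sqrt n) κ hD hκ hκ1 (by positivity)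
    hL ?_ hs2 θ hθ
  · intro i j
    unfold Amat
    rcases lt_trichotomy i j with h | h | h
    · simp [h, not_lt.mpr h.le]
    · simp [h]
    · simp [h, not_lt.mpr h.le]
  · intro i
    unfold Amat
    simp
  · intro v
    have hop := opnorm_of_net hn (fun i j => Wmat δ s i j) (400 * n * Real.sqrt n) (by positivity)
      hs1 v
    have e1 : ∀ i, ∑ j, (Amat s i j - 2 * δ * n / n) * v j =
        (∑ j, Wmat δ s i j * v j) - 2 * δ * v i := by
      intro i
      have e2 : ∀ j, (Amat s i j - 2 * δ * n / n) * v j =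
          Wmat δ s i j * v j - (if i = j then 2 * δ * v j else 0) := by
        intro j
        rw [Amat_eq δ s i j]
        have : 2 * δ * n / n = 2 * δ := by field_simp
        rw [this]
        split_ifs
        · ring
        · ring
      rw [Finset.sum_congr rfl fun j _ => e2 j, Finset.sum_sub_distrib]
      simp
    have e3 : (400 * n * Real.sqrt n / (7 * n)) ^ 2 ≤ 3300 * n := by
      have : 400 * n * Real.sqrt n / (7 * n) = 400 / 7 * Real.sqrt n := by field_simp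
      rw [this, mul_pow, Real.sq_sqrt hn0.le]
      nlinarith
    have hv0 : 0 ≤ ∑ i, v i ^ 2 := Finset.sum_nonneg fun i _ => sq_nonneg _
    calc ∑ i, (∑ j, (Amat s i j - 2 * δ * n / n) * v j) ^ 2
        = ∑ i, ((∑ j, Wmat δ s i j * v j) - 2 * δ * v i) ^ 2 :=
          Finset.sum_congr rfl fun i _ => by rw [e1]
      _ ≤ ∑ i, (2 * (∑ j, Wmat δ s i j * v j) ^ 2 + 2 * v i ^ 2) := by
          refine Finset.sum_le_sum fun i _ => ?_
          have h3 : (2 * δ * v i) ^ 2 ≤ v i ^ 2 := by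
            have h4 : (2 * δ) ^ 2 ≤ 1 := by nlinarith
            rw [mul_pow]
            nlinarith [sq_nonneg (v i)]
          nlinarith [sq_nonneg ((∑ j, Wmat δ s i j * v j) + 2 * δ * v i)]
      _ = 2 * (∑ i, (∑ j, Wmat δ s i j * v j) ^ 2) + 2 * ∑ i, v i ^ 2 := by
          rw [Finset.sum_add_distrib, Finset.mul_sum, Finset.mul_sum]
      _ ≤ 2 * ((3300 * n) * ∑ i, v i ^ 2) + 2 * ∑ i, v i ^ 2 := by
          have := hop.trans (mul_le_mul_of_nonneg_right e3 hv0)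
          linarith
      _ ≤ (100 * Real.sqrt n) ^ 2 * ∑ i, v i ^ 2 := by
          rw [mul_pow, Real.sq_sqrt hn0.le]
          nlinarith

open Classical in
theorem prob_good {n : ℕ} (hn : 0 < n) {δ κ : ℝ} (h0 : 0 ≤ δ) (h1 : δ ≤ 1/2)
    (hκ : 0 < κ) (hκ1 : κ ≤ 1) (hL : 40 * (100 * Real.sqrt n) ≤ κ * (2 * δ * n))
    (hτ : 0 < 2 * δ * (n - 1) - κ * (2 * δ * n)) :
    1 - Real.exp (-(10 * n)) -
      n * Real.exp (-((2 * δ * (n - 1) - κ * (2 * δ * n)) ^ 2 / (2 * n))) ≤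
    ∑ s : Fin n → Fin n → Bool, if Good s then wt δ s else 0 := by
  have hn0 : (0 : ℝ) < n := by exact_mod_cast hn
  have hsq : 0 < Real.sqrt n := Real.sqrt_pos.mpr hn0
  set τ := 2 * δ * (n - 1) - κ * (2 * δ * n) with hτd
  set T := 400 * n * Real.sqrt n with hT
  have hT0 : 0 < T := by positivity
  set S1 := Finset.univ.filter (fun s : Fin n → Fin n → Bool =>
    ∃ a ∈ net n ×ˢ net n, T ≤ ∑ i, ∑ j, Wmat δ s i j * ((a.1 i : ℝ) * (a.2 j : ℝ))) with hS1
  set S2 := Finset.univ.filter (fun s : Fin n → Fin n → Bool =>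
    ∃ i ∈ (Finset.univ : Finset (Fin n)), ∑ j, Amat s i j ≤ κ * (2 * δ * n)) with hS2
  have hP1 : ∑ s ∈ S1, wt δ s ≤ Real.exp (-(10 * n)) := by
    have hu := union_bound h0 h1 (net n ×ˢ net n)
      (fun a s => T ≤ ∑ i, ∑ j, Wmat δ s i j * ((a.1 i : ℝ) * (a.2 j : ℝ)))
      (Real.exp (-(64 * n))) ?_
    · refine hu.trans ?_
      rw [Finset.card_product]
      push_cast
      have hc := card_net n
      have hc0 : (0:ℝ) ≤ (net n).card := Nat.cast_nonneg _
      calc ((net n).card : ℝ) * (net n).card * Real.exp (-(64 * n))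
          ≤ Real.exp (27 * n) * Real.exp (27 * n) * Real.exp (-(64 * n)) := by
            gcongr
        _ = Real.exp (-(10 * n)) := by
            rw [← Real.exp_add, ← Real.exp_add]; congr 1; ring
    · intro a ha
      rw [Finset.mem_product] at ha
      have hk : ∑ i, ((a.1 i : ℝ)) ^ 2 ≤ 25 * n := by
        have h2 : ∑ i, (a.1 i) ^ 2 ≤ 25 * (n : ℤ) := (Finset.mem_filter.mp ha.1).2
        have h3 : ((∑ i, (a.1 i) ^ 2 : ℤ) : ℝ) ≤ ((25 * (n : ℤ) : ℤ) : ℝ) := by exact_mod_cast h2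
        push_cast at h3
        exact h3
      have hl : ∑ i, ((a.2 i : ℝ)) ^ 2 ≤ 25 * n := by
        have h2 : ∑ i, (a.2 i) ^ 2 ≤ 25 * (n : ℤ) := (Finset.mem_filter.mp ha.2).2
        have h3 : ((∑ i, (a.2 i) ^ 2 : ℤ) : ℝ) ≤ ((25 * (n : ℤ) : ℤ) : ℝ) := by exact_mod_cast h2
        push_cast at h3
        exact h3
      have hvar : (∑ i, ∑ j, if i < j then ((fun i j : Fin n => (a.1 i : ℝ) * (a.2 j : ℝ)
          + (a.1 j : ℝ) * (a.2 i : ℝ)) i j) ^ 2 else 0) ≤ 1250 * (n : ℝ) ^ 2 := by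
        refine (var_bound (fun i => (a.1 i : ℝ)) (fun i => (a.2 i : ℝ))).trans ?_
        have h4 : (∑ i, ((a.1 i : ℝ)) ^ 2) * ∑ j, ((a.2 j : ℝ)) ^ 2 ≤ (25 * n) * (25 * n) :=
          mul_le_mul hk hl (Finset.sum_nonneg fun i _ => sq_nonneg _) (by positivity)
        linarith
      have hch := chernoff h0 h1 (fun i j : Fin n => (a.1 i : ℝ) * (a.2 j : ℝ)
          + (a.1 j : ℝ) * (a.2 i : ℝ)) (1250 * (n : ℝ) ^ 2) T (by positivity) hT0 hvar
        (Finset.univ.filter (fun s => T ≤ ∑ i, ∑ j, Wmat δ s i j * ((a.1 i : ℝ) * (a.2 j : ℝ))))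
        (by
          intro s hs
          have h5 := (Finset.mem_filter.mp hs).2
          rwa [bil_eq δ s (fun i => (a.1 i : ℝ)) (fun i => (a.2 i : ℝ))] at h5)
      refine hch.trans (le_of_eq ?_)
      congr 2
      rw [hT, mul_pow, Real.sq_sqrt hn0.le]
      field_simp
      norm_num
  have hP2 : ∑ s ∈ S2, wt δ s ≤ n * Real.exp (-(τ ^ 2 / (2 * n))) := by
    have hu := union_bound h0 h1 (Finset.univ : Finset (Fin n))
      (fun i s => ∑ j, Amat s i j ≤ κ * (2 * δ * n)) (Real.exp (-(τ ^ 2 / (2 * n)))) ?_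
    · refine le_trans (le_of_eq (Finset.sum_congr ?_ (fun _ _ => rfl))) (hu.trans ?_)
      · ext s
        simp only [hS2, Finset.mem_filter]
      · rw [Finset.card_univ, Fintype.card_fin]
    · intro k _
      refine chernoff h0 h1 _ n τ hn0 hτ (var_row k) _ ?_
      intro s hs
      have h5 : ∑ j, Amat s k j ≤ κ * (2 * δ * n) := (Finset.mem_filter.mp hs).2
      rw [← Wmat_row]
      have h6 : ∑ j, Amat s k j = (∑ j, Wmat δ s k j) + 2 * δ * n - 2 * δ := by
        rw [Finset.sum_congr rfl fun j _ => Amat_eq δ s k j, Finset.sum_sub_distrib,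
          Finset.sum_add_distrib]
        simp
        ring
      rw [hτd]
      linarith
  have hgood : ∀ s, s ∉ S1 → s ∉ S2 → Good s := by
    intro s hs1 hs2
    refine good_of hn h0 h1 hκ hκ1 hL s ?_ ?_
    · intro k hk l hl
      by_contra h
      push Not at h
      apply hs1
      rw [hS1, Finset.mem_filter]
      exact ⟨Finset.mem_univ _, (k, l), Finset.mem_product.mpr ⟨hk, hl⟩, h.le⟩
    · intro i
      by_contra h
      push Not at h
      apply hs2
      rw [hS2, Finset.mem_filter]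
      exact ⟨Finset.mem_univ _, i, Finset.mem_univ _, h.le⟩
  have htot : (1 : ℝ) ≤ (∑ s : Fin n → Fin n → Bool, if Good s then wt δ s else 0) +
      ∑ s ∈ S1, wt δ s + ∑ s ∈ S2, wt δ s := by
    rw [← sum_wt (n := n) δ]
    have e1 : ∑ s ∈ S1, wt δ s = ∑ s, if s ∈ S1 then wt δ s else 0 := by
      rw [← Finset.sum_filter]; congr 1; ext s; simp
    have e2 : ∑ s ∈ S2, wt δ s = ∑ s, if s ∈ S2 then wt δ s else 0 := by
      rw [← Finset.sum_filter]; congr 1; ext s; simp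
    rw [e1, e2, ← Finset.sum_add_distrib, ← Finset.sum_add_distrib]
    refine Finset.sum_le_sum fun s _ => ?_
    have hw := wt_nonneg h0 h1 s
    by_cases hs1 : s ∈ S1
    · rw [if_pos hs1]
      split_ifs <;> linarith
    · by_cases hs2 : s ∈ S2
      · rw [if_pos hs2]
        split_ifs <;> linarith
      · rw [if_pos (hgood s hs1 hs2)]
        split_ifs <;> linarith
  linarith

theorem main_aux (ε : ℝ) (hε : 0 < ε) (δ : ℕ → ℝ)
    (hev : ∀ᶠ n : ℕ in Filter.atTop,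
        (1 + ε) * Real.sqrt (Real.log ((n : ℕ) : ℝ) / (2 * ((n : ℕ) : ℝ))) ≤ δ n) :
    ∀ᶠ n : ℕ in Filter.atTop, 0 < n ∧
      40 * (100 * Real.sqrt n) ≤ (ε / (4 * (1 + ε))) * (2 * δ n * n) ∧
      0 < 2 * δ n * (n - 1) - (ε / (4 * (1 + ε))) * (2 * δ n * n) ∧
      (1 + ε) * Real.log n ≤
        (2 * δ n * (n - 1) - (ε / (4 * (1 + ε))) * (2 * δ n * n)) ^ 2 / (2 * n) := by
  have hlog : Filter.Tendsto (fun n : ℕ => Real.log (n : ℝ)) Filter.atTop Filter.atTop :=
    Real.tendsto_log_atTop.comp tendsto_natCast_atTop_atTop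
  have hl1 := hlog.eventually_ge_atTop (128000000 / ε ^ 2)
  have hl2 := tendsto_natCast_atTop_atTop (R := ℝ) |>.eventually_ge_atTop (4 * (1 + ε) / ε)
  filter_upwards [hev, hl1, hl2, Filter.eventually_gt_atTop 1] with n hn1 hn2 hn3 hn4
  have hn0 : (0 : ℝ) < n := by exact_mod_cast (by omega : 0 < n)
  set l := Real.log (n : ℝ) with hl
  set r := Real.sqrt (l / (2 * n)) with hr
  have hl0 : 0 < l := lt_of_lt_of_le (by positivity) hn2
  have hr0 : 0 < r := Real.sqrt_pos.mpr (by positivity)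
  have hr2 : r ^ 2 = l / (2 * n) := Real.sq_sqrt (by positivity)
  have hr3 : 2 * n * r ^ 2 = l := by rw [hr2]; field_simp
  have h1ε : 0 < 1 + ε := by linarith
  set κ := ε / (4 * (1 + ε)) with hκ
  have hκ1 : κ * (1 + ε) = ε / 4 := by rw [hκ]; field_simp
  have hδ0 : 0 < δ n := lt_of_lt_of_le (by positivity) hn1
  -- κ * 2δn ≥ (ε/2) n r
  have hA : ε / 2 * (n * r) ≤ κ * (2 * δ n * n) := by
    have h2 : κ * (2 * ((1 + ε) * r) * n) ≤ κ * (2 * δ n * n) := by
      gcongr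
    have h3 : κ * (2 * ((1 + ε) * r) * n) = ε / 2 * (n * r) := by
      calc κ * (2 * ((1 + ε) * r) * n) = (κ * (1 + ε)) * (2 * r * n) := by ring
        _ = ε / 2 * (n * r) := by rw [hκ1]; ring
    linarith
  have hB : 40 * (100 * Real.sqrt n) ≤ ε / 2 * (n * r) := by
    apply le_of_sq_le_sq _ (by positivity)
    have e1 : (40 * (100 * Real.sqrt n)) ^ 2 = 16000000 * n := by
      rw [mul_pow, mul_pow, Real.sq_sqrt hn0.le]; ring
    have e2 : (ε / 2 * (n * r)) ^ 2 = ε ^ 2 * l / 8 * n := by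
      calc (ε / 2 * (n * r)) ^ 2 = ε ^ 2 / 8 * n * (2 * n * r ^ 2) := by ring
        _ = ε ^ 2 * l / 8 * n := by rw [hr3]; ring
    rw [e1, e2]
    have h3 : 128000000 ≤ l * ε ^ 2 := by
      rwa [div_le_iff₀ (by positivity)] at hn2
    nlinarith
  have hn3' : 4 * (1 + ε) ≤ n * ε := by
    rwa [div_le_iff₀ hε] at hn3
  -- the main term
  have hC : n * (1 + ε / 2) ≤ (1 + ε) * (n - 1 - κ * n) := by
    have : (1 + ε) * (n - 1 - κ * n) = (1 + ε) * n - (1 + ε) - (κ * (1 + ε)) * n := by ring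
    rw [this, hκ1]
    nlinarith
  have hC0 : 0 < (n : ℝ) - 1 - κ * n := by
    have : 0 < (1 + ε) * (n - 1 - κ * n) := lt_of_lt_of_le (by positivity) hC
    exact (mul_pos_iff_of_pos_left h1ε).mp this
  have hτ : 2 * δ n * (n - 1) - κ * (2 * δ n * n) = 2 * δ n * (n - 1 - κ * n) := by ring
  have hτ2 : 2 * (n * r) * (1 + ε / 2) ≤ 2 * δ n * (n - 1 - κ * n) := by
    calc 2 * (n * r) * (1 + ε / 2) = 2 * r * (n * (1 + ε / 2)) := by ring
      _ ≤ 2 * r * ((1 + ε) * (n - 1 - κ * n)) := mul_le_mul_of_nonneg_left hC (by positivity)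
      _ = 2 * ((1 + ε) * r) * (n - 1 - κ * n) := by ring
      _ ≤ 2 * δ n * (n - 1 - κ * n) := by
          apply mul_le_mul_of_nonneg_right _ hC0.le
          linarith
  refine ⟨by omega, hB.trans hA, ?_, ?_⟩
  · rw [hτ]
    positivity
  · rw [hτ, le_div_iff₀ (by positivity)]
    have h5 : (2 * (n * r) * (1 + ε / 2)) ^ 2 ≤ (2 * δ n * (n - 1 - κ * n)) ^ 2 :=
      pow_le_pow_left₀ (by positivity) hτ2 2
    refine le_trans ?_ h5
    have e3 : (2 * (n * r) * (1 + ε / 2)) ^ 2 = 2 * n * (2 * n * r ^ 2) * (1 + ε / 2) ^ 2 := by ring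
    rw [e3, hr3]
    have h6 : 1 + ε ≤ (1 + ε / 2) ^ 2 := by nlinarith [sq_nonneg ε]
    have h7 : 0 ≤ 2 * n * l := by positivity
    nlinarith

open Classical in
theorem tendsto_good (ε : ℝ) (hε : 0 < ε) (δ : ℕ → ℝ) (hδ : ∀ n : ℕ, 0 ≤ δ n ∧ δ n ≤ 1/2)
    (hev : ∀ᶠ n : ℕ in Filter.atTop,
        (1 + ε) * Real.sqrt (Real.log ((n : ℕ) : ℝ) / (2 * ((n : ℕ) : ℝ))) ≤ δ n) :
    Filter.Tendsto (fun n : ℕ => ∑ s : Fin n → Fin n → Bool, if Good s then wt (δ n) s else 0)
      Filter.atTop (nhds (1 : ℝ)) := by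
  have hcast : Filter.Tendsto (fun n : ℕ => (n : ℝ)) Filter.atTop Filter.atTop :=
    tendsto_natCast_atTop_atTop
  have hlog : Filter.Tendsto (fun n : ℕ => Real.log (n : ℝ)) Filter.atTop Filter.atTop :=
    Real.tendsto_log_atTop.comp tendsto_natCast_atTop_atTop
  have hlow : Filter.Tendsto (fun n : ℕ => 1 - Real.exp (-(10 * (n : ℝ))) -
      Real.exp (-(ε * Real.log n))) Filter.atTop (nhds (1 - 0 - 0)) := by
    refine Filter.Tendsto.sub (Filter.Tendsto.sub tendsto_const_nhds ?_) ?_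
    · exact Real.tendsto_exp_neg_atTop_nhds_zero.comp
        (hcast.const_mul_atTop (by norm_num : (0:ℝ) < 10))
    · exact Real.tendsto_exp_neg_atTop_nhds_zero.comp (hlog.const_mul_atTop hε)
  rw [sub_zero, sub_zero] at hlow
  refine tendsto_of_tendsto_of_tendsto_of_le_of_le' hlow tendsto_const_nhds ?_ ?_
  · filter_upwards [main_aux ε hε δ hev] with n hn
    obtain ⟨hn0, hn1, hn2, hn3⟩ := hn
    have hnr : (0 : ℝ) < n := by exact_mod_cast hn0
    have h1ε : 0 < 1 + ε := by linarith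
    have hκ1 : ε / (4 * (1 + ε)) ≤ 1 := by
      rw [div_le_one (by positivity)]; linarith
    have h := prob_good hn0 (hδ n).1 (hδ n).2 (by positivity : 0 < ε / (4 * (1 + ε))) hκ1 hn1 hn2
    refine le_trans ?_ h
    have h4 : n * Real.exp (-((2 * δ n * (n - 1) - (ε / (4 * (1 + ε))) * (2 * δ n * n)) ^ 2
        / (2 * n))) ≤ Real.exp (-(ε * Real.log n)) := by
      calc n * Real.exp (-((2 * δ n * (n - 1) - (ε / (4 * (1 + ε))) * (2 * δ n * n)) ^ 2
          / (2 * n))) ≤ n * Real.exp (-((1 + ε) * Real.log n)) := by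
            apply mul_le_mul_of_nonneg_left _ hnr.le
            apply Real.exp_le_exp.mpr
            linarith
        _ = Real.exp (Real.log n) * Real.exp (-((1 + ε) * Real.log n)) := by
            rw [Real.exp_log hnr]
        _ = Real.exp (-(ε * Real.log n)) := by
            rw [← Real.exp_add]; congr 1; ring
    linarith
  · refine Filter.Eventually.of_forall fun n => ?_
    have h1 := sum_wt (n := n) (δ n)
    rw [← h1]
    refine Finset.sum_le_sum fun s _ => ?_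
    split_ifs
    · exact le_refl _
    · exact wt_nonneg (hδ n).1 (hδ n).2 s

end Pool.Agent.Helper98.Sync
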